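import Mathlib

set_option autoImplicit false

open Finset

namespace Pool.Agent.P.MP_bed792_al.Q

theorem ar_lt {T N a b : ℕ} (hT : 1 ≤ T) (k : ℕ) (h : N ^ a < T ^ b) (hk : b ≤ k * a) :
    N < T ^ k := by
  by_contra hc
  have h1 : (T ^ k) ^ a ≤ N ^ a := Nat.pow_le_pow_left (by omega) _
  rw [← pow_mul] at h1
  have := Nat.pow_le_pow_right hT hk
  omega

theorem ar_cancel {N A B : ℕ} (i j : ℕ) (h : A * N ^ (i + j) < B * N ^ i) : A * N ^ j < B := by
  rw [pow_add, mul_comm (N ^ i), ← mul_assoc] at h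
  exact Nat.lt_of_mul_lt_mul_right h

theorem ar_pivot {T N P y : ℕ} (hT : 1 ≤ T) (h1 : y ^ 3 ≤ T ^ 12 * P ^ 2) (h2 : P ^ 40 < N ^ 41)
    (h3 : N ^ 2 ≤ T * y * P) : N < T ^ 18 := by
  have e1 : N ^ 6 ≤ T ^ 15 * P ^ 5 :=
    calc N ^ 6 = (N ^ 2) ^ 3 := by ring
      _ ≤ (T * y * P) ^ 3 := Nat.pow_le_pow_left h3 _
      _ = T ^ 3 * P ^ 3 * y ^ 3 := by ring
      _ ≤ T ^ 3 * P ^ 3 * (T ^ 12 * P ^ 2) := Nat.mul_le_mul_left _ h1
      _ = _ := by ring
  have e2 : 1 * N ^ (41 + 7) < T ^ 120 * N ^ 41 :=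
    calc 1 * N ^ (41 + 7) = (N ^ 6) ^ 8 := by ring
      _ ≤ (T ^ 15 * P ^ 5) ^ 8 := Nat.pow_le_pow_left e1 _
      _ = T ^ 120 * P ^ 40 := by ring
      _ < _ := Nat.mul_lt_mul_of_pos_left h2 (by positivity)
  exact ar_lt hT 18 (by simpa using ar_cancel _ _ e2) (by norm_num)

theorem ar_all {T N P y c q s : ℕ} (hT : 2 ≤ T) (h1 : y ^ 3 ≤ T ^ 12 * P ^ 2)
    (h2 : P ^ 40 < N ^ 41) (h3 : N ≤ T * c * y) (h4 : q * (c - 1) ≤ y)
    (h5 : N ≤ T ^ 2 * q ^ 2 * s) (h6 : N ≤ q ^ 4) (h7 : T ^ 548 ≤ N) : q < c ^ 2 ∧ q < s ^ 2 := by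
  have hT1 : 1 ≤ T := by omega
  have mono : ∀ k ≤ 548, ¬ N < T ^ k := fun k hk h => by
    exact absurd ((Nat.pow_le_pow_right hT1 hk).trans h7) (not_le.2 h)
  clear h7
  have e1 : y ^ 60 < T ^ 240 * N ^ 41 :=
    calc y ^ 60 = (y ^ 3) ^ 20 := by ring
      _ ≤ (T ^ 12 * P ^ 2) ^ 20 := Nat.pow_le_pow_left h1 _
      _ = T ^ 240 * P ^ 40 := by ring
      _ < _ := Nat.mul_lt_mul_of_pos_left h2 (by positivity)
  have hc0 : 0 < c := by
    rcases Nat.eq_zero_or_pos c with h | h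
    · subst h
      exact absurd (show N < T ^ 0 by simpa using h3) (mono 0 (by omega))
    · exact h
  have e2 : N ^ 19 < T ^ 300 * c ^ 60 := by
    have : 1 * N ^ (41 + 19) < T ^ 300 * c ^ 60 * N ^ 41 :=
      calc 1 * N ^ (41 + 19) = N ^ 60 := by ring
        _ ≤ (T * c * y) ^ 60 := Nat.pow_le_pow_left h3 _
        _ = T ^ 60 * c ^ 60 * y ^ 60 := by ring
        _ < T ^ 60 * c ^ 60 * (T ^ 240 * N ^ 41) := Nat.mul_lt_mul_of_pos_left e1 (by positivity)
        _ = _ := by ring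
    simpa using ar_cancel _ _ this
  have hc2 : 2 ≤ c := by
    by_contra hc
    obtain rfl : c = 1 := by omega
    exact mono 16 (by omega) (ar_lt hT1 16 (by simpa using e2) (by norm_num))
  have e3 : q * N ≤ T ^ 2 * y ^ 2 := by
    have : q * c ≤ T * y := by
      obtain ⟨d, rfl⟩ : ∃ d, c = d + 2 := ⟨c - 2, by omega⟩
      have k1 : q * (d + 1) ≤ y := h4
      have k2 := Nat.mul_le_mul_right y hT
      nlinarith
    calc q * N ≤ q * (T * c * y) := Nat.mul_le_mul_left _ h3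
      _ = T * y * (q * c) := by ring
      _ ≤ T * y * (T * y) := Nat.mul_le_mul_left _ this
      _ = _ := by ring
  have e4 : q ^ 30 < T ^ 300 * N ^ 11 := by
    have : q ^ 30 * N ^ 30 < T ^ 300 * N ^ 11 * N ^ 30 :=
      calc q ^ 30 * N ^ 30 = (q * N) ^ 30 := by ring
        _ ≤ (T ^ 2 * y ^ 2) ^ 30 := Nat.pow_le_pow_left e3 _
        _ = T ^ 60 * y ^ 60 := by ring
        _ < T ^ 60 * (T ^ 240 * N ^ 41) := Nat.mul_lt_mul_of_pos_left e1 (by positivity)
        _ = _ := by ring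
    exact Nat.lt_of_mul_lt_mul_right this
  constructor
  · by_contra hc
    have k1 : c ^ 60 ≤ q ^ 30 :=
      calc c ^ 60 = (c ^ 2) ^ 30 := by ring
        _ ≤ _ := Nat.pow_le_pow_left (by omega) _
    have k2 : 1 * N ^ (11 + 8) < T ^ 600 * N ^ 11 :=
      calc 1 * N ^ (11 + 8) = N ^ 19 := by ring
        _ < T ^ 300 * c ^ 60 := e2
        _ ≤ T ^ 300 * (T ^ 300 * N ^ 11) := Nat.mul_le_mul_left _ (k1.trans e4.le)
        _ = _ := by ring
    exact mono 75 (by omega) (ar_lt hT1 75 (by simpa using ar_cancel _ _ k2) (by norm_num))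
  · by_contra hc
    have k1 : N ^ 2 ≤ T ^ 4 * q ^ 5 :=
      calc N ^ 2 ≤ (T ^ 2 * q ^ 2 * s) ^ 2 := Nat.pow_le_pow_left h5 _
        _ = T ^ 4 * q ^ 4 * s ^ 2 := by ring
        _ ≤ T ^ 4 * q ^ 4 * q := Nat.mul_le_mul_left _ (by omega)
        _ = _ := by ring
    have k2 : 1 * q ^ (55 + 5) < T ^ 644 * q ^ 55 :=
      calc 1 * q ^ (55 + 5) = (q ^ 30) ^ 2 := by ring
        _ < (T ^ 300 * N ^ 11) ^ 2 := Nat.pow_lt_pow_left e4 (by norm_num)
        _ = T ^ 600 * (N ^ 2) ^ 11 := by ring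
        _ ≤ T ^ 600 * (T ^ 4 * q ^ 5) ^ 11 := Nat.mul_le_mul_left _ (Nat.pow_le_pow_left k1 _)
        _ = _ := by ring
    have k3 : q < T ^ 129 := ar_lt hT1 129 (by simpa using ar_cancel _ _ k2) (by norm_num)
    refine mono 516 (by omega) (h6.trans_lt ?_)
    calc q ^ 4 < (T ^ 129) ^ 4 := Nat.pow_lt_pow_left k3 (by norm_num)
      _ = _ := by ring

theorem ar_de {y M N : ℕ} (hN : 1 ≤ N) (h1 : y ^ 3 ≤ 2 * N ^ 2 + y ^ 2 * M + 2 * y ^ 2)
    (h2 : M ^ 3 ≤ 2 * N) : (y + M) ^ 3 ≤ 2 ^ 12 * N ^ 2 := by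
  have e0 : N ≤ N ^ 2 := by nlinarith
  have e1 : y ^ 3 ≤ 512 * N ^ 2 := by
    by_cases a : y < 8
    · have : y ^ 3 ≤ 8 ^ 3 := Nat.pow_le_pow_left a.le _
      nlinarith
    by_cases b : y < 4 * M
    · have : y ^ 3 ≤ (4 * M) ^ 3 := Nat.pow_le_pow_left b.le _
      nlinarith
    have k1 : y ^ 2 * (4 * M) ≤ y ^ 2 * y := Nat.mul_le_mul_left _ (by omega)
    have k2 : y ^ 2 * 8 ≤ y ^ 2 * y := Nat.mul_le_mul_left _ (by omega)
    nlinarith
  have e2 : (y + M) ^ 3 ≤ 4 * (y ^ 3 + M ^ 3) := by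
    have : (0 : ℤ) ≤ (y + M) * (y - M) ^ 2 := by positivity
    zify
    nlinarith
  nlinarith

theorem sq_card_le {α β : Type*} [DecidableEq α] [DecidableEq β] (A : Finset α) (f : α → β) :
    A.card ^ 2 ≤ (A.image f).card * ((A ×ˢ A).filter fun p => f p.1 = f p.2).card := by
  rw [card_eq_sum_card_image f A]
  refine sq_sum_le_card_mul_sum_sq.trans (Nat.mul_le_mul_left _ (le_of_eq ?_))
  rw [card_eq_sum_card_fiberwise (f := fun p : α × α => f p.1) (t := A.image f)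
    (fun p hp => mem_image_of_mem _ (mem_product.1 (mem_filter.1 hp).1).1)]
  refine sum_congr rfl fun w _ => ?_
  rw [sq, ← card_product]
  congr 1
  ext p
  simp only [mem_product, mem_filter]
  constructor
  · rintro ⟨⟨h1, h2⟩, h3, h4⟩
    exact ⟨⟨⟨h1, h3⟩, h2.trans h4.symm⟩, h2⟩
  · rintro ⟨⟨⟨h1, h3⟩, h2⟩, h4⟩
    exact ⟨⟨h1, h4⟩, h3, h2.symm.trans h4⟩

variable {K : Type*} [Field K] [Fintype K] [DecidableEq K]

theorem quad_roots {A B C : K} (h : ¬ (A = 0 ∧ B = 0 ∧ C = 0)) :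
    (univ.filter fun x : K => A * x ^ 2 + B * x + C = 0).card ≤ 2 := by
  by_contra hc
  obtain ⟨x, y, z, hx, hy, hz, h1, h2, h3⟩ := two_lt_card_iff.1 (not_le.1 hc)
  simp only [mem_filter, mem_univ, true_and] at hx hy hz
  have e1 : A * (x + y) + B = 0 :=
    mul_left_cancel₀ (sub_ne_zero.2 h1) (by linear_combination hx - hy)
  have e2 : A * (x + z) + B = 0 :=
    mul_left_cancel₀ (sub_ne_zero.2 h2) (by linear_combination hx - hz)
  have e3 : A = 0 := mul_left_cancel₀ (sub_ne_zero.2 h3) (by linear_combination e1 - e2)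
  have e4 : B = 0 := by linear_combination e1 - (x + y) * e3
  exact h ⟨e3, e4, by linear_combination hx - x ^ 2 * e3 - x * e4⟩

theorem exists_ratio {S : Finset K} (hS : Fintype.card K < S.card ^ 2) :
    ∃ r : K, Fintype.card K < 2 * ((S ×ˢ S).image fun p => p.1 + r * p.2).card := by
  set A := S ×ˢ S with hA
  have hAc : A.card = S.card ^ 2 := by rw [hA, card_product, sq]
  let E : K → Finset ((K × K) × K × K) := fun r =>
    (A ×ˢ A).filter fun p => p.1.1 + r * p.1.2 = p.2.1 + r * p.2.2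
  have h1 : ∑ r, (E r).card ≤ ∑ _r : K, A.card + A.card ^ 2 := by
    have k1 : ∀ r, (E r).card ≤ A.card + ((E r).filter fun p => p.1.2 ≠ p.2.2).card := fun r => by
      rw [← card_filter_add_card_filter_not (s := E r) (fun p => p.1.2 = p.2.2)]
      refine Nat.add_le_add_right (card_le_card_of_injOn (fun p => p.1) (fun p hp => ?_) ?_) _
      · exact (mem_product.1 (mem_filter.1 (mem_filter.1 hp).1).1).1
      · intro p hp p' hp' h
        have a1 := mem_filter.1 (mem_coe.1 hp)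
        have a2 := mem_filter.1 (mem_coe.1 hp')
        have a3 := (mem_filter.1 a1.1).2
        have a4 := (mem_filter.1 a2.1).2
        have h' : p.1 = p'.1 := h
        refine Prod.ext h' (Prod.ext ?_ (by rw [← a1.2, ← a2.2, h']))
        rw [← a1.2] at a3
        rw [← a2.2, ← h'] at a4
        linear_combination a4 - a3
    refine (sum_le_sum fun r _ => k1 r).trans ?_
    rw [sum_add_distrib]
    refine Nat.add_le_add_left ?_ _
    rw [← card_sigma, sq, ← card_product]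
    refine card_le_card_of_injOn (fun p => p.2) (fun p hp => ?_) ?_
    · exact (mem_filter.1 (mem_filter.1 (mem_sigma.1 hp).2).1).1
    · rintro ⟨r, p⟩ hp ⟨r', p'⟩ hp' h
      obtain rfl : p = p' := h
      have a1 := mem_filter.1 (mem_sigma.1 (mem_coe.1 hp)).2
      have a2 := mem_filter.1 (mem_sigma.1 (mem_coe.1 hp')).2
      have a3 := (mem_filter.1 a1.1).2
      have a4 := (mem_filter.1 a2.1).2
      have : r = r' := mul_right_cancel₀ (sub_ne_zero.2 a1.2) (by linear_combination a3 - a4)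
      rw [this]
  set q := Fintype.card K with hq
  have hq0 : 0 < q := Fintype.card_pos
  obtain ⟨r, -, hr⟩ := exists_le_of_sum_le (s := (univ : Finset K)) (f := fun r => q * (E r).card)
    (g := fun _ => q * A.card + A.card ^ 2) univ_nonempty (by
      rw [← mul_sum]
      simp only [sum_const, card_univ, smul_eq_mul, ← hq] at h1 ⊢
      exact Nat.mul_le_mul_left _ h1)
  refine ⟨r, ?_⟩
  have h2 := sq_card_le A fun p => p.1 + r * p.2
  set w := (A.image fun p => p.1 + r * p.2).card with hw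
  rw [← hAc] at hS
  by_contra hc
  have h3 : q * A.card ^ 2 ≤ w * (q * A.card + A.card ^ 2) :=
    calc q * A.card ^ 2 ≤ q * (w * (E r).card) := Nat.mul_le_mul_left _ h2
      _ = w * (q * (E r).card) := by ring
      _ ≤ _ := Nat.mul_le_mul_left _ hr
  have h4 : q * A.card < A.card ^ 2 := by rw [sq]; exact Nat.mul_lt_mul_of_pos_right hS (by omega)
  have h5 : 2 * w * (q * A.card + A.card ^ 2) ≤ q * (q * A.card + A.card ^ 2) :=
    Nat.mul_le_mul_right _ (by omega)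
  have h6 : q * (q * A.card) < q * A.card ^ 2 := Nat.mul_lt_mul_of_pos_left h4 hq0
  nlinarith

/-- Two large subsets of a finite field give every element as a short sum of products. -/
theorem sum_eight {S Y : Finset K} (hS : Fintype.card K < S.card ^ 2)
    (hY : Fintype.card K < Y.card ^ 2) (z : K) :
    ∃ s₁ ∈ S, ∃ s₂ ∈ S, ∃ s₃ ∈ S, ∃ s₄ ∈ S, ∃ y₁ ∈ Y, ∃ y₂ ∈ Y, ∃ y₃ ∈ Y, ∃ y₄ ∈ Y,
      z = (s₁ + s₃) * (y₄ - y₃) + (s₂ + s₄) * (y₁ - y₂) := by
  obtain ⟨r, hr⟩ := exists_ratio hS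
  obtain ⟨p, hp, p', hp', hne, he⟩ := exists_ne_map_eq_of_card_lt_of_maps_to (s := Y ×ˢ Y)
    (t := (univ : Finset K)) (by rwa [card_product, ← sq, card_univ])
    (f := fun p => p.1 + r * p.2) (fun _ _ => mem_univ _)
  have hd : p'.2 - p.2 ≠ 0 := fun h => hne (Prod.ext (by linear_combination he + r * h)
    (by linear_combination -h))
  set W := (S ×ˢ S).image fun p => p.1 + r * p.2 with hW
  obtain ⟨w, hw, hw'⟩ : ∃ w ∈ W, w ∈ W.image fun w => z / (p'.2 - p.2) - w := by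
    by_contra hc
    have h1 := card_le_univ (W ∪ W.image fun w => z / (p'.2 - p.2) - w)
    rw [card_union_of_disjoint (disjoint_left.2 fun w h1 h2 => hc ⟨w, h1, h2⟩),
      card_image_of_injective _ sub_right_injective] at h1
    omega
  obtain ⟨w', hw2, e⟩ := mem_image.1 hw'
  obtain ⟨a, ha, rfl⟩ := mem_image.1 hw
  obtain ⟨b, hb, rfl⟩ := mem_image.1 hw2
  refine ⟨a.1, (mem_product.1 ha).1, a.2, (mem_product.1 ha).2, b.1, (mem_product.1 hb).1, b.2,
    (mem_product.1 hb).2, p.1, (mem_product.1 hp).1, p'.1, (mem_product.1 hp').1, p.2,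
    (mem_product.1 hp).2, p'.2, (mem_product.1 hp').2, ?_⟩
  have e' : z = (a.1 + r * a.2 + (b.1 + r * b.2)) * (p'.2 - p.2) := by
    rw [← div_eq_iff hd]; linear_combination e
  linear_combination e' - (a.2 + b.2) * he

end Pool.Agent.P.MP_bed792_al.Q
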