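import Pool.Agent.P.MP_bed792_al.Q.S2

set_option autoImplicit false
set_option linter.unusedSectionVars false

open OnePoint Finset

namespace Pool.Agent.P.MP_bed792_al.Q

namespace S2

variable {F : Type*} [Field F] [DecidableEq F]

/-- The matrix of an element. -/
def toGL : S2 F →* GL (Fin 2) F where
  toFun g := ⟨!![g.a, g.b; g.c, g.d], !![g.d, -g.b; -g.c, g.a], by
      have := g.det
      ext i j; fin_cases i <;> fin_cases j <;> simp [Matrix.mul_apply, Fin.sum_univ_two] <;> grind, by
      have := g.det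
      ext i j; fin_cases i <;> fin_cases j <;> simp [Matrix.mul_apply, Fin.sum_univ_two] <;> grind⟩
  map_one' := by ext i j; fin_cases i <;> fin_cases j <;> simp
  map_mul' g h := by
    ext i j; fin_cases i <;> fin_cases j <;> simp [Matrix.mul_apply, Fin.sum_univ_two]

noncomputable instance : MulAction (S2 F) (OnePoint F) := MulAction.compHom _ toGL

theorem smul_inf (g : S2 F) :
    g • (∞ : OnePoint F) = if g.c = 0 then ∞ else ((g.a / g.c : F) : OnePoint F) :=
  OnePoint.smul_infty_eq_ite (toGL g)

theorem smul_coe (g : S2 F) (k : F) : g • (k : OnePoint F) =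
    if g.c * k + g.d = 0 then ∞ else (((g.a * k + g.b) / (g.c * k + g.d) : F) : OnePoint F) :=
  OnePoint.smul_some_eq_ite (g := toGL g)

theorem fix_inf {g : S2 F} : g • (∞ : OnePoint F) = ∞ ↔ g.c = 0 := by simp [smul_inf]

theorem fix_coe {g : S2 F} {k : F} :
    g • (k : OnePoint F) = k ↔ g.c * k ^ 2 + (g.d - g.a) * k - g.b = 0 := by
  have := g.det
  rw [smul_coe]
  split_ifs with h
  · refine ⟨fun h => (infty_ne_coe _ h).elim, fun h1 => ?_⟩
    exfalso
    grind
  · rw [coe_eq_coe, div_eq_iff h]
    constructor <;> intro h <;> linear_combination -h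

theorem neg_smul' (g : S2 F) (z : OnePoint F) : (-g) • z = g • z := by
  cases z with
  | infty => simp [smul_inf]
  | coe k =>
    rw [smul_coe, smul_coe]
    simp only [neg_a, neg_b, neg_c, neg_d, neg_mul, ← neg_add, neg_eq_zero, neg_div_neg_eq]

/-- The weight of an element in the count of fixed points. -/
noncomputable def wt (g : S2 F) : ℕ := if tr g ^ 2 = 4 then 2 else 1

theorem exists_fix [IsAlgClosed F] (h2 : (2 : F) ≠ 0) {g : S2 F} (hg : ¬ IsC g) :
    ∃ T : Finset (OnePoint F), (∀ z, z ∈ T ↔ g • z = z) ∧ T.card * wt g = 2 := by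
  classical
  have hd := g.det
  rw [isC_iff] at hg
  unfold wt tr
  by_cases hc : g.c = 0
  · by_cases ha : g.a = g.d
    · have hb : g.b ≠ 0 := fun h => hg ⟨h, hc, ha⟩
      refine ⟨{∞}, fun z => ?_, by rw [if_pos (by grind)]; simp⟩
      cases z with
      | infty => simp [fix_inf, hc]
      | coe k => simp [fix_coe, hc, ha, hb]
    · have ha' : g.d - g.a ≠ 0 := fun h => ha (by linear_combination -h)
      refine ⟨{∞, ((g.b / (g.d - g.a) : F) : OnePoint F)}, fun z => ?_, ?_⟩
      · cases z with
        | infty => simp [fix_inf, hc]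
        | coe k =>
          simp only [mem_insert, coe_ne_infty, mem_singleton, coe_eq_coe, false_or, fix_coe, hc,
            eq_div_iff ha']
          constructor <;> intro h <;> linear_combination h
      · rw [if_neg, card_pair (infty_ne_coe _)]
        intro h
        exact ha' (pow_eq_zero_iff (n := 2) (by norm_num) |>.1 (by grind))
  · obtain ⟨r, hr⟩ := IsAlgClosed.exists_pow_nat_eq ((g.a + g.d) ^ 2 - 4) (n := 2) (by norm_num)
    have h2c : 2 * g.c ≠ 0 := mul_ne_zero h2 hc
    have key : ∀ k : F, g.c * k ^ 2 + (g.d - g.a) * k - g.b = 0 ↔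
        k = (g.a - g.d + r) / (2 * g.c) ∨ k = (g.a - g.d - r) / (2 * g.c) := fun k => by
      rw [eq_div_iff h2c, eq_div_iff h2c, ← sub_eq_zero (a := k * _), ← sub_eq_zero (a := k * _),
        ← mul_eq_zero, ← mul_eq_zero_iff_left (mul_ne_zero h2 h2c)]
      exact ⟨fun h => by linear_combination h - hr - 4 * hd,
        fun h => by linear_combination h + hr + 4 * hd⟩
    refine ⟨{(((g.a - g.d + r) / (2 * g.c) : F) : OnePoint F),
      (((g.a - g.d - r) / (2 * g.c) : F) : OnePoint F)}, fun z => ?_, ?_⟩
    · cases z with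
      | infty => simp [fix_inf, hc]
      | coe k => simp [fix_coe, key]
    · by_cases h : (g.a + g.d) ^ 2 = 4
      · have : r = 0 := pow_eq_zero_iff (n := 2) (by norm_num) |>.1 (by rw [hr, h, sub_self])
        simp [h, this]
      · rw [if_neg h, card_pair]
        rw [Ne, coe_eq_coe, div_left_inj' h2c]
        intro e
        have : r = 0 := (mul_eq_zero.1 (show 2 * r = 0 by linear_combination e)).resolve_left h2
        exact h (by rw [this] at hr; linear_combination -hr)

theorem arith {q n j B s k : ℕ} (hq : 4 ≤ q) (hn : n = 1 + j * q) (hj : 1 ≤ j) (hB : B ≤ q * k)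
    (hk : k + 1 ≤ q) (hs : s ≠ 0) (h : n * B = s * (2 + n * (q - 2))) : j = 1 ∧ q ≤ 2 * k + 1 := by
  obtain ⟨r, rfl⟩ : ∃ r, q = r + 2 := ⟨q - 2, by omega⟩
  rw [Nat.add_sub_cancel] at h
  have hn0 : 0 < n := by omega
  have hd : n ∣ 2 * s := by
    have : n ∣ 2 * s + n * (s * r) := ⟨B, by rw [h]; ring⟩
    exact (Nat.dvd_add_left (dvd_mul_right _ _)).1 this
  have hB' : B ≤ (r + 2) * (r + 1) := hB.trans (Nat.mul_le_mul_left _ (by omega))
  obtain ⟨m, hm⟩ := hd
  have hm0 : 1 ≤ m := by
    rcases Nat.eq_zero_or_pos m with h | h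
    · subst h; omega
    · exact h
  have e : 2 * B = m * (2 + n * r) := by
    apply Nat.eq_of_mul_eq_mul_left hn0
    calc n * (2 * B) = 2 * (n * B) := by ring
      _ = (2 * s) * (2 + n * r) := by rw [h]; ring
      _ = _ := by rw [hm]; ring
  have hj3 : j < 3 := by
    by_contra hc
    have : 1 + 3 * (r + 2) ≤ n := by rw [hn]; nlinarith
    nlinarith [Nat.mul_le_mul_right r this]
  have hj1 : j = 1 := by
    by_contra hc
    obtain rfl : j = 2 := by omega
    have : 2 ≤ m := by
      by_contra hc
      obtain rfl : m = 1 := by omega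
      omega
    subst hn
    nlinarith
  subst hj1
  refine ⟨rfl, ?_⟩
  subst hn
  have : (r + 2) * (r + 2) ≤ (r + 2) * (2 * k + 1) := by nlinarith
  exact Nat.le_of_mul_le_mul_left this (by omega)

/-- The upper unipotent part of a subgroup. -/
def upp (H : Subgroup (S2 F)) : AddSubgroup F where
  carrier := {x | Eu x ∈ H}
  add_mem' := fun {x y} hx hy => by
    show Eu (x + y) ∈ H
    rw [Eu_add]; exact H.mul_mem hx hy
  zero_mem' := by
    show Eu 0 ∈ H
    rw [Eu_zero]; exact H.one_mem
  neg_mem' := fun {x} hx => by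
    show Eu (-x) ∈ H
    rw [Eu_neg]; exact H.inv_mem hx

omit [DecidableEq F] in
theorem mem_upp {H : Subgroup (S2 F)} {x : F} : x ∈ upp H ↔ Eu x ∈ H := Iff.rfl

section Count

variable (H : Subgroup (S2 F)) [Fintype H]

open Classical in
/-- Weighted number of non-central elements fixing a point. -/
noncomputable def W (z : OnePoint F) : ℕ :=
  ∑ g ∈ univ.filter (fun g : H => ¬ IsC g.1), if g.1 • z = z then wt g.1 else 0

open Classical in
/-- Number of non-central elements with one fixed point fixing a point. -/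
noncomputable def U (z : OnePoint F) : ℕ :=
  (univ.filter (fun g : H => ¬ IsC g.1 ∧ g.1 • z = z ∧ tr g.1 ^ 2 = 4)).card

variable {H}

theorem W_smul (h : H) (z : OnePoint F) : W H (h.1 • z) = W H z := by
  classical
  unfold W
  refine (Finset.sum_bij' (fun g _ => h * g * h⁻¹) (fun g _ => h⁻¹ * g * h) ?_ ?_ ?_ ?_ ?_).symm
  · intro g hg
    simpa [isC_conj] using hg
  · intro g hg
    have := isC_conj (g := g.1) (h := h.1⁻¹)
    simpa [inv_inv, ← this] using hg
  · intro g _; group
  · intro g _; group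
  · intro g _
    simp only [Subgroup.coe_mul, InvMemClass.coe_inv, mul_smul, inv_smul_smul, smul_left_cancel_iff,
      wt, tr_conj]

theorem card_central (h2 : (2 : F) ≠ 0) (hm : -1 ∈ H) (p : H → Prop) (hp : ∀ g : H, IsC g.1 → p g)
    [DecidablePred p] [DecidablePred fun g : H => ¬ IsC g.1 ∧ p g] :
    (univ.filter fun g : H => ¬ IsC g.1 ∧ p g).card + 2 = (univ.filter p).card := by
  classical
  have hne : (1 : H) ≠ ⟨-1, hm⟩ := fun h => h2 (by
    have := congrArg (fun g : H => g.1.a) h
    simp only [OneMemClass.coe_one, one_a, neg_a] at this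
    linear_combination this)
  rw [← card_pair hne, ← card_union_of_disjoint]
  · congr 1
    ext g
    simp only [mem_union, mem_filter, mem_univ, true_and, mem_insert, mem_singleton]
    constructor
    · rintro (h | rfl | rfl)
      exacts [h.2, hp _ (Or.inl rfl), hp _ (Or.inr rfl)]
    · intro h
      by_cases hc : IsC g.1
      · exact Or.inr (hc.imp (fun e => Subtype.ext e) fun e => Subtype.ext e)
      · exact Or.inl ⟨hc, h⟩
  · rw [disjoint_right]
    intro g hg
    simp only [mem_insert, mem_singleton] at hg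
    rcases hg with rfl | rfl <;> simp [IsC]

theorem W_eq (h2 : (2 : F) ≠ 0) (hm : -1 ∈ H) (z : OnePoint F) :
    W H z + 2 = Nat.card (MulAction.stabilizer H z) + U H z := by
  classical
  have h1 := card_central h2 hm (fun g : H => g.1 • z = z) (by
    rintro g (h | h) <;> simp [h, neg_smul'])
  have h3 : Nat.card (MulAction.stabilizer H z) = (univ.filter fun g : H => g.1 • z = z).card := by
    rw [Nat.card_eq_fintype_card, Fintype.card_subtype]
    rfl
  rw [h3, ← h1, W, U, card_filter, card_filter, sum_filter, add_right_comm, ← sum_add_distrib]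
  congr 1
  refine sum_congr rfl fun g _ => ?_
  unfold wt
  by_cases a1 : IsC g.1 <;> by_cases a2 : g.1 • z = z <;> by_cases a3 : tr g.1 ^ 2 = 4 <;>
    simp [a1, a2, a3]

theorem neg_ne (h2 : (2 : F) ≠ 0) (g : S2 F) : g ≠ -g := fun h => by
  have h1 := congrArg S2.a h
  have h3 := congrArg S2.b h
  have := g.det
  simp only [neg_a, neg_b] at h1 h3
  have e1 : g.a = 0 := (mul_eq_zero.1 (show 2 * g.a = 0 by linear_combination h1)).resolve_left h2
  have e2 : g.b = 0 := (mul_eq_zero.1 (show 2 * g.b = 0 by linear_combination h3)).resolve_left h2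
  simp [e1, e2] at this

theorem two_le_card (h2 : (2 : F) ≠ 0) (hm : -1 ∈ H) (p : S2 F → Prop) (hp : ∀ g, p g → p (-g))
    [DecidablePred fun g : H => p g.1] {g : H} (hg : p g.1) :
    2 ≤ (univ.filter fun g : H => p g.1).card := by
  classical
  have hne : g ≠ ⟨-1, hm⟩ * g := fun h => neg_ne h2 g.1 (by simpa using congrArg Subtype.val h)
  rw [← card_pair hne]
  refine card_le_card fun x hx => ?_
  simp only [mem_insert, mem_singleton] at hx
  rcases hx with rfl | rfl
  · simpa using hg
  · simpa using hp _ hg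

theorem two_le_U (h2 : (2 : F) ≠ 0) (hm : -1 ∈ H) {z : OnePoint F} (h : U H z ≠ 0) : 2 ≤ U H z := by
  classical
  obtain ⟨g, hg⟩ := card_ne_zero.1 h
  exact two_le_card h2 hm (fun g => ¬ IsC g ∧ g • z = z ∧ tr g ^ 2 = 4)
    (fun g hg => by simpa [isC_neg, neg_smul'] using hg) (mem_filter.1 hg).2

theorem four_le_stab (h2 : (2 : F) ≠ 0) (hm : -1 ∈ H) {z : OnePoint F} {g : H} (hg : ¬ IsC g.1)
    (hz : g.1 • z = z) : 4 ≤ Nat.card (MulAction.stabilizer H z) := by
  classical
  have h1 := card_central h2 hm (fun g : H => g.1 • z = z) (by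
    rintro g (h | h) <;> simp [h, neg_smul'])
  have h3 : Nat.card (MulAction.stabilizer H z) = (univ.filter fun g : H => g.1 • z = z).card := by
    rw [Nat.card_eq_fintype_card, Fintype.card_subtype]
    rfl
  have := two_le_card h2 hm (fun g => ¬ IsC g ∧ g • z = z)
    (fun g hg => by simpa [isC_neg, neg_smul'] using hg) (g := g) ⟨hg, hz⟩
  omega

theorem two_dvd_stab (h2 : (2 : F) ≠ 0) (hm : -1 ∈ H) (z : OnePoint F) :
    2 ∣ Nat.card (MulAction.stabilizer H z) := by
  let m : MulAction.stabilizer H z := ⟨⟨-1, hm⟩, show (-1 : S2 F) • z = z by simp [neg_smul']⟩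
  have : orderOf m = 2 := orderOf_eq_prime (Subtype.ext (Subtype.ext (by simp [m, sq])))
    (fun h => neg_ne h2 1 (congrArg (fun x : MulAction.stabilizer H z => x.1.1) h).symm)
  exact this ▸ orderOf_dvd_natCard m

end Count

end S2

end Pool.Agent.P.MP_bed792_al.Q
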