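import Pool.Agent.P.MP_bed792_al.Q.Dick

set_option autoImplicit false
set_option linter.unusedSectionVars false

open OnePoint Finset

namespace Pool.Agent.P.MP_bed792_al.Q

namespace S2

variable {F : Type*} [Field F] [DecidableEq F] {H : Subgroup (S2 F)} [Fintype H]

open Classical in
/-- The orbit of a point. -/
noncomputable def orb (H : Subgroup (S2 F)) [Fintype H] (z : OnePoint F) : Finset (OnePoint F) :=
  univ.image fun h : H => h.1 • z

theorem mem_orb {z y : OnePoint F} : y ∈ orb H z ↔ ∃ h : H, h.1 • z = y := by simp [orb]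

theorem orb_card (z : OnePoint F) :
    (orb H z).card * Nat.card (MulAction.stabilizer H z) = Nat.card H := by
  have h1 := (MulAction.stabilizer H z).card_mul_index
  rw [MulAction.index_stabilizer] at h1
  have h2 : MulAction.orbit H z = (orb H z : Set (OnePoint F)) := by
    ext y
    rw [mem_coe, mem_orb]
    rfl
  rw [h2, Set.ncard_coe_finset] at h1
  rw [← h1, mul_comm]

theorem orb_sum (z : OnePoint F) : ∑ y ∈ orb H z, W H y = (orb H z).card * W H z := by
  rw [← smul_eq_mul, ← sum_const]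
  refine sum_congr rfl fun y hy => ?_
  obtain ⟨h, rfl⟩ := mem_orb.1 hy
  exact W_smul h z

theorem orb_disj {z y : OnePoint F} (h : y ∉ orb H z) : Disjoint (orb H y) (orb H z) := by
  rw [disjoint_left]
  intro x hx hx'
  obtain ⟨a, rfl⟩ := mem_orb.1 hx
  obtain ⟨b, hb⟩ := mem_orb.1 hx'
  exact h (mem_orb.2 ⟨a⁻¹ * b, by simp [mul_smul, hb]⟩)

theorem upp_finite : Finite (upp H) :=
  Finite.of_injective (fun x : upp H => (⟨Eu x.1, x.2⟩ : H)) fun _ _ h =>
    Subtype.ext (Eu_inj (congrArg Subtype.val h))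

theorem card_ker (h2 : (2 : F) ≠ 0) (hm : -1 ∈ H) :
    (univ.filter fun g : H => g.1.c = 0 ∧ g.1.a = g.1.d).card = 2 * Nat.card (upp H) := by
  classical
  have := upp_finite (H := H)
  have := Fintype.ofFinite (upp H)
  let f : upp H → H := fun x => ⟨Eu x.1, x.2⟩
  let f' : upp H → H := fun x => ⟨-1, hm⟩ * ⟨Eu x.1, x.2⟩
  have hf : Function.Injective f := fun _ _ h => Subtype.ext (Eu_inj (congrArg Subtype.val h))
  have hf' : Function.Injective f' := fun _ _ h => hf (mul_left_cancel h)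
  have e : (univ.filter fun g : H => g.1.c = 0 ∧ g.1.a = g.1.d) =
      univ.image f ∪ univ.image f' := by
    ext g
    simp only [mem_filter, mem_univ, true_and, mem_union, mem_image]
    constructor
    · rintro ⟨h1, h3⟩
      have h4 := g.1.det
      rw [h1, ← h3, mul_zero, sub_zero] at h4
      rcases sq_field _ h4 with h | h
      · have e : Eu g.1.b = g.1 := by ext <;> simp [← h3, h, h1]
        exact Or.inl ⟨⟨g.1.b, by rw [mem_upp, e]; exact g.2⟩, Subtype.ext e⟩
      · have e : -1 * Eu (-g.1.b) = g.1 := by ext <;> simp [← h3, h, h1]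
        refine Or.inr ⟨⟨-g.1.b, ?_⟩, Subtype.ext e⟩
        rw [mem_upp, ← H.mul_mem_cancel_left hm, e]
        exact g.2
    · rintro (⟨x, rfl⟩ | ⟨x, rfl⟩) <;> simp [f, f']
  rw [e, card_union_of_disjoint, card_image_of_injective _ hf, card_image_of_injective _ hf',
    card_univ, Nat.card_eq_fintype_card, two_mul]
  rw [disjoint_left]
  intro g hg hg'
  obtain ⟨x, -, rfl⟩ := mem_image.1 hg
  obtain ⟨y, -, hy⟩ := mem_image.1 hg'
  have := congrArg (fun g : H => g.1.a) hy
  simp only [f, f', Subgroup.coe_mul, mul_a, neg_a, one_a, Eu_a, neg_b, one_b, Eu_c] at this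
  exact h2 (by linear_combination -this)

theorem U_inf (h2 : (2 : F) ≠ 0) (hm : -1 ∈ H) : U H ∞ + 2 = 2 * Nat.card (upp H) := by
  classical
  rw [← card_ker h2 hm, ← card_central h2 hm (fun g : H => g.1.c = 0 ∧ g.1.a = g.1.d)
    (fun g hg => ⟨hg.c_eq, hg.a_eq⟩), U]
  congr 2
  ext g
  have := g.1.det
  simp only [mem_filter, mem_univ, true_and, fix_inf, tr, and_congr_right_iff]
  intro _ hc
  rw [hc] at this
  refine ⟨fun h => sub_eq_zero.1 (pow_eq_zero_iff (n := 2) (by norm_num) |>.1 ?_), fun h => ?_⟩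
  · linear_combination h - 4 * this
  · rw [← h] at this ⊢
    linear_combination 4 * this

theorem stab_inf_le (h2 : (2 : F) ≠ 0) (hm : -1 ∈ H) :
    Nat.card (MulAction.stabilizer H (∞ : OnePoint F)) ≤ 2 * Nat.card (upp H) *
      ((univ.filter fun g : H => g.1.c = 0).image fun g => g.1.a ^ 2).card := by
  classical
  have h3 : Nat.card (MulAction.stabilizer H (∞ : OnePoint F)) =
      (univ.filter fun g : H => g.1.c = 0).card := by
    rw [Nat.card_eq_fintype_card, Fintype.card_subtype]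
    congr 1
    ext g
    simp only [mem_filter, mem_univ, true_and]
    exact fix_inf
  rw [h3]
  refine card_le_mul_card_image _ _ fun s hs => ?_
  obtain ⟨g₀, hg₀, rfl⟩ := mem_image.1 hs
  rw [← card_ker h2 hm]
  refine card_le_card_of_injOn (fun g => g₀⁻¹ * g) (fun g hg => ?_)
    (fun _ _ _ _ h => mul_left_cancel h)
  simp only [coe_filter, mem_filter, mem_univ, true_and, Set.mem_ofPred_eq] at hg hg₀ ⊢
  have d1 := g.1.det
  have d2 := g₀.1.det
  obtain ⟨e1, e2⟩ := hg
  simp only [Subgroup.coe_mul, InvMemClass.coe_inv, mul_c, mul_a, mul_d, inv_a, inv_b, inv_c,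
    inv_d, e1, hg₀] at d1 d2 ⊢
  refine ⟨by ring, ?_⟩
  linear_combination g.1.d * g₀.1.d * e2 - g₀.1.d * g.1.a * d1 + g₀.1.a * g.1.d * d2

theorem dvd_of_closed {Q : AddSubgroup F} [Finite Q] (T : Finset F)
    (hT : ∀ x ∈ T, ∀ y ∈ Q, x + y ∈ T) : Nat.card Q ∣ T.card := by
  classical
  have := Fintype.ofFinite Q
  rw [card_eq_sum_card_image (QuotientAddGroup.mk (s := Q))]
  refine dvd_sum fun c hc => ?_
  obtain ⟨x, hx, rfl⟩ := mem_image.1 hc
  have : (T.filter fun y => (QuotientAddGroup.mk y : F ⧸ Q) = QuotientAddGroup.mk x) =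
      univ.image fun y : Q => x + y.1 := by
    ext y
    simp only [mem_filter, mem_image, mem_univ, true_and]
    constructor
    · rintro ⟨-, h⟩
      exact ⟨⟨-x + y, QuotientAddGroup.eq.1 h.symm⟩, by simp⟩
    · rintro ⟨z, rfl⟩
      exact ⟨hT x hx z z.2, (QuotientAddGroup.eq.2 (by simp)).symm⟩
  rw [this, card_image_of_injective _ fun _ _ h => Subtype.ext (add_left_cancel h), card_univ,
    Nat.card_eq_fintype_card]

theorem dickson [IsAlgClosed F] (h2 : (2 : F) ≠ 0) (h3 : (3 : F) ≠ 0) (hm : -1 ∈ H)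
    (hu : Eu 1 ∈ H) {τ : F} (hτ : τ ≠ 0) (hv : El τ ∈ H) :
    Eu τ ∈ H ∧ ∀ x y, Eu x ∈ H → Eu y ∈ H → Eu (x * y) ∈ H := by
  classical
  have := upp_finite (H := H)
  have := Fintype.ofFinite (upp H)
  set Q := upp H with hQ
  have h1Q : (1 : F) ∈ Q := hu
  set Qf : Finset F := univ.image fun x : Q => x.1 with hQf
  have memQf : ∀ x, x ∈ Qf ↔ x ∈ Q := fun x => by simp [hQf]
  have cQf : Qf.card = Nat.card Q := by
    rw [hQf, card_image_of_injective _ Subtype.val_injective, card_univ, Nat.card_eq_fintype_card]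
  have hq : 4 ≤ Nat.card Q := by
    rw [← cQf]
    have e : ({0, 1, -1, 1 + 1} : Finset F).card = 4 := by
      rw [card_eq_four]
      refine ⟨0, 1, -1, 1 + 1, by simp, by simp, ?_, ?_, by simp, ?_, rfl⟩
      · exact fun h => h2 (by linear_combination -h)
      · exact fun h => h2 (by linear_combination h)
      · exact fun h => h3 (by linear_combination -h)
    rw [← e]
    refine card_le_card fun x hx => (memQf x).2 ?_
    simp only [mem_insert, mem_singleton] at hx
    rcases hx with rfl | rfl | rfl | rfl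
    exacts [Q.zero_mem, h1Q, Q.neg_mem h1Q, Q.add_mem h1Q h1Q]
  have hT : ∀ g : S2 F, ∃ T : Finset (OnePoint F), ¬ IsC g →
      (∀ z, z ∈ T ↔ g • z = z) ∧ T.card * wt g = 2 := fun g => by
    by_cases hg : IsC g
    · exact ⟨∅, fun h => absurd hg h⟩
    · exact (exists_fix h2 hg).imp fun _ h _ => h
  choose T hT using hT
  set Ω := (univ.filter fun g : H => ¬ IsC g.1).biUnion fun g => T g.1 with hΩ
  have memΩ : ∀ z, z ∈ Ω ↔ ∃ g : H, ¬ IsC g.1 ∧ g.1 • z = z := fun z => by
    simp only [hΩ, mem_biUnion, mem_filter, mem_univ, true_and]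
    exact exists_congr fun g => and_congr_right fun hg => (hT _ hg).1 z
  have hN := card_central h2 hm (fun _ : H => True) (fun _ _ => trivial)
  simp only [and_true, filter_true, card_univ, ← Nat.card_eq_fintype_card] at hN
  have sumΩ : ∑ z ∈ Ω, W H z = 2 * (univ.filter fun g : H => ¬ IsC g.1).card := by
    unfold W
    rw [sum_comm, mul_comm, ← smul_eq_mul, ← sum_const]
    refine sum_congr rfl fun g hg => ?_
    obtain ⟨k1, k2⟩ := hT _ (mem_filter.1 hg).2
    rw [← k2, ← sum_filter, sum_const, smul_eq_mul]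
    congr 2
    ext z
    simp only [mem_filter, k1, memΩ, and_iff_right_iff_imp]
    exact fun h => ⟨g, (mem_filter.1 hg).2, h⟩
  have orbΩ : ∀ z ∈ Ω, orb H z ⊆ Ω := fun z hz y hy => by
    obtain ⟨h, rfl⟩ := mem_orb.1 hy
    obtain ⟨g, k1, k2⟩ := (memΩ z).1 hz
    exact (memΩ _).2 ⟨h * g * h⁻¹, by simpa [isC_conj] using k1, by simp [mul_smul, k2]⟩
  have hinf : (∞ : OnePoint F) ∈ Ω := (memΩ _).2 ⟨⟨Eu 1, hu⟩, by simp [isC_iff], by simp [fix_inf]⟩
  set X := orb H ∞ with hX
  have hsplit := sum_sdiff (f := W H) (orbΩ _ hinf)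
  have cX := orb_card (H := H) ∞
  have sX := orb_sum (H := H) ∞
  have wX := W_eq h2 hm ∞
  have uX := U_inf h2 hm
  rw [← hX] at hsplit cX sX
  rw [← hQ] at uX
  set n := X.card with hn
  set N := Nat.card H with hN'
  set B := Nat.card (MulAction.stabilizer H (∞ : OnePoint F)) with hB
  set q := Nat.card Q with hqq
  obtain ⟨r, hr⟩ : ∃ r, q = r + 2 := ⟨q - 2, by omega⟩
  have rem : ∑ z ∈ Ω \ X, W H z + 4 + n * (2 * r) = N := by
    have : W H ∞ = B + 2 * r := by omega
    rw [this, mul_add, cX] at sX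
    omega
  have sub : ∀ y ∈ Ω \ X, orb H y ⊆ Ω \ X := fun y hy z hz => mem_sdiff.2
    ⟨orbΩ y (mem_sdiff.1 hy).1 hz, disjoint_left.1 (orb_disj (mem_sdiff.1 hy).2) hz⟩
  have noU : ∀ y ∈ Ω \ X, U H y = 0 := fun y hy => by
    by_contra hc
    have k1 := two_le_U h2 hm hc
    have k2 := W_eq h2 hm y
    have k3 := sum_le_sum_of_subset (f := W H) (sub y hy)
    rw [orb_sum] at k3
    have k4 := orb_card (H := H) y
    have k5 := Nat.mul_le_mul_left (orb H y).card
      (show Nat.card (MulAction.stabilizer H y) ≤ W H y by omega)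
    omega
  have half : ∀ y ∈ Ω \ X, N ≤ 2 * ∑ z ∈ orb H y, W H z := fun y hy => by
    obtain ⟨g, k0, k1⟩ := (memΩ y).1 (mem_sdiff.1 hy).1
    have k1 := four_le_stab h2 hm k0 k1
    have k2 := W_eq h2 hm y
    have k4 := orb_card (H := H) y
    have k5 := Nat.mul_le_mul_left (orb H y).card
      (show Nat.card (MulAction.stabilizer H y) ≤ 2 * W H y by omega)
    rw [orb_sum]
    calc N ≤ (orb H y).card * (2 * W H y) := by omega
      _ = _ := by ring
  have h0 : ((0 : F) : OnePoint F) ∈ X := by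
    by_contra hc
    have k1 : ¬ IsC (El τ) := by simp [isC_iff, hτ]
    have k2 : El τ • ((0 : F) : OnePoint F) = ((0 : F) : OnePoint F) := by simp [fix_coe]
    refine card_ne_zero.2 ⟨⟨El τ, hv⟩, mem_filter.2 ⟨mem_univ _, k1, k2, ?_⟩⟩
      (noU _ (mem_sdiff.2 ⟨(memΩ _).2 ⟨⟨El τ, hv⟩, k1, k2⟩, hc⟩))
    simp; norm_num
  set Tf : Finset F := X.preimage (fun k : F => (k : OnePoint F)) OnePoint.coe_injective.injOn with hTf
  have memT : ∀ k : F, k ∈ Tf ↔ (k : OnePoint F) ∈ X := fun k => by simp [hTf]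
  have hinfX : (∞ : OnePoint F) ∈ X := mem_orb.2 ⟨1, by simp⟩
  have cT : n = 1 + Tf.card := by
    have : X = insert ∞ (Tf.image fun k : F => (k : OnePoint F)) := by
      ext z
      cases z with
      | infty => simp [hinfX]
      | coe k => simp [memT]
    rw [hn, this, card_insert_of_notMem (by simp), card_image_of_injective _ OnePoint.coe_injective,
      add_comm]
  have clT : ∀ x ∈ Tf, ∀ y ∈ Q, x + y ∈ Tf := fun x hx y hy => by
    obtain ⟨h, hh⟩ := mem_orb.1 ((memT x).1 hx)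
    refine (memT _).2 (mem_orb.2 ⟨⟨Eu y, hy⟩ * h, ?_⟩)
    simp [mul_smul, hh, smul_coe]
  obtain ⟨j, hj⟩ := dvd_of_closed Tf clT
  rw [← hqq] at hj
  have QT : Qf ⊆ Tf := fun x hx => by simpa using clT 0 ((memT 0).2 h0) x ((memQf x).1 hx)
  have hj1 : 1 ≤ j := by
    have := card_le_card QT
    rcases Nat.eq_zero_or_pos j with h | h
    · rw [h] at hj; omega
    · exact h
  set S := (univ.filter fun g : H => g.1.c = 0).image fun g => g.1.a ^ 2 with hS
  have hSQ : ∀ s ∈ S, s ≠ 0 ∧ ∀ y ∈ Q, s * y ∈ Q := fun s hs => by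
    obtain ⟨g, hg, rfl⟩ := mem_image.1 hs
    have k1 := (mem_filter.1 hg).2
    have k2 := g.1.det
    refine ⟨fun h => ?_, fun y hy => ?_⟩
    · simp [k1, pow_eq_zero_iff (n := 2) (by norm_num) |>.1 h] at k2
    · have : Eu (g.1.a ^ 2 * y) = g.1 * Eu y * g.1⁻¹ := by
        ext <;> simp [k1] <;> grind
      rw [hQ, mem_upp, this]
      exact H.mul_mem (H.mul_mem g.2 hy) (H.inv_mem g.2)
  have h0S : (0 : F) ∉ S := fun h => (hSQ 0 h).1 rfl
  have hk : S.card + 1 ≤ q := by
    rw [← card_insert_of_notMem h0S, ← cQf]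
    refine card_le_card fun x hx => (memQf x).2 ?_
    rcases mem_insert.1 hx with rfl | hx
    · exact Q.zero_mem
    · simpa using (hSQ x hx).2 1 h1Q
  have hBle := stab_inf_le h2 hm
  rw [← hB, ← hQ, ← hqq, ← hS] at hBle
  obtain ⟨B', hB'⟩ := two_dvd_stab h2 hm ∞
  rw [← hB] at hB'
  have hn2 : 2 ≤ n := by
    have : 1 * 1 ≤ q * j := Nat.mul_le_mul (by omega) hj1
    omega
  obtain ⟨y, hy⟩ : (Ω \ X).Nonempty := by
    rw [nonempty_iff_ne_empty]
    intro hc
    rw [hc, sum_empty] at rem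
    have k1 : 2 * q ≤ B := by
      rw [← card_ker h2 hm, hB, Nat.card_eq_fintype_card, Fintype.card_subtype]
      exact card_le_card fun g hg => mem_filter.2 ⟨mem_univ _, fix_inf.2 (mem_filter.1 hg).2.1⟩
    have k2 := Nat.mul_le_mul_left n k1
    rw [cX, ← rem, hr, show n * (2 * (r + 2)) = n * (2 * r) + 4 * n by ring] at k2
    omega
  have one : Ω \ X = orb H y := by
    refine subset_antisymm (fun z hz => ?_) (sub y hy)
    by_contra hc
    have k1 := half y hy
    have k2 := half z hz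
    have k3 := sum_le_sum_of_subset (f := W H) (union_subset (sub z hz) (sub y hy))
    rw [sum_union (orb_disj hc)] at k3
    omega
  have wy := W_eq h2 hm y
  have cy := orb_card (H := H) y
  obtain ⟨s, hs⟩ := two_dvd_stab h2 hm y
  rw [noU y hy, hs] at wy
  rw [one, orb_sum] at rem
  rw [hs, ← hN'] at cy
  set o := (orb H y).card with ho
  have ho2 : o = 2 + n * r := by
    have : o * W H y + o * 2 = N := by rw [← mul_add, wy, add_zero, cy]
    rw [show n * (2 * r) = 2 * (n * r) by ring] at rem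
    omega
  have hs0 : s ≠ 0 := by
    rintro rfl
    omega
  obtain ⟨rfl, hk2⟩ := arith (q := q) (n := n) (j := j) (B := B') (s := s) (k := S.card) hq
    (by rw [cT, hj, mul_comm]) hj1 (by rw [mul_assoc] at hBle; omega) hk hs0 (by
      rw [hr, Nat.add_sub_cancel, ← ho2]
      rw [hB', show n * (2 * B') = 2 * (n * B') by ring, ← cy,
        show o * (2 * s) = 2 * (s * o) by ring] at cX
      omega)
  let K₀ : AddSubgroup F :=
    { carrier := {x | ∀ y ∈ Q, x * y ∈ Q}
      add_mem' := fun hx hy z hz => by rw [add_mul]; exact Q.add_mem (hx z hz) (hy z hz)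
      zero_mem' := fun z _ => by rw [zero_mul]; exact Q.zero_mem
      neg_mem' := fun hx z hz => by rw [neg_mul]; exact Q.neg_mem (hx z hz) }
  have hKQ : K₀ ≤ Q := fun x hx => by simpa using hx 1 h1Q
  have : Finite K₀ := Finite.of_injective _ (AddSubgroup.inclusion_injective hKQ)
  have hKc : S.card + 1 ≤ Nat.card K₀ := by
    rw [← card_insert_of_notMem h0S, ← Nat.card_eq_finsetCard]
    refine Nat.card_le_card_of_injective (fun x => (⟨x.1, ?_⟩ : K₀)) fun _ _ h =>
      Subtype.ext (congrArg (fun x : K₀ => x.1) h)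
    rcases mem_insert.1 x.2 with h | h
    · rw [h]; exact K₀.zero_mem
    · exact (hSQ _ h).2
  have hKeq : K₀ = Q := by
    obtain ⟨m, hm⟩ := AddSubgroup.card_dvd_of_le hKQ
    refine AddSubgroup.eq_of_le_of_card_ge hKQ ?_
    rw [← hqq] at hm ⊢
    rcases m with _ | _ | m
    · omega
    · omega
    · rw [mul_add, mul_add] at hm
      omega
  have hmul : ∀ x ∈ Q, ∀ y ∈ Q, x * y ∈ Q := fun x hx => (hKeq ▸ hx : x ∈ K₀)
  refine ⟨?_, fun x y hx hy => hmul x hx y hy⟩
  have e : Qf = Tf := eq_of_subset_of_card_le QT (by omega)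
  have hx : τ⁻¹ ∈ Q := by
    rw [← memQf, e, memT]
    exact mem_orb.2 ⟨⟨El τ, hv⟩, by simp [smul_inf, hτ]⟩
  obtain ⟨z, hz⟩ := (Finite.injective_iff_surjective (f := fun z : Q =>
    (⟨τ⁻¹ * z.1, hmul _ hx _ z.2⟩ : Q))).1 (fun _ _ h => Subtype.ext
      (mul_left_cancel₀ (inv_ne_zero hτ) (congrArg Subtype.val h))) ⟨1, h1Q⟩
  have hz' : τ⁻¹ * z.1 = 1 := congrArg Subtype.val hz
  rw [show τ = z.1 by field_simp at hz'; exact hz'.symm]
  exact z.2

end S2

open Polynomial S2

/-- Two opposite transvections generate all upper elementary matrices over the field they define. -/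
theorem Eu_mem_closure {p : ℕ} [Fact p.Prime] {K : Type} [Field K] [Finite K]
    (h2 : (2 : K) ≠ 0) (h3 : (3 : K) ≠ 0) (φ : (ZMod p)[X] →+* K) (hφ : Function.Surjective φ)
    (hτ : φ X ≠ 0) (x : K) : Eu x ∈ Subgroup.closure ({Eu 1, El (φ X)} : Set (S2 K)) := by
  classical
  set H₀ := Subgroup.closure ({Eu 1, El (φ X)} : Set (S2 K)) with hH₀
  let H₁ : Subgroup (S2 K) :=
    { carrier := {g | g ∈ H₀ ∨ -g ∈ H₀}
      mul_mem' := by
        rintro a b (ha | ha) (hb | hb)
        · exact Or.inl (H₀.mul_mem ha hb)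
        · exact Or.inr (by simpa using H₀.mul_mem ha hb)
        · exact Or.inr (by simpa using H₀.mul_mem ha hb)
        · exact Or.inl (by simpa using H₀.mul_mem ha hb)
      one_mem' := Or.inl H₀.one_mem
      inv_mem' := by
        rintro a (ha | ha)
        · exact Or.inl (H₀.inv_mem ha)
        · exact Or.inr (by simpa [neg_inv'] using H₀.inv_mem ha) }
  let ι := algebraMap K (AlgebraicClosure K)
  have hι : Function.Injective ι := ι.injective
  let H := H₁.map (S2.map ι)
  have : Finite H := Finite.of_surjective _ ((S2.map ι).subgroupMap_surjective H₁)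
  have := Fintype.ofFinite H
  have key : ∀ y, Eu (ι y) ∈ H ↔ Eu y ∈ H₁ := fun y => by
    rw [← map_Eu, Subgroup.mem_map_iff_mem (map_inj hι)]
  have hu : Eu (1 : K) ∈ H₁ := Or.inl (Subgroup.subset_closure (by simp))
  obtain ⟨k1, k2⟩ := dickson (H := H) (τ := ι (φ X))
    (by rw [← map_ofNat ι 2]; exact (map_ne_zero ι).2 h2)
    (by rw [← map_ofNat ι 3]; exact (map_ne_zero ι).2 h3)
    ⟨-1, Or.inr (by simp), by rw [map_neg', map_one]⟩
    (by rw [← map_one ι, key]; exact hu) ((map_ne_zero ι).2 hτ)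
    ⟨El (φ X), Or.inl (Subgroup.subset_closure (by simp)), map_El _ _⟩
  have k3 : ∀ y z, Eu y ∈ H₁ → Eu z ∈ H₁ → Eu (y * z) ∈ H₁ := fun y z hy hz => by
    rw [← key, map_mul]
    exact k2 _ _ ((key y).2 hy) ((key z).2 hz)
  have k4 : ∀ f : (ZMod p)[X], Eu (φ f) ∈ H₁ := fun f => by
    induction f using Polynomial.induction_on with
    | C a =>
      have : φ (C a) = (a.val : K) * 1 := by
        rw [← ZMod.natCast_zmod_val a, map_natCast, map_natCast, ZMod.natCast_zmod_val, mul_one]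
      rw [this, ← Eu_pow]
      exact H₁.pow_mem hu _
    | add f g hf hg => rw [map_add, Eu_add]; exact H₁.mul_mem hf hg
    | monomial n a h => rw [pow_succ, ← mul_assoc, map_mul]; exact k3 _ _ h ((key _).1 k1)
  obtain ⟨f, hf⟩ := hφ (x / 2)
  have e : Eu x = Eu (φ f) * Eu (φ f) := by rw [← Eu_add, hf]; congr 1; field_simp; ring
  rcases k4 f with h | h
  · exact e ▸ H₀.mul_mem h h
  · simpa [e] using H₀.mul_mem h h

theorem El_eq {K : Type*} [Field K] {τ : K} (hτ : τ ≠ 0) (y : K) :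
    El y = Eu (-τ⁻¹) * El τ * Eu (-y / τ ^ 2) * (Eu (-τ⁻¹) * El τ)⁻¹ := by
  ext <;> simp [hτ]
  field_simp
  ring

theorem closure_top {p : ℕ} [Fact p.Prime] {K : Type} [Field K] [Finite K]
    (h2 : (2 : K) ≠ 0) (h3 : (3 : K) ≠ 0) (φ : (ZMod p)[X] →+* K) (hφ : Function.Surjective φ)
    (hτ : φ X ≠ 0) : Subgroup.closure ({Eu 1, El (φ X)} : Set (S2 K)) = ⊤ := by
  have h := Eu_mem_closure h2 h3 φ hφ hτ
  set H₀ := Subgroup.closure ({Eu 1, El (φ X)} : Set (S2 K)) with hH₀
  have hv : El (φ X) ∈ H₀ := Subgroup.subset_closure (by simp)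
  have h' : ∀ y, El y ∈ H₀ := fun y => by
    rw [El_eq hτ y]
    exact H₀.mul_mem (H₀.mul_mem (H₀.mul_mem (h _) hv) (h _)) (H₀.inv_mem (H₀.mul_mem (h _) hv))
  rw [eq_top_iff]
  intro g _
  obtain ⟨y, x, z, w, rfl⟩ := four g
  exact H₀.mul_mem (h' _) (H₀.mul_mem (H₀.mul_mem (h _) (h' _)) (h _))

end Pool.Agent.P.MP_bed792_al.Q
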