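import Pool.Agent.P.MP_bed792_al.Q.Prod

set_option autoImplicit false
set_option linter.unusedSectionVars false
set_option exponentiation.threshold 600

open Finset

namespace Pool.Agent.P.MP_bed792_al.Q

open S2

variable {K : Type} [Field K] [Fintype K] [DecidableEq K] {S : Set (S2 K)} {τ : K}

theorem ball_le (h2 : (2 : K) ≠ 0) {j : ℕ} {h : S2 K} {c₀ : K} (hc : c₀ ≠ 0)
    (hl : Len S (2 * j) (h * Eu c₀ * h⁻¹)) :
    (bl S j).card ≤ 2 * (cs S (4 * j) h).card * (ys S (4 * j)).card := by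
  classical
  refine card_le_of_fib _ (fun x => x * (h * Eu c₀ * h⁻¹) * x⁻¹) _ _ (fun x hx => ?_) fun x₀ hx₀ => ?_
  · refine mem_ys.2 ⟨((mem_bl.1 hx).conj hl).mono (by omega), by rw [tr_conj, tr_conj, tr_Eu],
      fun e => hc ?_⟩
    rw [conj_eq_one_iff, conj_eq_one_iff, ← Eu_zero] at e
    exact Eu_inj e
  have key : ∀ x ∈ (bl S j).filter fun x => x * (h * Eu c₀ * h⁻¹) * x⁻¹ =
      x₀ * (h * Eu c₀ * h⁻¹) * x₀⁻¹, ∃ y, h⁻¹ * x₀⁻¹ * x * h = Eu y ∨ h⁻¹ * x₀⁻¹ * x * h = -Eu y := by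
    intro x hx
    refine cent_Eu sq_field (IsUnit.mk0 _ hc) ?_
    calc h⁻¹ * x₀⁻¹ * x * h * Eu c₀ = h⁻¹ * x₀⁻¹ * (x * (h * Eu c₀ * h⁻¹) * x⁻¹) * x * h := by group
      _ = _ := by rw [(mem_filter.1 hx).2]; group
  refine le_trans (card_le_card_of_injOn (t := ({1, -1} : Finset K) ×ˢ cs S (4 * j) h)
    (fun x => ((h⁻¹ * x₀⁻¹ * x * h).a, 2 * (h⁻¹ * x₀⁻¹ * x * h).a * (h⁻¹ * x₀⁻¹ * x * h).b))
    (fun x hx => ?_) ?_) (by rw [card_product]; exact Nat.mul_le_mul_right _ card_le_two)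
  · obtain ⟨y, hy⟩ := key x (mem_coe.1 hx)
    have l1 := (mem_bl.1 hx₀).inv.mul (mem_bl.1 (mem_filter.1 (mem_coe.1 hx)).1)
    have l2 := (l1.mul l1).mono (show _ ≤ 4 * j by omega)
    have e : x₀⁻¹ * x * (x₀⁻¹ * x) = h * Eu (2 * y) * h⁻¹ := by
      have : h⁻¹ * x₀⁻¹ * x * h * (h⁻¹ * x₀⁻¹ * x * h) = Eu (2 * y) := by
        rcases hy with hy | hy <;> rw [hy, two_mul, Eu_add]
        simp
      rw [← this]; group
    rw [e] at l2
    refine mem_coe.2 (mem_product.2 ?_)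
    rcases hy with hy | hy <;> simp only [hy] <;> simpa [mem_cs] using l2
  · intro x hx x' hx' e
    obtain ⟨y, hy⟩ := key x (mem_coe.1 hx)
    obtain ⟨y', hy'⟩ := key x' (mem_coe.1 hx')
    have : h⁻¹ * x₀⁻¹ * x * h = h⁻¹ * x₀⁻¹ * x' * h := by
      have h3 : (1 : K) ≠ -1 := fun k => h2 (by linear_combination k)
      simp only [Prod.mk.injEq] at e
      rcases hy with hy | hy <;> rcases hy' with hy' | hy' <;> rw [hy, hy'] at e ⊢ <;>
        simp [h2, h3, h3.symm] at e <;> rw [e]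
    exact mul_left_cancel (mul_right_cancel this)

theorem pivot_le {j : ℕ} {h s : S2 K} (hs : s ∈ S ∨ s⁻¹ ∈ S)
    (hn : ∀ c, c ≠ 0 → ¬ Len S (2 * j) (s * h * Eu c * (s * h)⁻¹)) :
    (bl S j).card * (cs S (4 * j) h).card ≤ (bl S (5 * j + 2)).card := by
  rw [← card_product]
  refine card_le_card_of_injOn (fun p => p.1 * (s * h * Eu p.2 * (s * h)⁻¹)) (fun p hp => ?_) ?_
  · obtain ⟨k1, k2⟩ := mem_product.1 (mem_coe.1 hp)
    have := (mem_bl.1 k1).mul ((Len.of_mem hs).conj (mem_cs.1 k2))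
    rw [show s * (h * Eu p.2 * h⁻¹) * s⁻¹ = s * h * Eu p.2 * (s * h)⁻¹ by group] at this
    exact mem_coe.2 (mem_bl.2 (this.mono (by omega)))
  · rintro ⟨x, c⟩ hp ⟨x', c'⟩ hp' e
    dsimp only at e
    have l := (mem_bl.1 (mem_product.1 (mem_coe.1 hp)).1).inv.mul
      (mem_bl.1 (mem_product.1 (mem_coe.1 hp')).1)
    have e' : x⁻¹ * x' = s * h * Eu (c - c') * (s * h)⁻¹ := by
      rw [sub_eq_add_neg, Eu_add, Eu_neg]
      calc x⁻¹ * x' = x⁻¹ * (x' * (s * h * Eu c' * (s * h)⁻¹)) * (s * h * Eu c' * (s * h)⁻¹)⁻¹ := by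
            group
        _ = _ := by rw [← e]; group
    obtain rfl : c = c' := by
      by_contra hc
      exact hn _ (sub_ne_zero.2 hc) (e' ▸ l.mono (by omega))
    rw [mul_right_cancel e]

theorem many_unip {m c : ℕ} (hc : ∀ h, c ≤ (cs S m h).card) :
    Fintype.card K * (c - 1) ≤ (ys S m).card := by
  have h1 : Fintype.card K * (c - 1) ≤
      ((univ : Finset K).sigma fun z => (cs S m (Eu z * wy)).erase 0).card := by
    rw [card_sigma, ← card_univ, ← smul_eq_mul, ← sum_const]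
    exact sum_le_sum fun z _ => (Nat.sub_le_sub_right (hc _) 1).trans pred_card_le_card_erase
  refine h1.trans (card_le_card_of_injOn (fun p => nn (-p.2, p.1)) (fun p hp => ?_) ?_)
  · obtain ⟨k1, k2⟩ := mem_erase.1 (mem_sigma.1 (mem_coe.1 hp)).2
    refine mem_coe.2 (mem_ys.2 ⟨by simpa [nn_eq] using mem_cs.1 k2, by simp [nn, tr]; ring,
      fun e => k1 ?_⟩)
    simpa [nn] using congrArg S2.c e
  · rintro ⟨z, y⟩ hp ⟨z', y'⟩ - e
    have := nn_inj (neg_ne_zero.2 (mem_erase.1 (mem_sigma.1 (mem_coe.1 hp)).2).1) e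
    simp only [Prod.mk.injEq, neg_inj] at this
    rw [this.1, this.2]

/-- Squares of the diagonal entries of short triangular elements. -/
noncomputable def sqs (S : Set (S2 K)) (j : ℕ) : Finset K :=
  ((bl S j).filter fun g => g.c = 0).image fun g => g.a ^ 2

theorem borel_le (j : ℕ) :
    (bl S j).card ≤ 2 ^ 2 * Fintype.card K ^ 2 * (sqs S (2 * j)).card := by
  have h1 : (bl S j).card ≤ ((bl S (2 * j)).filter fun g => g.c = 0).card *
      (univ : Finset (Option K)).card := by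
    refine card_le_of_fib _ (fun x => if x.c = 0 then none else some (x.a / x.c)) _ _
      (fun _ _ => mem_univ _) fun x₀ hx₀ => ?_
    refine card_le_card_of_injOn (fun x => x₀⁻¹ * x) (fun x hx => ?_)
      fun _ _ _ _ e => mul_left_cancel e
    obtain ⟨k1, k2⟩ := mem_filter.1 (mem_coe.1 hx)
    refine mem_coe.2 (mem_filter.2
      ⟨mem_bl.2 (((mem_bl.1 hx₀).inv.mul (mem_bl.1 k1)).mono (by omega)), ?_⟩)
    simp only [mul_c, inv_c, inv_d]
    by_cases a1 : x.c = 0 <;> by_cases a2 : x₀.c = 0 <;> simp [a1, a2] at k2 ⊢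
    field_simp at k2
    linear_combination -k2
  have h2 : ((bl S (2 * j)).filter fun g => g.c = 0).card ≤
      2 * Fintype.card K * (sqs S (2 * j)).card := by
    refine card_le_of_fib _ (fun g => g.a ^ 2) _ _ (fun g hg => mem_image_of_mem _ hg) fun g₀ _ => ?_
    refine le_trans (card_le_card_of_injOn (t := ({g₀.a, -g₀.a} : Finset K) ×ˢ univ)
      (fun g => (g.a, g.b)) (fun g hg => ?_) ?_)
      (by rw [card_product, card_univ]; exact Nat.mul_le_mul_right _ card_le_two)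
    · simpa [sq_eq_sq_iff_eq_or_eq_neg] using (mem_filter.1 (mem_coe.1 hg)).2
    · intro g hg g' hg' e
      have c1 := (mem_filter.1 (mem_filter.1 (mem_coe.1 hg)).1).2
      have c2 := (mem_filter.1 (mem_filter.1 (mem_coe.1 hg')).1).2
      obtain ⟨e1, e2⟩ := Prod.mk.inj e
      have d1 := g.det
      have d2 := g'.det
      rw [c1] at d1
      rw [c2, ← e1] at d2
      exact S2.ext e1 e2 (c1.trans c2.symm) (by linear_combination g'.d * d1 - g.d * d2)
  rw [card_univ, Fintype.card_option] at h1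
  have h3 : 1 ≤ Fintype.card K := Fintype.card_pos
  refine h1.trans ((Nat.mul_le_mul h2 (show _ ≤ 2 * Fintype.card K by omega)).trans (le_of_eq ?_))
  ring

theorem all_short (hv : El τ ∈ S) (hτ : τ ≠ 0) {j : ℕ} (hj : 1 ≤ j)
    (h1 : Fintype.card K < (sqs S (2 * j)).card ^ 2) (h2 : Fintype.card K < (cs S (4 * j) 1).card ^ 2)
    (g : S2 K) : Len S (388 * j) g := by
  have k1 : ∀ s ∈ sqs S (2 * j), ∀ y ∈ cs S (4 * j) 1, ∀ y' ∈ cs S (4 * j) 1,
      Len S (12 * j) (Eu (s * (y - y'))) := by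
    intro s hs y hy y' hy'
    obtain ⟨x, hx, rfl⟩ := mem_image.1 hs
    obtain ⟨a1, a2⟩ := mem_filter.1 hx
    have b1 : Len S (4 * j) (Eu y) := by simpa using mem_cs.1 hy
    have b2 : Len S (4 * j) (Eu y') := by simpa using mem_cs.1 hy'
    have := (mem_bl.1 a1).conj (b1.mul b2.inv)
    have d := x.det
    rw [a2] at d
    have e : x * (Eu y * (Eu y')⁻¹) * x⁻¹ = Eu (x.a ^ 2 * (y - y')) := by
      ext <;> simp [a2]
      · linear_combination d
      · ring
      · linear_combination d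
    exact e ▸ this.mono (by omega)
  have k2 : ∀ z, Len S (48 * j) (Eu z) := fun z => by
    obtain ⟨s₁, a1, s₂, a2, s₃, a3, s₄, a4, y₁, b1, y₂, b2, y₃, b3, y₄, b4, rfl⟩ := sum_eight h1 h2 z
    rw [add_mul, add_mul, Eu_add, Eu_add, Eu_add]
    exact (((k1 _ a1 _ b4 _ b3).mul (k1 _ a3 _ b4 _ b3)).mul
      ((k1 _ a2 _ b1 _ b2).mul (k1 _ a4 _ b1 _ b2))).mono (by omega)
  have k3 : ∀ z, Len S (146 * j) (El z) := fun z => by
    rw [El_eq hτ z]
    exact (((k2 _).mul (Len.of_mem (Or.inl hv))).conj (k2 _)).mono (by omega)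
  obtain ⟨y, x, z, w, rfl⟩ := four g
  exact ((k3 _).mul (((k2 _).mul (k3 _)).mul (k2 _))).mono (by omega)

theorem grow_step (h2 : (2 : K) ≠ 0) (hu : Eu 1 ∈ S) (hv : El τ ∈ S) (hτ : τ ≠ 0)
    (hS : Subgroup.closure S = ⊤) {j : ℕ} (hj : 1 ≤ j) (hN : 2 ^ 548 ≤ (bl S j).card) :
    (∀ g, Len S (388 * j) g) ∨ (bl S j).card ^ 41 ≤ (bl S (14 * j)).card ^ 40 := by
  rw [or_iff_not_imp_right, not_le]
  intro hP
  have hy : (ys S (4 * j)).card ^ 3 ≤ 2 ^ 12 * (bl S (14 * j)).card ^ 2 :=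
    (ys_cube h2 hu hv hτ _).trans
      (Nat.mul_le_mul_left _ (Nat.pow_le_pow_left (bl_mono (by omega)) _))
  have hall : ∀ i h, Len S i h → ∃ c, c ≠ 0 ∧ Len S (2 * j) (h * Eu c * h⁻¹) := by
    intro i
    induction i with
    | zero =>
      intro h hh
      rw [Len.zero_iff.1 hh]
      exact ⟨1, one_ne_zero, by simpa using (Len.of_mem (Or.inl hu)).mono (by omega)⟩
    | succ i ih =>
      intro h hh
      rcases Len.succ_iff.1 hh with hh | ⟨s, k, hs, hk, rfl⟩
      · exact ih h hh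
      by_contra hc
      obtain ⟨c, c1, c2⟩ := ih k hk
      have e1 := pivot_le (j := j) (h := k) hs fun c c1 c2 => hc ⟨c, c1, c2⟩
      have e2 := ball_le h2 c1 c2
      have e3 : (bl S (5 * j + 2)).card ≤ (bl S (14 * j)).card := bl_mono (by omega)
      have := ar_pivot (T := 2) (by norm_num) hy hP (by
        calc (bl S j).card ^ 2 = (bl S j).card * (bl S j).card := sq _
          _ ≤ (bl S j).card * (2 * (cs S (4 * j) k).card * (ys S (4 * j)).card) :=
            Nat.mul_le_mul_left _ e2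
          _ = 2 * (ys S (4 * j)).card * ((bl S j).card * (cs S (4 * j) k).card) := by ring
          _ ≤ _ := Nat.mul_le_mul_left _ (e1.trans e3))
      exact absurd ((Nat.pow_le_pow_right (by norm_num) (by norm_num)).trans hN) (not_le.2 this)
  obtain ⟨h₀, hh₀⟩ := Finite.exists_min fun h : S2 K => (cs S (4 * j) h).card
  obtain ⟨i, hi⟩ := exists_len (S := S) (g := h₀) (hS ▸ Subgroup.mem_top _)
  obtain ⟨c, c1, c2⟩ := hall i h₀ hi
  obtain ⟨k1, k2⟩ := ar_all (T := 2) le_rfl hy hP (ball_le h2 c1 c2) (many_unip hh₀) (borel_le j)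
    (by
      have := card_le (R := K)
      have := Fintype.ofFinite (S2 K)
      simp only [Nat.card_eq_fintype_card] at *
      exact (card_le_univ _).trans ‹_›) hN
  exact all_short hv hτ hj k2 (k1.trans_le (Nat.pow_le_pow_left (hh₀ 1) _))

theorem grow_sq (h2 : (2 : K) ≠ 0) (hu : Eu 1 ∈ S) (hv : El τ ∈ S) (hτ : τ ≠ 0)
    (hS : Subgroup.closure S = ⊤) {j : ℕ} (hj : 1 ≤ j) (hN : 2 ^ 548 ≤ (bl S j).card) :
    (∀ g, Len S (388 * (14 ^ 29 * j)) g) ∨ (bl S j).card ^ 2 ≤ (bl S (14 ^ 29 * j)).card := by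
  have key : ∀ i, (∀ g, Len S (388 * (14 ^ i * j)) g) ∨
      (bl S j).card ^ 41 ^ i ≤ (bl S (14 ^ i * j)).card ^ 40 ^ i := by
    intro i
    induction i with
    | zero => right; simp
    | succ i ih =>
      have a0 : j ≤ 14 ^ i * j := Nat.le_mul_of_pos_left _ (by positivity)
      have a1 : 14 ^ (i + 1) * j = 14 * (14 ^ i * j) := by ring
      rcases ih with ih | ih
      · exact Or.inl fun g => (ih g).mono (by omega)
      rcases grow_step h2 hu hv hτ hS (hj.trans a0) (hN.trans (bl_mono a0)) with h | h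
      · exact Or.inl fun g => (h g).mono (by omega)
      right
      rw [a1, pow_succ 41, pow_succ' 40, pow_mul, pow_mul]
      refine (Nat.pow_le_pow_left ih _).trans ?_
      rw [← pow_mul, mul_comm (40 ^ i), pow_mul]
      exact Nat.pow_le_pow_left h _
  refine (key 29).imp id fun h => ?_
  have := (Nat.pow_le_pow_right (bl_pos j) (show 2 * 40 ^ 29 ≤ 41 ^ 29 by norm_num)).trans h
  rw [pow_mul] at this
  exact (Nat.pow_le_pow_iff_left (by positivity)).1 this

theorem ball_start (hS : Subgroup.closure S = ⊤) (j : ℕ) :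
    (∀ g, Len S j g) ∨ j + 1 ≤ (bl S j).card := by
  induction j with
  | zero => exact Or.inr (bl_pos 0)
  | succ j ih =>
    by_cases hj : ∀ g, Len S (j + 1) g → Len S j g
    · refine Or.inl fun g => ?_
      obtain ⟨i, hi⟩ := exists_len (S := S) (g := g) (hS ▸ Subgroup.mem_top _)
      exact (len_stable hj i g hi).mono (by omega)
    · rcases ih with ih | ih
      · exact absurd (fun g _ => ih g) hj
      · have : bl S j ⊂ bl S (j + 1) := ⟨fun g hg => mem_bl.2 ((mem_bl.1 hg).mono (by omega)),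
          fun hh => hj fun g hg => mem_bl.1 (hh (mem_bl.2 hg))⟩
        have := card_lt_card this
        omega

theorem diam_le (h2 : (2 : K) ≠ 0) (hu : Eu 1 ∈ S) (hv : El τ ∈ S) (hτ : τ ≠ 0)
    (hS : Subgroup.closure S = ⊤) {Λ : ℕ} (hΛ : 2 ≤ Λ) (hK : Fintype.card K ≤ 2 ^ Λ) (g : S2 K) :
    Len S (Λ ^ 1001) g := by
  obtain ⟨j, hj⟩ : ∃ j, j = 2 ^ 548 := ⟨_, rfl⟩
  obtain ⟨D, hD⟩ : ∃ D, D = 14 ^ 29 := ⟨_, rfl⟩
  have j2 : 2 ≤ j := by rw [hj]; norm_num
  have D1 : 1 ≤ D := by rw [hD]; norm_num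
  have key : ∀ r, (∀ g, Len S (388 * (D ^ r * j)) g) ∨ j ^ 2 ^ r ≤ (bl S (D ^ r * j)).card := by
    intro r
    induction r with
    | zero =>
      simp only [pow_zero, pow_one, one_mul]
      exact (ball_start hS j).imp (fun h g => (h g).mono (Nat.le_mul_of_pos_left _ (by norm_num)))
        Nat.le_of_succ_le
    | succ r ih =>
      have a0 : 1 ≤ D ^ r * j := Nat.mul_pos (by positivity) (by omega)
      have a1 : D ^ (r + 1) * j = D * (D ^ r * j) := by ring
      rw [a1]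
      rcases ih with ih | ih
      · exact Or.inl fun g => (ih g).mono
          (Nat.mul_le_mul_left _ (Nat.le_mul_of_pos_left _ (by omega)))
      have := grow_sq h2 hu hv hτ hS a0 (hj ▸ (Nat.le_self_pow (by positivity) j).trans ih)
      rw [← hD] at this
      refine this.imp id fun h => le_trans ?_ h
      rw [pow_succ, pow_mul]
      exact Nat.pow_le_pow_left ih _
  obtain ⟨r, r1, r2⟩ : ∃ r, 4 * Λ < 2 ^ r ∧ 2 ^ r ≤ 8 * Λ := by
    refine ⟨Nat.log 2 (4 * Λ) + 1, Nat.lt_pow_succ_log_self (by norm_num) _, ?_⟩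
    have := Nat.pow_log_le_self 2 (show 4 * Λ ≠ 0 by omega)
    omega
  rcases key r with h | h
  · refine (h g).mono ?_
    have b1 : D ^ r ≤ Λ ^ 444 :=
      calc D ^ r ≤ (2 ^ 111) ^ r := Nat.pow_le_pow_left (by rw [hD]; norm_num) _
        _ = (2 ^ r) ^ 111 := by rw [← pow_mul, ← pow_mul, mul_comm]
        _ ≤ (Λ ^ 4) ^ 111 := Nat.pow_le_pow_left (r2.trans (by
            rw [pow_succ]; exact Nat.mul_le_mul_right _ (Nat.pow_le_pow_left hΛ 3))) _
        _ = _ := by rw [← pow_mul]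
    have b2 : j ≤ Λ ^ 548 := hj.trans_le (Nat.pow_le_pow_left hΛ _)
    have b3 : 388 ≤ Λ ^ 9 := le_trans (by norm_num) (Nat.pow_le_pow_left hΛ 9)
    refine (Nat.mul_le_mul b3 (Nat.mul_le_mul b1 b2)).trans (le_of_eq ?_)
    rw [← pow_add, ← pow_add]
  · exfalso
    have c1 : (bl S (D ^ r * j)).card ≤ 2 ^ (4 * Λ) := by
      have := card_le (R := K)
      have := Fintype.ofFinite (S2 K)
      simp only [Nat.card_eq_fintype_card] at *
      rw [mul_comm 4, pow_mul]
      exact (card_le_univ _).trans (le_trans ‹_› (Nat.pow_le_pow_left hK _))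
    have c2 := (Nat.pow_le_pow_left j2 _).trans (h.trans c1)
    exact absurd ((Nat.pow_le_pow_iff_right (by norm_num)).1 c2) (not_le.2 r1)

open Polynomial in
/-- Polylogarithmic diameter of the special linear group of a residue field. -/
theorem field_diam {p : ℕ} [Fact p.Prime] {K : Type} [Field K] [Finite K]
    (h2 : (2 : K) ≠ 0) (h3 : (3 : K) ≠ 0) (φ : (ZMod p)[X] →+* K) (hφ : Function.Surjective φ)
    (hτ : φ X ≠ 0) {Λ : ℕ} (hΛ : 2 ≤ Λ) (hK : Nat.card K ≤ 2 ^ Λ) (g : S2 K) :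
    Len {Eu 1, El (φ X)} (Λ ^ 1001) g := by
  classical
  have := Fintype.ofFinite K
  exact diam_le h2 (by simp) (by simp) hτ (closure_top h2 h3 φ hφ hτ) hΛ
    (by rwa [← Nat.card_eq_fintype_card]) g

end Pool.Agent.P.MP_bed792_al.Q
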