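import Pool.Agent.P.MP_bed792_al.Q.Root
import Pool.Agent.P.MP_bed792_al.SLA

set_option autoImplicit false
set_option linter.unusedSectionVars false
set_option exponentiation.threshold 3000

open Module

namespace Pool.Agent.P.MP_bed792_al.Q

variable {G F V : Type*} [Group G] [Field F] [AddCommGroup V] [Module F V] [Module.Finite F V]
  {ρ : Representation F G V} {S : Set G} {p Λ : ℕ}

theorem sl_ext (H : HasT ρ) (a : End F V) (h0 : a ≠ 0) (ha : a * a = 0) :
    ∃ n κ, Ext ρ ⊤ a n κ ∧ ∃ (u : V) (f : Dual F V), a * n * a = f.smulRight u := by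
  obtain ⟨y, hy⟩ := DFunLike.ne_iff.1 h0
  obtain ⟨φ, h1, h2⟩ := exists_fun (X := Submodule.span F {y}) (y := a y) fun h => by
    obtain ⟨c, hc⟩ := Submodule.mem_span_singleton.1 h
    have := LinearMap.congr_fun ha y
    rw [End.mul_apply, ← hc, map_smul, LinearMap.zero_apply, smul_eq_zero] at this
    exact hy (this.elim (fun h => by simp [← hc, h]) id)
  have h3 := h1 y (Submodule.mem_span_singleton_self y)
  refine ⟨φ.smulRight y, 1, ⟨by ext; simp [h3], by ext; simp [h2], trivial, one_ne_zero, fun c _ => ?_,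
    ?_⟩, a y, φ ∘ₗ a, by ext; simp⟩
  · obtain ⟨t, ht⟩ := H.ex (c • y) φ (by simp [h3])
    exact ⟨t, by ext s; simp [ht s, smul_smul, mul_comm]⟩
  · rw [show a * φ.smulRight y = φ.smulRight (a y) by ext; simp, LinearMap.trace_smulRight, h2]
    exact one_ne_zero

theorem sl_all (H : HasT ρ) (C : Ctx F ρ S p Λ) {a : End F V} (h0 : a ≠ 0) (ha : a * a = 0)
    (h : Sh ρ S 1 a) {t : G} (ht : t ∈ Tv ρ) : Len S (Λ ^ 2073) t := by
  obtain ⟨_, ⟨u, f, rfl⟩, b0, b1, b2⟩ := C.root (K := ⊤) (fun a => ∃ (u : V) (f : Dual F V),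
    a = f.smulRight u) (fun a h0 ha _ => sl_ext H a h0 ha) h0 ha h
  obtain ⟨n, κ, e, -⟩ := sl_ext H _ b0 b1
  have hu : u ≠ 0 := by rintro rfl; simp at b0
  obtain ⟨r, hr⟩ : ∃ r, f r = 1 := by
    obtain ⟨r, hr⟩ := DFunLike.ne_iff.1 b0
    have : f r ≠ 0 := fun h => hr (by simp [h])
    exact ⟨(f r)⁻¹ • r, by simp [this]⟩
  have hfu : f u = 0 := by simpa [hr, hu] using LinearMap.congr_fun b1 r
  have k : ∀ y : End F V, f.smulRight u * y * f.smulRight u = f (y u) • f.smulRight u := fun y => by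
    ext; simp [smul_smul, mul_comm]
  have hQ := fun q => C.radical (q := q) H.inj (by norm_num) b1 b0 b2 e
    (fun x => ⟨_, trivial, k _⟩) (fun _ y _ => ⟨_, trivial, k y⟩)
  obtain ⟨L, hL⟩ : ∃ L, L = Λ ^ (2062 + 7) := ⟨_, rfl⟩
  rw [← hL] at hQ
  let P : ℕ → V → Prop := fun j y => ∀ φ t, φ y = 0 → IsT ρ y φ t → Len S j t
  have P0 : P L u := fun φ t h1 h2 => hQ t (fun v => by simp [h2 _, h1]) (fun v => by simp [h2 _, hfu])
    fun v _ => ⟨φ v • r, by simp [h2 _, hr]⟩
  have P1 : ∀ v t, f v = 0 → IsT ρ v f t → Len S L t := fun v t h1 h2 =>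
    hQ t (fun v => by simp [h2 _, hfu]) (fun v => by simp [h2 _, h1])
      fun w hw => ⟨0, by simp [h2 _, show f w = 0 by simpa [hu] using hw]⟩
  have Pc : ∀ {i j y g}, P j y → Len S i g → P (2 * i + j) (ρ g y) := fun {i j y g} h hg φ t h1 h2 => by
    have h3 := h2.conj g⁻¹
    rw [rho_inv_apply] at h3
    simpa [mul_assoc] using hg.conj (h _ _ (by simpa using h1) h3)
  have Ps : ∀ {j y} {c : F}, c ≠ 0 → P j (c • y) → P j y := fun {j y c} hc h φ t h1 h2 =>
    h (c⁻¹ • φ) t (by simp [h1]) fun s => by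
      rw [h2, LinearMap.smul_apply, smul_smul, smul_eq_mul, mul_right_comm, inv_mul_cancel₀ hc,
        one_mul]
  obtain ⟨x, hx⟩ := e.exists_ne b1
  obtain ⟨g, g1, g2⟩ := C.esc (f.toAddMonoidHom.comp (LinearMap.applyₗ (R := F) u).toAddMonoidHom)
    (a := f.smulRight u) (x := x) fun h => hx (by
      rw [k, show f (cj ρ (f.smulRight u) x u) = 0 from h, zero_smul])
  have hy : f (ρ g u) ≠ 0 := fun h => g2 (by simp [cj, h])
  have Py := Pc P0 g1
  generalize ρ g u = y at hy Py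
  have P2 : ∀ v, f v ≠ 0 → P (2 * L + (2 * Λ + L)) v := fun v hv => by
    obtain ⟨s, hs⟩ := H.ex ((f v)⁻¹ • v - (f y)⁻¹ • y) f (by simp [hv, hy])
    have := Pc Py (P1 _ s (by simp [hv, hy]) hs)
    rw [hs, smul_sub, smul_smul, smul_smul, mul_inv_cancel₀ hy, one_smul, add_sub_cancel] at this
    exact Ps (mul_ne_zero hy (inv_ne_zero hv)) this
  have hΛ : Λ ≤ L := hL ▸ Nat.le_self_pow (by norm_num) _
  have fin : 11 * L ≤ Λ ^ 2073 := by
    rw [show Λ ^ 2073 = Λ ^ 4 * L by rw [hL, ← pow_add]]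
    exact Nat.mul_le_mul_right _ (le_trans (by norm_num) (Nat.pow_le_pow_left C.two 4))
  obtain ⟨v, φ, h1, h2⟩ := ht
  by_cases hv : v = 0
  · rw [H.uniq h2 (t' := 1) fun s => by simp [hv]]
    exact Len.one _ _
  by_cases hf : f v = 0
  · obtain ⟨ψ, a1, a2⟩ := exists_fun (X := Submodule.span F {y}) (y := v) fun h => by
      obtain ⟨c, rfl⟩ := Submodule.mem_span_singleton.1 h
      simp [hy] at hf
      simp [hf] at hv
    have a3 : (-ψ) y = 0 := by simp [a1 y (Submodule.mem_span_singleton_self y)]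
    obtain ⟨s, hs⟩ := H.ex y (-ψ) a3
    have := Pc (P2 (v + y) (by simpa [hf] using hy)) (Py _ s a3 hs)
    rw [hs, map_add, a3] at this
    simp only [LinearMap.neg_apply, a2, add_zero, neg_smul, one_smul, add_neg_cancel_right] at this
    exact (this φ t h1 h2).mono (by omega)
  · exact (P2 v hf φ t h1 h2).mono (by omega)

theorem sl_decomp (H : HasT ρ) (hdet : ∀ g, LinearMap.det (ρ g) = 1) (j : ℕ) :
    ∀ X : Submodule F V, finrank F X + (j + 1) = finrank F V → ∀ g : G, (∀ x ∈ X, ρ g x = x) →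
      Len (Tv ρ) (2 * j + 1) g := by
  have hrk : ∀ (X : Submodule F V) (y : V), y ∉ X →
      finrank F (X ⊔ Submodule.span F {y} : Submodule F V) = finrank F X + 1 := fun X y hy =>
    le_antisymm (finrank_sup_single _ _) (Submodule.finrank_lt_finrank_of_lt
      (lt_of_le_of_ne le_sup_left fun h =>
        hy (h ▸ Submodule.mem_sup_right (Submodule.mem_span_singleton_self y))))
  induction j with
  | zero =>
    intro X hX g hg
    obtain ⟨y, -, hy⟩ := exists_notMem (U := ⊤) (Z := X) (by simp; omega)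
    have htop : X ⊔ Submodule.span F {y} = ⊤ :=
      Submodule.eq_top_of_finrank_eq (by rw [hrk X y hy]; omega)
    obtain ⟨φ, h1, h2⟩ := exists_fun hy
    have h3 : IsT ρ (ρ g y - y) φ g := fun s => by
      obtain ⟨x, hx, c, rfl⟩ := mem_sup_single.1 (htop ▸ Submodule.mem_top : s ∈ _)
      simp [hg x hx, h1 x hx, h2, smul_sub]
    have h4 := hdet g
    rw [show ρ g = LinearMap.transvection φ (ρ g y - y) from LinearMap.ext h3,
      LinearMap.transvection.det] at h4
    exact Len.of_mem (Or.inl ⟨_, _, by simpa using h4, h3⟩)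
  | succ j ih =>
    intro X hX g hg
    obtain ⟨y, -, hy⟩ := exists_notMem (U := ⊤) (Z := X) (by simp; omega)
    have h1 := hrk X y hy
    obtain ⟨a, ha, ha1, ha2⟩ := H.move hy (y' := ρ g y) (fun h => hy (rho_inj ρ g (hg _ h) ▸ h))
      (ne_top_of_lt (by omega))
    have := ha.mul (ih (X ⊔ Submodule.span F {y}) (by omega) (a⁻¹ * g) fun s hs => by
      obtain ⟨x, hx, c, rfl⟩ := mem_sup_single.1 hs
      rw [rho_mul, map_add, map_add, map_smul, map_smul, hg x hx, rho_inv_eq ρ (ha1 x hx),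
        rho_inv_eq ρ ha2])
    rw [mul_inv_cancel_left] at this
    exact this.mono (by omega)

theorem sl_main (H : HasT ρ) (hdet : ∀ g, LinearMap.det (ρ g) = 1) (C : Ctx F ρ S p Λ)
    (hn : finrank F V ≤ Λ) {a : End F V} (h0 : a ≠ 0) (ha : a * a = 0) (h : Sh ρ S 1 a) (g : G) :
    Len S (Λ ^ 2075) g := by
  have : Nontrivial V := by
    obtain ⟨y, hy⟩ := DFunLike.ne_iff.1 h0
    exact ⟨_, _, hy⟩
  have h1 : 0 < finrank F V := Module.finrank_pos
  refine (Len.comp (fun t ht => sl_all H C h0 ha h ht)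
    (sl_decomp H hdet (finrank F V - 1) ⊥ (by simp; omega) g (by simp))).mono ?_
  rw [show Λ ^ 2075 = Λ ^ 2073 * (Λ * Λ) by rw [← pow_two, ← pow_add]]
  exact Nat.mul_le_mul_left _ (le_trans (by omega) (Nat.mul_le_mul_right Λ C.two))

end Pool.Agent.P.MP_bed792_al.Q
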