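import Pool.Agent.P.MP_bed792_al.Q.GC
import Pool.Agent.P.MP_bed792_al.Q.SL
import Pool.Agent.P.MP_bed792_al.Bridge

set_option autoImplicit false
set_option exponentiation.threshold 7000

open Module Matrix

namespace Pool.Agent.P.MP_bed792_al.Q

variable {n : ℕ} {F : Type} [Field F] [Fintype F] {p : ℕ}

theorem one_add_pow_sq {E : Type*} [Ring E] {a : E} (ha : a * a = 0) (k : ℕ) :
    (1 + a) ^ k = 1 + k • a := by
  induction k with
  | zero => simp
  | succ k ih => rw [pow_succ, ih, succ_nsmul, add_mul, mul_add, mul_add, smul_mul_assoc k a a, ha]; simp; abel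

omit [Fintype F] in
/-- A small power of an element with a quadratic Jordan form is unipotent. -/
theorem exists_pow (hp : p.Prime) [CharP F p] (hn : 0 < n) {g : GL (Fin n) F} (hd : g.1.det = 1)
    {c : F} (h1 : g.1 ≠ c • 1) (h2 : (g.1 - c • 1) ^ 2 = 0) :
    ∃ k ≤ n, ∃ a : Matrix (Fin n) (Fin n) F, a ≠ 0 ∧ a * a = 0 ∧ (g ^ k).1 = 1 + a := by
  have : Fact p.Prime := ⟨hp⟩
  have : Nonempty (Fin n) := ⟨⟨0, hn⟩⟩
  have hc : c ≠ 0 := by
    rintro rfl
    have := congrArg det h2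
    simp [hd] at this
  obtain ⟨a, ha⟩ : ∃ a, a = c⁻¹ • (g.1 - c • 1) := ⟨_, rfl⟩
  have e1 : g.1 = c • (1 + a) := by simp [ha, smul_smul, hc]
  have e2 : a * a = 0 := by rw [ha, smul_mul_smul_comm, ← sq (g.1 - c • 1), h2, smul_zero]
  have e3 : a ≠ 0 := fun h => h1 (by simp [e1, h])
  have fr : ∀ x : F, x ^ p = 1 → x = 1 := fun x hx =>
    frobenius_inj F p (by simpa [frobenius_def] using hx)
  have e4 : (1 + a).det = 1 := fr _ (by
    rw [← det_pow, one_add_pow_sq e2, ← Nat.cast_smul_eq_nsmul F, CharP.cast_eq_zero]; simp)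
  rw [e1, det_smul, e4, mul_one, Fintype.card_fin] at hd
  obtain ⟨j, k, hk, rfl⟩ := Nat.exists_eq_pow_mul_and_not_dvd hn.ne' p hp.ne_one
  have e5 : c ^ k = 1 := by
    rw [pow_mul'] at hd
    have : ∀ (i : ℕ) (x : F), x ^ p ^ i = 1 → x = 1 := fun i => by
      induction i with
      | zero => simp
      | succ i ih => exact fun x hx => ih x (fr _ (by rwa [pow_succ, pow_mul] at hx))
    exact this j _ hd
  refine ⟨k, Nat.le_mul_of_pos_left _ (pow_pos hp.pos _), k • a, ?_, by rw [smul_mul_smul_comm, e2, smul_zero], ?_⟩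
  · rw [← Nat.cast_smul_eq_nsmul F]
    exact smul_ne_zero (by rwa [Ne, CharP.cast_eq_zero_iff F p]) e3
  · rw [Units.val_pow_eq_pow_val, e1, smul_pow, e5, one_smul, one_add_pow_sq e2]

theorem ctx (hp : p.Prime) (h5 : 5 ≤ p) [CharP F p] (hn : 2 ≤ n) {G : Type*} [Group G]
    (ρ : G →* End F (Fin n → F)) {S : Set G} (hS : Subgroup.closure S = ⊤) :
    Ctx F ρ S p ((n * Nat.log 2 (Fintype.card F)) ^ 3) ∧ 2 ≤ Nat.log 2 (Fintype.card F) := by
  have hq : p ≤ Fintype.card F := by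
    obtain ⟨e, -, he⟩ := FiniteField.card F p
    rw [he]
    exact Nat.le_self_pow e.ne_zero p
  have h2 : 2 ≤ Nat.log 2 (Fintype.card F) := Nat.le_log_of_pow_le (by norm_num) (by omega)
  have h3 := (Nat.lt_pow_succ_log_self (b := 2) (by norm_num) (Fintype.card F)).le
  generalize Nat.log 2 (Fintype.card F) = L at h2 h3
  refine ⟨⟨hp, h5, ‹_›, Module.finite_of_finite F, le_trans (by nlinarith)
    (Nat.le_self_pow (by norm_num) _), ?_, hS⟩, h2⟩
  rw [Module.natCard_eq_pow_finrank (K := F), Module.finrank_linearMap, finrank_fin_fun,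
    Nat.card_eq_fintype_card]
  calc p * Fintype.card F ^ (n * n) ≤ Fintype.card F ^ (n * n + 1) := by
        rw [pow_succ']; exact Nat.mul_le_mul_right _ hq
    _ ≤ (2 ^ (L + 1)) ^ (n * n + 1) := Nat.pow_le_pow_left h3 _
    _ ≤ _ := by
        rw [← pow_mul]
        refine Nat.pow_le_pow_right (by norm_num) ?_
        rw [mul_pow, mul_comm]
        exact Nat.mul_le_mul (by nlinarith) (by nlinarith [Nat.pow_le_pow_left h2 2])

theorem final (hp : p.Prime) (h5 : 5 ≤ p) [CharP F p] (hn : 13 ≤ n)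
    {I G : Subgroup (GL (Fin n) F)} (hI : IsClassical I) (h1 : ⁅I, I⁆ ≤ G) (h2 : G ≤ I)
    (hd : ∀ g ∈ G, g.1.det = 1) {S : Set G} (hS : Subgroup.closure S = ⊤) {u : G} (hu : u ∈ S)
    {a : Matrix (Fin n) (Fin n) F} (h0 : a ≠ 0) (ha : a * a = 0) (e : u.1.1 = 1 + a) (x : G) :
    Len S ((n * Nat.log 2 (Fintype.card F)) ^ 6264) x := by
  obtain ⟨C, hL⟩ := ctx hp h5 (by omega) (stdRep G) hS
  have b0 : (toLin' a : End F (Fin n → F)) ≠ 0 := by simpa using h0
  have b1 : (toLin' a : End F (Fin n → F)) * toLin' a = 0 := by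
    rw [End.mul_eq_comp, ← toLin'_mul, ha, map_zero]
  have b2 : Sh (stdRep G) S 1 (toLin' a) := ⟨u, Len.of_mem (Or.inl hu), by
    change toLin' u.1.1 = _
    rw [e, map_add, toLin'_one]; rfl⟩
  have b3 : ∀ g, LinearMap.det (stdRep G g) = 1 := fun g =>
    (LinearMap.det_toLin' g.1.1).trans (hd g.1 g.2)
  have b4 : finrank F (Fin n → F) ≤ (n * Nat.log 2 (Fintype.card F)) ^ 3 := by
    rw [finrank_fin_fun]
    exact (Nat.le_mul_of_pos_right _ (by omega)).trans (Nat.le_self_pow (by norm_num) _)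
  rw [show 6264 = 3 * 2088 by norm_num, pow_mul]
  rcases classical_cases hI with rfl | ⟨σ, ε, B, f, Γ, H, hI'⟩
  · exact (sl_main (hasT h1 (by omega)) b3 C b4 b0 b1 b2 x).mono
      (Nat.pow_le_pow_right (by have := C.two; omega) (by norm_num))
  have H' := geo H hI' (Subgroup.commutator_le.2 fun x hx y hy =>
    I.mul_mem (I.mul_mem (I.mul_mem hx hy) (I.inv_mem hx)) (I.inv_mem hy)) le_rfl (by omega)
  refine geo_main (geo H hI' h1 h2 (by omega)) H' (fun T hT => ?_) (Subgroup.inclusion h2)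
    (fun _ => rfl) ?_ b3 C (by rw [finrank_fin_fun]; omega) b4 b0 b1 b2 x
  · obtain ⟨t, ht⟩ := exists_gl T ((injective_iff_map_eq_zero T).2 fun x hx =>
      H.left fun y => by rw [← hT, hx]; simp)
    have ht' : ∀ s, t.1 *ᵥ s = T s := fun s => LinearMap.congr_fun ht s
    exact ⟨⟨t, (hI' t).2 ⟨by simpa only [ht'] using hT,
      fun x => (q_iff H C.two_ne).2 (by rw [ht', hT])⟩⟩, ht⟩
  · rintro t ⟨u, z, c, k1, k2, k3⟩
    have := H'.mem_commutator (by rw [finrank_fin_fun]; omega) k1 k2 k3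
    exact ⟨⟨t, h1 (by rw [← Subgroup.map_subtype_commutator]; exact ⟨t, this, rfl⟩)⟩, rfl⟩

end Pool.Agent.P.MP_bed792_al.Q
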