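import Pool.Agent.P.MP_bed792_al.Q.Root
import Pool.Agent.P.MP_bed792_al.FormC

set_option autoImplicit false
set_option linter.unusedSectionVars false
set_option linter.unusedSimpArgs false
set_option exponentiation.threshold 3000

open Module

namespace Pool.Agent.P.MP_bed792_al.Q

variable {G F V : Type*} [Group G] [Field F] [AddCommGroup V] [Module F V] [Module.Finite F V]
  {ρ : Representation F G V} {σ : F →+* F} {ε : F} {B f : V →ₗ[F] V →ₛₗ[σ] F} {Γ : AddSubgroup F}
  {S : Set G} {p Λ : ℕ}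

theorem mem_gam (H : Frm ε B f Γ) (h2 : (2 : F) ≠ 0) {c : F} : c ∈ Γ ↔ ε * c + σ c = 0 :=
  ⟨H.gmax c, fun h => mem_of_eq (H.gmin (ε * c / 2)) (by
    rw [map_div₀, map_mul, H.se, map_ofNat]
    field_simp
    linear_combination ε * h - 2 * c * H.ee)⟩

theorem sing_iff (H : Frm ε B f Γ) (h2 : (2 : F) ≠ 0) {u : V} : f u u ∈ Γ ↔ B u u = 0 := by
  rw [mem_gam H h2, H.pol]

theorem q_iff (H : Frm ε B f Γ) (h2 : (2 : F) ≠ 0) {x y : V} :
    f x x - f y y ∈ Γ ↔ B x x = B y y := by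
  rw [mem_gam H h2, H.pol, H.pol, map_sub]
  exact ⟨fun h => by linear_combination h, fun h => by linear_combination h⟩

/-- Skew-adjoint endomorphisms. -/
def Skew (B : V →ₗ[F] V →ₛₗ[σ] F) (a : End F V) : Prop := ∀ s t, B (a s) t = -B s (a t)

theorem skew_of (H : Geo ρ ε B f Γ) {a : End F V} (ha : a * a = 0) (h : ∃ g, ρ g = 1 + a) :
    Skew B a := by
  obtain ⟨g, hg⟩ := h
  have k : ∀ s t, B (a s) t + B s (a t) + B (a s) (a t) = 0 := fun s t => by
    have := H.iso g s t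
    simp only [hg, LinearMap.add_apply, End.one_apply, map_add] at this
    linear_combination this
  have k2 : ∀ t, a (a t) = 0 := LinearMap.congr_fun ha
  intro s t
  have := k s (a t)
  simp only [k2, map_zero, add_zero] at this
  linear_combination k s t - this

theorem Skew.cj (H : Geo ρ ε B f Γ) {a : End F V} (h : Skew B a) (x : G) : Skew B (cj ρ a x) :=
  fun s t => by
    simp only [Q.cj, End.mul_apply]
    rw [← H.iso x⁻¹, rho_inv_apply, h, ← H.iso x, rho_apply_inv]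

theorem Skew.im {a : End F V} (h : Skew B a) (ha : a * a = 0) (s t : V) : B (a s) (a t) = 0 := by
  rw [h, show a (a t) = 0 from LinearMap.congr_fun ha t]; simp

theorem exists_B (H : Frm ε B f Γ) {x : V} (hx : x ≠ 0) : ∃ y, B x y ≠ 0 := by
  by_contra hc
  push Not at hc
  exact hx (H.left hc)

/-- The fixed field. -/
abbrev fx (σ : F →+* F) : Subfield F := σ.eqLocusField (RingHom.id F)

theorem mem_fx {x : F} : x ∈ fx σ ↔ σ x = x := Iff.rfl

/-- The nilpotent part of a transvection. -/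
def tv (B : V →ₗ[F] V →ₛₗ[σ] F) (β : F) (u : V) : End F V := (β • B.flip u).smulRight u

@[simp] theorem tv_apply (β : F) (u s : V) : tv B β u s = (β * B s u) • u := rfl

theorem t_ext (H : Geo ρ ε B f Γ) (h2 : (2 : F) ≠ 0) (hT : ¬ ((∀ x, σ x = x) ∧ ε = 1))
    (a : End F V) (h0 : a ≠ 0) (ha : a * a = 0) (h : ∃ g, ρ g = 1 + a) :
    ∃ n κ, Ext ρ (fx σ) a n κ ∧ ∃ u β, B u u = 0 ∧ β ∈ Γ ∧ a * n * a = tv B β u := by
  have sk := skew_of H ha h
  have aa : ∀ t, a (a t) = 0 := LinearMap.congr_fun ha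
  obtain ⟨s, hs⟩ : ∃ s, B (a s) s ≠ 0 := by
    by_contra hc
    push Not at hc
    have k : ∀ s t, B (a s) t = ε * σ (B (a s) t) := fun s t => by
      have := hc (s + t)
      simp only [map_add, LinearMap.add_apply, hc] at this
      rw [H.symm (a t) s, ← neg_eq_iff_eq_neg.2 (sk s t), map_neg] at this
      linear_combination this
    obtain ⟨s, hs⟩ := DFunLike.ne_iff.1 h0
    obtain ⟨t, ht⟩ := exists_B H.toFrm hs
    have k1 : ∀ x, σ x = x := fun x => mul_right_cancel₀ ht (by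
      have := k (x • s) t
      simp only [map_smul, LinearMap.smul_apply, smul_eq_mul, map_mul] at this
      linear_combination σ x * k s t - this)
    exact hT ⟨k1, mul_right_cancel₀ ht (by rw [one_mul, ← k1 (B (a s) t), ← k, k1])⟩
  obtain ⟨β, hβ⟩ : ∃ β, β = B (a s) s := ⟨_, rfl⟩
  have b0 : B s (a s) = -β := by rw [hβ, sk, neg_neg]
  have b1 : ε * β + σ β = 0 := by
    have := H.symm s (a s)
    rw [b0, ← hβ] at this
    linear_combination -ε * this - σ β * H.ee
  rw [← hβ] at hs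
  obtain ⟨u, u1, u2⟩ : ∃ u, B u u = 0 ∧ B (a u) u = β := by
    refine ⟨s + (-B s s / (2 * β)) • a s, ?_, by simp [aa, map_smulₛₗ, sk.im ha, hβ]⟩
    have e1 : σ β = -ε * β := by linear_combination b1
    have e2 : σ (B s s) = ε * B s s := by linear_combination -ε * H.symm s s - σ (B s s) * H.ee
    have e3 : ε ≠ 0 := fun h => by simpa [h] using H.ee
    simp only [map_add, map_smul, map_smulₛₗ, LinearMap.add_apply, LinearMap.smul_apply,
      smul_eq_mul, sk.im ha, ← hβ, b0, map_div₀, map_neg, map_mul, map_ofNat, e1, e2,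
      RingHom.id_apply]
    field_simp
    ring
  refine ⟨tv B β u, β ^ 2, ⟨by ext; simp [u1], by ext; simp [u2, smul_smul]; ring_nf, ?_,
    pow_ne_zero _ hs, fun c hc => ?_, ?_⟩, a u, -β, sk.im ha _ _,
    Γ.neg_mem ((mem_gam H.toFrm h2).2 b1), by ext; simp [sk _ u]⟩
  · rw [mem_fx, map_pow]
    linear_combination (σ β - ε * β) * b1 + β ^ 2 * H.ee
  · obtain ⟨t, ht⟩ := H.ex u 0 (c * β) ((sing_iff H.toFrm h2).2 u1) (by simp) (by
      rw [mem_gam H.toFrm h2]
      simp only [map_zero, add_zero, map_mul, mem_fx.1 hc]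
      linear_combination c * b1)
    exact ⟨t, by ext s; simp [ht s, smul_smul, mul_assoc]⟩
  · rw [show a * tv B β u = (β • B.flip u).smulRight (a u) by ext; simp, LinearMap.trace_smulRight]
    simpa [u2] using hs

theorem t_all (H : Geo ρ ε B f Γ) (C : Ctx F ρ S p Λ) (hT : ¬ ((∀ x, σ x = x) ∧ ε = 1))
    {a : End F V} (h0 : a ≠ 0) (ha : a * a = 0) (h : Sh ρ S 1 a) :
    ∃ u, u ≠ 0 ∧ B u u = 0 ∧ ∀ z t, B z u = 0 → IsQ ρ B u z t → Len S (Λ ^ 2069) t := by
  have h2 := C.two_ne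
  obtain ⟨_, ⟨u, β, u1, u2, rfl⟩, b0, b1, b2⟩ := C.root (K := fx σ)
    (fun a => ∃ u β, B u u = 0 ∧ β ∈ Γ ∧ a = tv B β u) (t_ext H h2 hT) h0 ha h
  have hg : ∃ g, ρ g = 1 + tv B β u := by simpa using (b2 1 (one_mem _)).imp fun _ h => h.2
  obtain ⟨n, κ, e, -⟩ := t_ext H h2 hT _ b0 b1 hg
  have hu : u ≠ 0 := by rintro rfl; exact b0 (by ext; simp)
  have hβ : β ≠ 0 := by rintro rfl; exact b0 (by ext; simp)
  have b3 := H.gmax β u2
  obtain ⟨r, hr⟩ := H.exists_one hu
  have k : ∀ y : End F V, tv B β u * y * tv B β u = (β * B (y u) u) • tv B β u := fun y => by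
    ext; simp [smul_smul]; ring_nf
  refine ⟨u, hu, u1, fun z t hz ht => ?_⟩
  obtain ⟨c, hc⟩ := H.toE ht hu u1 hz
  refine C.radical H.inj (by norm_num) b1 b0 b2 e (fun x => ⟨_, ?_, k _⟩) (fun g y hy => ⟨_, ?_, k y⟩)
    (fun v => by simp [hc _, u1, H.orth hz]) (fun v => by simp [hc _, u1, hz]) fun v hv => ?_
  · have := (skew_of H b1 hg).cj H x u u
    rw [H.symm u] at this
    rw [mem_fx, map_mul]
    linear_combination σ (B (cj ρ (tv B β u) x u) u) * b3 - β * this
  · rw [k] at hy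
    generalize β * B (y u) u = d at hy
    have := skew_of H (a := d • tv B β u) (by simp [b1]) ⟨g, hy⟩ r r
    simp only [LinearMap.smul_apply, tv_apply, hr, map_smul, map_smulₛₗ, smul_eq_mul, mul_one,
      H.flip_one hr, RingHom.id_apply] at this
    refine mul_right_cancel₀ hβ ?_
    rw [RingHom.id_apply]
    linear_combination -ε * this + ε * σ d * b3 + (d - σ d) * β * H.ee
  · have : B v u = 0 := by simpa [hβ, hu] using hv
    exact ⟨(-(ε * B v z) / β) • r, by simp [hc _, this, hr, smul_smul, div_mul_cancel₀ _ hβ]⟩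

/-- The nilpotent part of a Siegel transformation. -/
def sg (B : V →ₗ[F] V →ₛₗ[σ] F) (u z : V) : End F V :=
  (B.flip u).smulRight z - (B.flip z).smulRight u

@[simp] theorem sg_apply (u z s : V) : sg B u z s = B s u • z - B s z • u := rfl

section Orth

variable (H : Geo ρ 1 B f Γ) (h2 : (2 : F) ≠ 0) (hσ : ∀ x, σ x = x)
include H h2 hσ

theorem o_symm (x y : V) : B x y = B y x := by rw [H.symm, hσ, one_mul]

theorem o_alt {y : End F V} (h : Skew B y) (s : V) : B (y s) s = 0 :=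
  mul_left_cancel₀ h2 (by have := h s s; rw [o_symm H h2 hσ s] at this; linear_combination this)

theorem sg_ex {u z : V} (h1 : B u u = 0) (h3 : B z z = 0) (h4 : B z u = 0) :
    ∃ t, IsE ρ 1 B u z 0 t ∧ ρ t = 1 + sg B u z := by
  obtain ⟨t, ht⟩ := H.ex u z 0 ((sing_iff H.toFrm h2).2 h1) h4
    (by simpa using (sing_iff H.toFrm h2).2 h3)
  exact ⟨t, ht, by ext s; simp [ht s]; abel⟩

theorem o_ext (a : End F V) (h0 : a ≠ 0) (ha : a * a = 0) (h : ∃ g, ρ g = 1 + a) :
    ∃ n κ, Ext ρ ⊤ a n κ ∧ ∃ u z, B u u = 0 ∧ B z z = 0 ∧ B z u = 0 ∧ a * n * a = sg B u z := by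
  have sk := skew_of H ha h
  have aa : ∀ t, a (a t) = 0 := LinearMap.congr_fun ha
  have sy := o_symm H h2 hσ
  have al := o_alt H h2 hσ sk
  obtain ⟨u, z, u1, u2, u3, hβ⟩ : ∃ u z, B u u = 0 ∧ B z z = 0 ∧ B z u = 0 ∧ B (a u) z ≠ 0 := by
    obtain ⟨s, hs⟩ := DFunLike.ne_iff.1 h0
    obtain ⟨t, ht⟩ := exists_B H.toFrm hs
    have e1 : B s (a t) = -B (a s) t := by rw [sk, neg_neg]
    have e2 : B (a t) s = -B (a s) t := by rw [sy, e1]
    have e3 : B s (a s) = 0 := by rw [sy, al]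
    have e4 : B t (a t) = 0 := by rw [sy, al]
    refine ⟨s + (B s s / (2 * B (a s) t)) • a t + (-B s t / B (a s) t) • a s,
      t + (-B t t / (2 * B (a s) t)) • a s, ?_, ?_, ?_, ?_⟩ <;>
    simp only [map_add, map_smul, map_smulₛₗ, LinearMap.add_apply, LinearMap.smul_apply,
      smul_eq_mul, sk.im ha, hσ, e1, e2, e3, e4, al, sy t (a s), sy t s, aa, RingHom.id_apply,
      map_zero, LinearMap.zero_apply]
    · field_simp; ring
    · field_simp; ring
    · field_simp; ring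
    · simpa using ht
  have e1 : B (a z) u = -B (a u) z := by rw [sk, sy]
  refine ⟨sg B u z, -B (a u) z, ⟨by ext; simp [u1, u2, u3, sy u z], ?_, trivial, neg_ne_zero.2 hβ,
    fun c _ => ?_, ?_⟩, a z, a u, sk.im ha _ _, sk.im ha _ _, sk.im ha _ _, ?_⟩
  · ext s
    simp only [End.mul_apply, sg_apply, map_sub, map_smul, LinearMap.sub_apply, LinearMap.smul_apply,
      smul_eq_mul, al, e1]
    module
  · obtain ⟨t, -, ht⟩ := sg_ex H h2 hσ (z := c • z) u1 (by simp [map_smulₛₗ, u2]) (by simp [u3])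
    refine ⟨t, ht.trans ?_⟩
    ext s
    simp only [LinearMap.add_apply, sg_apply, LinearMap.smul_apply, map_smulₛₗ, hσ, smul_eq_mul]
    module
  · rw [show a * sg B u z = (B.flip u).smulRight (a z) - (B.flip z).smulRight (a u) by ext; simp,
      map_sub, LinearMap.trace_smulRight, LinearMap.trace_smulRight]
    simp only [LinearMap.flip_apply, e1]
    exact fun h => hβ (mul_left_cancel₀ h2 (by linear_combination -h))
  · ext s
    simp only [End.mul_apply, sg_apply, map_sub, map_smul, sk s]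
    module

omit h2 in
theorem o_rad (C : Ctx F ρ S p Λ) {u z : V} (u1 : B u u = 0) (u2 : B z z = 0) (u3 : B z u = 0)
    (hu : u ≠ 0) (hz : z ∉ Submodule.span F {u}) {k : ℕ} (hk : 3 ≤ k)
    (hs : ∀ c : F, Sh ρ S (Λ ^ k) (c • sg B u z)) {w : V} {t : G} (w1 : B w u = 0) (w2 : B w z = 0)
    (ht : IsQ ρ B u w t) : Len S (Λ ^ (k + 7)) t := by
  have h2 := C.two_ne
  have sy := o_symm H h2 hσ
  obtain ⟨φ, -, f1, f2⟩ := exists_fun₂ (X := (⊥ : Submodule F V)) (y := u) (y' := z) (by simpa)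
    (by simpa) 1 0
  obtain ⟨ψ, -, g1, g2⟩ := exists_fun₂ (X := (⊥ : Submodule F V)) (y := u) (y' := z) (by simpa)
    (by simpa) 0 1
  obtain ⟨u', hu'⟩ := H.nd φ
  obtain ⟨z', hz'⟩ := H.nd ψ
  have a1 : B u u' = 1 := (hu' u).trans f1
  have a2 : B z u' = 0 := (hu' z).trans f2
  have a3 : B u z' = 0 := (hz' u).trans g1
  have a4 : B z z' = 1 := (hz' z).trans g2
  have b0 : sg B u z ≠ 0 := fun h => hu (by simpa [sy z', a3, a4] using LinearMap.congr_fun h z')
  have b1 : sg B u z * sg B u z = 0 := by ext; simp [u1, u2, u3, sy u z]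
  have hg : ∃ g, ρ g = 1 + sg B u z := by simpa using (hs 1).imp fun _ h => h.2
  obtain ⟨n, κ, e, -⟩ := o_ext H h2 hσ _ b0 b1 hg
  have k : ∀ y : End F V, B (y z) z = 0 → B (y u) u = 0 → B (y u) z = -B (y z) u →
      sg B u z * y * sg B u z = B (y z) u • sg B u z := fun y h1 h3 h4 => by
    ext s
    simp only [End.mul_apply, sg_apply, map_sub, map_smul, LinearMap.sub_apply, LinearMap.smul_apply,
      smul_eq_mul, h1, h3, h4]
    module
  obtain ⟨c, hc⟩ := H.toE ht hu u1 w1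
  refine C.radical H.inj hk b1 b0 (fun c _ => hs c) e (fun x => ⟨_, trivial, k _ ?_ ?_ ?_⟩)
    (fun g y hy => ⟨B (y z) u, trivial, ?_⟩) (fun v => by simp [hc _, u1, u3, sy u w, sy z w, w1, w2])
    (fun v => by simp [hc _, u1, u3, sy u z, w1, w2]) fun v hv => ?_
  · exact o_alt H h2 hσ ((skew_of H b1 hg).cj H x) z
  · exact o_alt H h2 hσ ((skew_of H b1 hg).cj H x) u
  · rw [(skew_of H b1 hg).cj H x, sy]
  · have sk := skew_of H (a := sg B u z * y * sg B u z) (by
      rw [show ∀ a y : End F V, a * y * a * (a * y * a) = a * y * (a * a) * y * a from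
        fun _ _ => by noncomm_ring, b1]; simp) ⟨g, hy⟩
    have c1 := o_alt H h2 hσ sk u'
    have c2 := o_alt H h2 hσ sk z'
    have c3 := sk u' z'
    rw [sy u'] at c3
    simp only [End.mul_apply, sg_apply, map_sub, map_smul, LinearMap.sub_apply, LinearMap.smul_apply,
      smul_eq_mul, sy u' u, sy u' z, sy z' u, sy z' z, a1, a2, a3, a4] at c1 c2 c3
    exact k y (by linear_combination -c1) (by linear_combination -c2) (by linear_combination c3)
  · have c1 := congrArg (fun x => B x u') hv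
    have c2 := congrArg (fun x => B x z') hv
    simp [a1, a2, a3, a4] at c1 c2
    exact ⟨B v w • z', by simp [hc _, c2, sy z', a3, a4]⟩

omit h2 in
theorem o_all (C : Ctx F ρ S p Λ) (hn : 12 < finrank F V) {a : End F V} (h0 : a ≠ 0)
    (ha : a * a = 0) (h : Sh ρ S 1 a) :
    ∃ u, u ≠ 0 ∧ B u u = 0 ∧ ∀ z t, B z u = 0 → IsQ ρ B u z t → Len S (Λ ^ 2077) t := by
  have h2 := C.two_ne
  have sy := o_symm H h2 hσ
  obtain ⟨_, ⟨u, z, u1, u2, u3, rfl⟩, b0, -, b2⟩ := C.root (K := ⊤)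
    (fun a => ∃ u z, B u u = 0 ∧ B z z = 0 ∧ B z u = 0 ∧ a = sg B u z) (o_ext H h2 hσ) h0 ha h
  have hu : u ≠ 0 := by rintro rfl; exact b0 (by ext; simp)
  have hz : z ∉ Submodule.span F {u} := fun h => by
    obtain ⟨c, rfl⟩ := Submodule.mem_span_singleton.1 h
    exact b0 (by ext; simp [map_smulₛₗ, hσ, smul_smul, mul_comm])
  have r1 := fun w t => o_rad H hσ C (w := w) (t := t) u1 u2 u3 hu hz (by norm_num) fun c => b2 c trivial
  have d0 := finrank_single_le (F := F) u
  have d1 := finrank_sup_single (Submodule.span F {u}) z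
  obtain ⟨y, -, y1, y2, y3⟩ := H.isotropic (X := Submodule.span F {u} ⊔ Submodule.span F {z})
    (Y := ⊤) (by rw [finrank_top]; omega)
  have p1 := y2 u (Submodule.mem_sup_left (Submodule.mem_span_singleton_self _))
  have p2 := y2 z (Submodule.mem_sup_right (Submodule.mem_span_singleton_self _))
  have r2 := fun w t => o_rad H hσ C (w := w) (t := t) u1 (H.sing y3) p1 hu
    (fun h => y1 (Submodule.mem_sup_left h)) (k := 2062 + 7) (by norm_num) fun c => by
      obtain ⟨t, t1, t2⟩ := sg_ex H h2 hσ (z := c • y) u1 (by simp [map_smulₛₗ, H.sing y3])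
        (by simp [p1])
      refine ⟨t, r1 _ t (by simp [p1]) (by simp [p2]) t1.isQ, t2.trans ?_⟩
      ext s
      simp only [LinearMap.add_apply, sg_apply, LinearMap.smul_apply, map_smulₛₗ, hσ, smul_eq_mul]
      module
  obtain ⟨φ, f1, f2, f3⟩ := exists_fun₂ hz y1 1 0
  obtain ⟨d, hd⟩ := H.nd φ
  have e1 : B d u = 0 := H.orth ((hd u).trans (f1 _ (Submodule.mem_span_singleton_self _)))
  have e2 : B d z = 1 := by rw [sy, hd, f2]
  have e3 : B d y = 0 := H.orth ((hd y).trans f3)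
  refine ⟨u, hu, u1, fun w t hw ht => ?_⟩
  have e4 : B (B w z • d) u = 0 := by simp [e1]
  obtain ⟨s, hs⟩ := H.ex u (B w z • d) (-f (B w z • d) (B w z • d)) ((sing_iff H.toFrm h2).2 u1) e4
    (by simp)
  have := (r1 _ _ (by simp [hw, e1]) (by simp [e2])
    (ht.mul (hs.isQ.inv u1 e4) u1 (by simp [e1]))).mul (r2 _ s e4 (by simp [e3]) hs.isQ)
  rw [inv_mul_cancel_right] at this
  refine this.mono ?_
  have a1 : Λ ^ (2062 + 7) ≤ Λ ^ (2062 + 7 + 7) :=
    Nat.pow_le_pow_right (by have := C.two; omega) (by norm_num)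
  rw [pow_succ Λ 2076]
  exact (Nat.add_le_add_right a1 _).trans (by rw [← mul_two]; exact Nat.mul_le_mul_left _ C.two)

end Orth

end Pool.Agent.P.MP_bed792_al.Q
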