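import Pool.Agent.P.MP_bed792_al.Q.GA

set_option autoImplicit false
set_option linter.unusedSectionVars false
set_option linter.unusedSimpArgs false
set_option exponentiation.threshold 3000

open Module

namespace Pool.Agent.P.MP_bed792_al.Q

variable {G F V : Type*} [Group G] [Field F] [AddCommGroup V] [Module F V] [Module.Finite F V]
  {ρ : Representation F G V} {σ : F →+* F} {ε : F} {B f : V →ₗ[F] V →ₛₗ[σ] F} {Γ : AddSubgroup F}
  {S : Set G} {p Λ : ℕ}

/-- All Eichler transformations are short once one unipotent radical is. -/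
theorem ei_all (H : Geo ρ ε B f Γ) (hS : Subgroup.closure S = ⊤) (hn : 12 < finrank F V) {u : V}
    {L : ℕ} (hu0 : u ≠ 0) (hu : f u u ∈ Γ)
    (hall : ∀ z t, B z u = 0 → IsQ ρ B u z t → Len S L t) {t : G} (ht : t ∈ Ei ρ ε B f Γ) :
    Len S (4 * (finrank F V * finrank F V) + 3 * L) t := by
  obtain ⟨w, z, c, hw, hz, ht⟩ := ht
  let P : ℕ → V → Prop := fun j u => ∀ z t, B z u = 0 → IsQ ρ B u z t → Len S j t
  have Pc : ∀ {i j u y}, P j u → Len S i y → P (2 * i + j) (ρ y u) := by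
    intro i j u y h hy z t h1 h2
    have h3 := H.isQ_conj h2 y⁻¹
    rw [rho_inv_apply] at h3
    simpa [mul_assoc] using hy.conj (h _ _ (by rw [← H.iso y, rho_apply_inv, h1]) h3)
  have Ps : ∀ {j u} (a : F), a ≠ 0 → P j u → P j (a • u) := by
    intro j u a ha h z t h1 h2
    refine h (σ a • z) t (by simpa [map_smulₛₗ] using h1) fun s => ?_
    obtain ⟨μ, h3⟩ := h2 s
    exact ⟨μ * a, by rw [h3, map_smulₛₗ]; simp [smul_smul, mul_comm]⟩
  by_cases hw0 : w = 0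
  · rw [H.inj (show ρ t = ρ 1 from LinearMap.ext fun s => by simp [ht s, hw0])]
    exact Len.one _ _
  by_cases hwu : w ∈ Submodule.span F {u}
  · obtain ⟨a, rfl⟩ := Submodule.mem_span_singleton.1 hwu
    exact (Ps a (by rintro rfl; simp at hw0) hall z t hz ht.isQ).mono (by omega)
  set X := Submodule.span F {u} ⊔ Submodule.span F {w} with hX
  have mu : u ∈ X := Submodule.mem_sup_left (Submodule.mem_span_singleton_self _)
  have mw : w ∈ X := Submodule.mem_sup_right (Submodule.mem_span_singleton_self _)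
  have d0 := finrank_single_le (F := F) u
  have d1 : finrank F X ≤ _ := finrank_sup_single (Submodule.span F {u}) w
  obtain ⟨φ, -, f2, f3⟩ := exists_fun₂ (X := (⊥ : Submodule F V)) (y := u) (y' := w) (by simpa)
    (by simpa) 1 1
  obtain ⟨y, -, n1, s1, s2⟩ := H.solve (X := X) H.top le_top (by rw [finrank_top]; omega) φ (f u u)
  obtain ⟨a, -, -, -, a1⟩ := H.move (X := ⊥) (y := u) (y' := y) H.top le_top (by simp; omega)
    trivial trivial (by simpa) (fun h => n1 ((Submodule.mem_bot F).1 h ▸ X.zero_mem)) (by simp)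
    (mem_of_eq (Γ.neg_mem s2) (by ring))
  let Φ : V →ₗ[F] (G → F) :=
    { toFun := fun x h => B x (ρ h u)
      map_add' := fun _ _ => by funext h; simp
      map_smul' := fun _ _ => by funext h; simp }
  have hΦ := Rep.of_linear Φ fun s x => ⟨ρ s⁻¹ x, by
    funext h
    change B x (ρ (s * h) u) = B (ρ s⁻¹ x) (ρ h u)
    rw [← H.iso s (ρ s⁻¹ x), rho_apply_inv, rho_mul]⟩
  obtain ⟨h, hh, hne⟩ := ((hΦ u).mul (hΦ w)).escape hS (a := a) (by
    change B u (ρ a u) * B w (ρ a u) ≠ 0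
    simp [a1, s1 u mu, s1 w mw, f2, f3])
  obtain ⟨k1, k2⟩ : B u (ρ h u) ≠ 0 ∧ B w (ρ h u) ≠ 0 := mul_ne_zero_iff.1 hne
  have q1 : f (ρ h u) (ρ h u) ∈ Γ := mem_of_eq (Γ.add_mem (H.qiso h u) hu) (by ring)
  obtain ⟨E, e1, e2, e3⟩ := H.move₀ (y := u) (y' := (B u (ρ h u) / B w (ρ h u)) • w)
    (H.sing_smul q1 (σ (B u (ρ h u))⁻¹)) (by simp [map_smulₛₗ, H.invol, k1])
    (by simp [map_smulₛₗ, H.invol]; field_simp) (Γ.sub_mem hu (H.sing_smul hw _))
  have k3 := Ps _ (by simpa using k1) (Pc hall hh) _ _ e2 e1.isQ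
  have k4 := Ps (B w (ρ h u) / B u (ρ h u)) (div_ne_zero k2 k1) (Pc hall k3)
  rw [e3, smul_smul, show B w (ρ h u) / B u (ρ h u) * (B u (ρ h u) / B w (ρ h u)) = 1 by
    field_simp, one_smul] at k4
  exact (k4 z t hz ht.isQ).mono (by omega)

/-- The reflections in non-singular vectors. -/
def Sy (ρ : Representation F G V) (B : V →ₗ[F] V →ₛₗ[σ] F) : Set G :=
  {g | ∃ w μ, B w w ≠ 0 ∧ ∀ s, ρ g s = s + (μ * B s w) • w}

variable (H : Geo ρ ε B f Γ) (h2 : (2 : F) ≠ 0)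
  (full : ∀ T : V →ₗ[F] V, (∀ x y, B (T x) (T y) = B x y) → ∃ g, ρ g = T)
include H h2 full

theorem sy_ex {w : V} {μ : F} (h : σ μ + ε * μ + μ * σ μ * B w w = 0) :
    ∃ r ∈ Ei ρ ε B f Γ ∪ Sy ρ B, ∀ s, ρ r s = s + (μ * B s w) • w := by
  obtain ⟨r, hr⟩ := full (LinearMap.id + tv B μ w) fun x y => by
    simp only [LinearMap.add_apply, LinearMap.id_apply, tv_apply, map_add, map_smul, map_smulₛₗ,
      LinearMap.smul_apply, smul_eq_mul, map_mul, H.symm w y, RingHom.id_apply]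
    linear_combination B x w * σ (B y w) * h
  have e : ∀ s, ρ r s = s + (μ * B s w) • w := fun s => by simp [hr]
  by_cases hw : B w w = 0
  · exact ⟨r, Or.inl ⟨w, 0, μ, (sing_iff H.toFrm h2).2 hw, by simp, fun s => by simp [e]⟩, e⟩
  · exact ⟨r, Or.inr ⟨w, μ, hw, e⟩, e⟩

omit h2 full in
theorem fix_perp {g : G} {x : V} (hx : ρ g x = x) (v : V) : B x (ρ g v - v) = 0 := by
  rw [map_sub, sub_eq_zero]
  conv_lhs => rw [← hx, H.iso]

omit h2 full in
theorem iso_rel (g : G) (s t : V) :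
    B (ρ g s - s) t + B s (ρ g t - t) + B (ρ g s - s) (ρ g t - t) = 0 := by
  simp only [map_sub, LinearMap.sub_apply, H.iso]; ring

theorem good_step {g : G} {v : V} (h : B v (ρ g v - v) ≠ 0) :
    ∃ r ∈ Ei ρ ε B f Γ ∪ Sy ρ B, (∀ x, ρ g x = x → ρ r x = x) ∧ ρ r v = ρ g v := by
  obtain ⟨r, r1, r2⟩ := sy_ex H h2 full (w := ρ g v - v) (μ := (B v (ρ g v - v))⁻¹) (by
    have e := iso_rel H g v v
    rw [H.symm _ v] at e
    have h' : σ (B v (ρ g v - v)) ≠ 0 := (map_ne_zero σ).2 h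
    rw [map_inv₀]
    field_simp
    linear_combination e)
  exact ⟨r, r1, fun x hx => by simp only [r2, fix_perp H hx, mul_zero, zero_smul, add_zero],
    by rw [r2, inv_mul_cancel₀ h]; simp⟩

theorem cd_step {g : G} (hg : g ≠ 1) : ∃ a v, Len (Ei ρ ε B f Γ ∪ Sy ρ B) 2 a ∧
    (∀ x, ρ g x = x → ρ a x = x) ∧ ρ g v ≠ v ∧ ρ a v = ρ g v := by
  by_cases h : ∃ v, B v (ρ g v - v) ≠ 0
  · obtain ⟨v, hv⟩ := h
    obtain ⟨r, r1, r2, r3⟩ := good_step H h2 full hv
    exact ⟨r, v, (Len.of_mem (Or.inl r1)).mono (by omega), r2, fun h => hv (by simp [h]), r3⟩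
  push Not at h
  obtain ⟨s, hs⟩ : ∃ s, ρ g s - s ≠ 0 := by
    by_contra hc
    push Not at hc
    exact hg (H.inj (LinearMap.ext fun s => by simpa [sub_eq_zero] using hc s))
  by_cases hO : (∀ x, σ x = x) ∧ ε = 1
  · obtain ⟨hσ, rfl⟩ := hO
    have sy := o_symm H h2 hσ
    have k1 : ∀ v w, B v (ρ g w - w) = -B w (ρ g v - v) := fun v w => by
      have := h (v + w)
      rw [map_add (ρ g), add_sub_add_comm] at this
      simp only [map_add, LinearMap.add_apply, h] at this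
      linear_combination this
    have k2 : ∀ v w, B (ρ g v - v) (ρ g w - w) = 0 := fun v w => by
      have := iso_rel H g v w
      rw [sy _ w, k1 w v] at this
      linear_combination this
    obtain ⟨t, ht⟩ := exists_B H.toFrm hs
    rw [sy, k1, neg_ne_zero] at ht
    obtain ⟨r, r1, -⟩ := sg_ex H h2 hσ (u := ρ g s - s) (z := (-(B s (ρ g t - t))⁻¹) • (ρ g t - t))
      (k2 _ _) (by simp only [map_smul, map_smulₛₗ, LinearMap.smul_apply, k2, smul_zero])
      (by simp only [map_smul, LinearMap.smul_apply, k2, smul_zero])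
    have r2 : r ∈ Ei ρ 1 B f Γ ∪ Sy ρ B := Or.inl ⟨_, _, _, (sing_iff H.toFrm h2).2 (k2 _ _),
      by simp only [map_smul, LinearMap.smul_apply, k2, smul_zero], r1⟩
    refine ⟨r, s, (Len.of_mem (Or.inl r2)).mono (by omega), fun x hx => ?_, sub_ne_zero.1 hs, ?_⟩
    · rw [r1]
      simp only [map_smulₛₗ, fix_perp H hx, smul_zero, zero_smul, mul_zero, sub_zero, add_zero]
    · rw [r1]
      simp only [map_smulₛₗ, h, hσ, smul_eq_mul, zero_smul, mul_zero, add_zero, neg_mul,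
        inv_mul_cancel₀ ht]
      simp
  obtain ⟨μ, m1, m2⟩ : ∃ μ : F, μ ≠ 0 ∧ σ μ + ε * μ = 0 := by
    rcases H.eps with rfl | rfl
    · obtain ⟨x, hx⟩ : ∃ x, σ x ≠ x := by simpa using hO
      exact ⟨σ x - x, sub_ne_zero.2 hx, by simp [H.invol]⟩
    · exact ⟨1, one_ne_zero, by simp⟩
  have w0 : B (ρ g s - s) (ρ g s - s) = 0 := by
    have := iso_rel H g s s
    rw [h, H.orth (h s)] at this
    simpa using this
  have w1 := fun x (hx : ρ g x = x) => fix_perp H hx s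
  generalize ρ g s - s = w at hs w0 w1
  obtain ⟨r₀, a1, a2⟩ := sy_ex H h2 full (w := w) (μ := μ) (by rw [w0, mul_zero, add_zero, m2])
  obtain ⟨v, v1, v2⟩ : ∃ v, B v w ≠ 0 ∧ B (ρ g v) w ≠ 0 := by
    obtain ⟨v, hv⟩ := H.exists_one hs
    by_cases c1 : B (ρ g v) w = 0
    · by_cases c2 : B (ρ g⁻¹ v) w = 0
      · exact ⟨v + ρ g⁻¹ v, by simp [hv, c2], by simp [hv, c1]⟩
      · exact ⟨ρ g⁻¹ v, c2, by simp [hv]⟩
    · exact ⟨v, by simp [hv], c1⟩
  obtain ⟨r, r1, r2, r3⟩ := good_step H h2 full (g := r₀ * g) (v := v) (by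
    rw [rho_mul, a2, add_sub_right_comm, map_add, h, map_smulₛₗ]
    simp [m1, v1, v2])
  have a3 : ∀ x, ρ g x = x → ρ r₀ x = x := fun x hx => by simp [a2, w1 x hx]
  refine ⟨r₀⁻¹ * r, v, (Len.of_mem (Or.inl a1)).inv.mul (Len.of_mem (Or.inl r1)), fun x hx => ?_,
    fun hv => v1 (w1 v hv), by rw [rho_mul, r3, rho_mul, rho_inv_apply]⟩
  rw [rho_mul, r2 x (by rw [rho_mul, hx, a3 x hx]), rho_inv_eq ρ (a3 x hx)]

theorem cd (d : ℕ) : ∀ g : G, finrank F V ≤ finrank F (LinearMap.ker (ρ g - LinearMap.id)) + d →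
    Len (Ei ρ ε B f Γ ∪ Sy ρ B) (2 * d) g := by
  have mem : ∀ (g : G) (x : V), x ∈ LinearMap.ker (ρ g - LinearMap.id) ↔ ρ g x = x := fun g x => by
    simp [sub_eq_zero]
  induction d with
  | zero =>
    intro g hg
    have := Submodule.eq_top_of_finrank_eq (le_antisymm (Submodule.finrank_le _) hg)
    rw [H.inj (show ρ g = ρ 1 from LinearMap.ext fun s => by
      simpa using (mem g s).1 (this ▸ Submodule.mem_top))]
    exact Len.one _ _
  | succ d ih =>
    intro g hg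
    by_cases h1 : g = 1
    · rw [h1]; exact Len.one _ _
    obtain ⟨a, v, a1, a2, a3, a4⟩ := cd_step H h2 full h1
    have : LinearMap.ker (ρ g - LinearMap.id) < LinearMap.ker (ρ (a⁻¹ * g) - LinearMap.id) :=
      lt_of_le_of_ne (fun x hx => (mem _ _).2 (by
        rw [rho_mul, (mem _ _).1 hx, rho_inv_eq ρ (a2 x ((mem _ _).1 hx))])) fun h =>
        a3 ((mem _ _).1 (h ▸ (mem _ _).2 (by rw [rho_mul, rho_inv_eq ρ a4])))
    have := Submodule.finrank_lt_finrank_of_lt this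
    have := a1.mul (ih (a⁻¹ * g) (by omega))
    rw [mul_inv_cancel_left] at this
    exact this.mono (by omega)

theorem sy_reduce (T : Subgroup G) (hT : ∀ r ∈ Sy ρ B, ∃ e, Len (Ei ρ ε B f Γ) 2 e ∧ e⁻¹ * r * e ∈ T)
    (g : G) : ∃ a, Len (Ei ρ ε B f Γ) (8 * finrank F V) a ∧ a⁻¹ * g ∈ T := by
  have cjg : ∀ {j a} (y : G), Len (Ei ρ ε B f Γ) j a → Len (Ei ρ ε B f Γ) j (y * a * y⁻¹) :=
    fun y h => len_map (MulAut.conj y).toMonoidHom (by
      rintro t ⟨u, z, c, k1, k2, k3⟩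
      exact ⟨ρ y u, ρ y z, c, mem_of_eq (Γ.add_mem (H.qiso y u) k1) (by ring), by rw [H.iso, k2],
        H.isE_conj k3 y⟩) h
  have key : ∀ m g, Len (Ei ρ ε B f Γ ∪ Sy ρ B) m g →
      ∃ a, Len (Ei ρ ε B f Γ) (4 * m) a ∧ a⁻¹ * g ∈ T := by
    intro m
    induction m with
    | zero => intro g hg; exact ⟨1, Len.one _ _, by simp [Len.zero_iff.1 hg]⟩
    | succ m ih =>
      intro g hg
      rcases Len.succ_iff.1 hg with hg | ⟨s, k, hs, hk, rfl⟩
      · exact (ih g hg).imp fun _ h => ⟨h.1.mono (by omega), h.2⟩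
      obtain ⟨a, a1, a2⟩ := ih k hk
      by_cases h : s ∈ Ei ρ ε B f Γ ∨ s⁻¹ ∈ Ei ρ ε B f Γ
      · exact ⟨s * a, ((Len.of_mem h).mul a1).mono (by omega), by simpa [mul_assoc] using a2⟩
      obtain ⟨e, e1, e2⟩ : ∃ e, Len (Ei ρ ε B f Γ) 2 e ∧ e⁻¹ * s * e ∈ T := by
        rcases hs with (hs | hs) | hs | hs
        · exact absurd (Or.inl hs) h
        · exact hT s hs
        · exact absurd (Or.inr hs) h
        · exact (hT _ hs).imp fun e he => ⟨he.1, by simpa [mul_assoc] using T.inv_mem he.2⟩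
      refine ⟨e * ((e⁻¹ * s * e) * (e⁻¹ * a) * (e⁻¹ * s * e)⁻¹),
        (e1.mul (cjg _ (e1.inv.mul a1))).mono (by omega), ?_⟩
      have := T.mul_mem e2 a2
      rwa [show e⁻¹ * s * e * (a⁻¹ * k) =
        (e * ((e⁻¹ * s * e) * (e⁻¹ * a) * (e⁻¹ * s * e)⁻¹))⁻¹ * (s * k) by group] at this
  exact (key _ g (cd H h2 full (finrank F V) g (by omega))).imp fun _ h => ⟨h.1.mono (by omega), h.2⟩

omit full in
theorem sy_conj (hn : 12 < finrank F V) {r : G} {w w₀ : V} {μ c : F} (hw : B w w ≠ 0)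
    (hr : ∀ s, ρ r s = s + (μ * B s w) • w) (hc : c * σ c * B w₀ w₀ = B w w) :
    ∃ e ν, Len (Ei ρ ε B f Γ) 2 e ∧ ∀ s, ρ (e⁻¹ * r * e) s = s + (ν * B s w₀) • w₀ := by
  have e0 : B (c • w₀) (c • w₀) = B w w := by
    simp only [map_smul, map_smulₛₗ, LinearMap.smul_apply, smul_eq_mul, RingHom.id_apply, ← hc]; ring
  obtain ⟨e, e1, -, -, e2⟩ := H.move (X := ⊥) (y := c • w₀) (y' := w) H.top le_top (by simp; omega)
    trivial trivial (fun h => hw (by rw [← e0, (Submodule.mem_bot F).1 h]; simp))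
    (fun h => hw (by rw [(Submodule.mem_bot F).1 h]; simp)) (by simp) ((q_iff H.toFrm h2).2 e0)
  refine ⟨e, μ * σ c * c, e1, fun s => ?_⟩
  rw [rho_mul, rho_mul, hr, ← e2, H.iso, map_add, map_smul, rho_inv_apply, rho_inv_apply, map_smulₛₗ,
    smul_smul]
  congr 2
  rw [smul_eq_mul]
  ring

end Pool.Agent.P.MP_bed792_al.Q
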