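import Pool.Agent.P.MP_bed792_al.Q.GB

set_option autoImplicit false
set_option linter.unusedSectionVars false
set_option linter.unusedSimpArgs false
set_option exponentiation.threshold 3000

open Module

namespace Pool.Agent.P.MP_bed792_al.Q

variable {G F V : Type*} [Group G] [Field F] [AddCommGroup V] [Module F V] [Module.Finite F V]
  {ρ : Representation F G V} {σ : F →+* F} {ε : F} {B f : V →ₗ[F] V →ₛₗ[σ] F} {Γ : AddSubgroup F}
  {S : Set G} {p Λ : ℕ}

theorem norm_surj [Finite F] (hσ : ∀ x, σ (σ x) = x) {x : F} (hx : σ x ≠ x) {d : F} (hd : σ d = d) :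
    ∃ c, c * σ c = d := by
  have hi : σ (x - σ x) = -(x - σ x) := by rw [map_sub, hσ, neg_sub]
  have h0 : x - σ x ≠ 0 := sub_ne_zero.2 hx.symm
  generalize x - σ x = i at hi h0
  obtain ⟨a, b, hab⟩ := quad (K := fx σ) (x := 1) (y := ⟨-i ^ 2, by simp [mem_fx, hi]⟩) one_ne_zero
    (fun h => h0 (by simpa using congrArg Subtype.val h)) ⟨-d, by simp [mem_fx, hd]⟩
  have ha : σ a = a := a.2
  have hb : σ b = b := b.2
  have hab' : (a : F) ^ 2 * 1 + (b : F) ^ 2 * -i ^ 2 + -d = 0 := congrArg Subtype.val hab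
  exact ⟨a + b * i, by rw [map_add, map_mul, ha, hb, hi]; linear_combination hab'⟩

theorem sq_or [Finite F] {ν d : F} (hν : ¬ IsSquare ν) (hd : d ≠ 0) :
    IsSquare d ∨ IsSquare (d * ν) := by
  classical
  have := Fintype.ofFinite F
  have h0 : ν ≠ 0 := by rintro rfl; simp at hν
  refine (em (IsSquare d)).imp id fun h => ?_
  rw [← quadraticChar_one_iff_isSquare (mul_ne_zero hd h0), map_mul,
    quadraticChar_neg_one_iff_not_isSquare.2 h, quadraticChar_neg_one_iff_not_isSquare.2 hν]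
  norm_num

theorem geo_decomp [Finite F] (H : Geo ρ ε B f Γ) (h2 : (2 : F) ≠ 0)
    (full : ∀ T : V →ₗ[F] V, (∀ x y, B (T x) (T y) = B x y) → ∃ g, ρ g = T)
    (hn : 12 < finrank F V) : ∃ (T : Subgroup G) (φ : G → Prop × Prop),
      (∀ g, ∃ a, Len (Ei ρ ε B f Γ) (8 * finrank F V) a ∧ a⁻¹ * g ∈ T) ∧
      ∀ t ∈ T, ∀ t' ∈ T, LinearMap.det (ρ t) = 1 → LinearMap.det (ρ t') = 1 → φ t = φ t' → t = t' := by
  by_cases h : ∀ w, B w w = 0
  · exact ⟨⊥, fun _ => (True, True), sy_reduce H h2 full ⊥ fun r ⟨w, _, hw, _⟩ => absurd (h w) hw,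
      fun t ht t' ht' _ _ _ => by rw [Subgroup.mem_bot.1 ht, Subgroup.mem_bot.1 ht']⟩
  push Not at h
  obtain ⟨w₀, h0⟩ := h
  by_cases hσ : ∀ x, σ x = x
  swap
  · push Not at hσ
    obtain ⟨x, hx⟩ := hσ
    let T : Subgroup G :=
      { carrier := {g | ∀ s, B s w₀ = 0 → ρ g s = s}
        mul_mem' := fun ha hb s hs => by rw [rho_mul, hb s hs, ha s hs]
        one_mem' := fun s _ => by simp
        inv_mem' := fun ha s hs => rho_inv_eq ρ (ha s hs) }
    have key : ∀ t ∈ T, LinearMap.det (ρ t) = 1 → t = 1 := fun t ht hd => by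
      have e : ∀ s, ρ t s = s + ((B w₀ w₀)⁻¹ * B s w₀) • (ρ t w₀ - w₀) := fun s => by
        have := ht (s - ((B w₀ w₀)⁻¹ * B s w₀) • w₀) (by simp [mul_right_comm, h0])
        rw [map_sub, map_smul] at this
        linear_combination (norm := module) this
      rw [show ρ t = LinearMap.transvection ((B w₀ w₀)⁻¹ • B.flip w₀) (ρ t w₀ - w₀) from
        LinearMap.ext e, LinearMap.transvection.det] at hd
      have e1 : B (ρ t w₀ - w₀) w₀ = 0 := by
        simpa only [add_eq_left, LinearMap.smul_apply, LinearMap.flip_apply, smul_eq_mul, mul_eq_zero,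
          inv_eq_zero, h0, false_or] using hd
      have e2 : ρ t w₀ - w₀ = 0 := H.left fun s => H.orth (by
        have := fix_perp H (ht (s - ((B w₀ w₀)⁻¹ * B s w₀) • w₀) (by simp [mul_right_comm, h0])) w₀
        rwa [LinearMap.map_sub₂, LinearMap.map_smul₂, H.orth e1, smul_zero, sub_zero] at this)
      exact H.inj (LinearMap.ext fun s => by rw [e, e2]; simp)
    refine ⟨T, fun _ => (True, True), sy_reduce H h2 full T ?_,
      fun t ht t' ht' d d' _ => by rw [key t ht d, key t' ht' d']⟩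
    rintro r ⟨w, μ, hw, hr⟩
    obtain ⟨c, hc⟩ := norm_surj H.invol hx (d := B w w / B w₀ w₀) (by
      have e3 : ε ≠ 0 := fun h => by simpa [h] using H.ee
      have e1 : ∀ v, σ (B v v) = ε * B v v := fun v => by
        linear_combination -ε * H.symm v v - σ (B v v) * H.ee
      rw [map_div₀, e1, e1, mul_div_mul_left _ _ e3])
    obtain ⟨e, ν, e1, e2⟩ := sy_conj H h2 hn hw hr (w₀ := w₀) (c := c) (by rw [hc]; field_simp)
    exact ⟨e, e1, fun s hs => by simp only [e2, hs, mul_zero, zero_smul, add_zero]⟩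
  obtain rfl : ε = 1 := mul_right_cancel₀ h0 (by rw [one_mul, ← hσ (B w₀ w₀), ← H.symm, hσ])
  have sy := o_symm H h2 hσ
  obtain ⟨ν, hν⟩ := FiniteField.exists_nonsquare (F := F) fun h => h2 (by
    simpa [h] using ringChar.Nat.cast_ringChar (R := F))
  have hν0 : ν ≠ 0 := by rintro rfl; simp at hν
  have d0 := finrank_single_le (F := F) w₀
  obtain ⟨w₁, -, -, s1, s2⟩ := H.solve (X := Submodule.span F {w₀}) H.top le_top
    (by rw [finrank_top]; omega) 0 (ν * f w₀ w₀)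
  have p1 : B w₀ w₁ = 0 := s1 w₀ (Submodule.mem_span_singleton_self _)
  have p2 : B w₁ w₀ = 0 := H.orth p1
  have p3 : B w₁ w₁ = ν * B w₀ w₀ := by
    rw [mem_gam H.toFrm h2, hσ] at s2
    rw [H.pol, H.pol, hσ, hσ]
    linear_combination s2
  have h1 : B w₁ w₁ ≠ 0 := p3 ▸ mul_ne_zero hν0 h0
  have pm : ∀ {a b : G} {w : V}, (ρ a w = w ∨ ρ a w = -w) → (ρ b w = w ∨ ρ b w = -w) →
      ρ (a * b) w = w ∨ ρ (a * b) w = -w := by
    rintro a b w (ha | ha) (hb | hb) <;> simp [ha, hb]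
  have pi : ∀ {a : G} {w : V}, (ρ a w = w ∨ ρ a w = -w) → ρ a⁻¹ w = w ∨ ρ a⁻¹ w = -w :=
    fun h => h.imp (rho_inv_eq ρ) fun h => rho_inv_eq ρ (by simp [h])
  let T : Subgroup G :=
    { carrier := {g | (∀ s, B s w₀ = 0 → B s w₁ = 0 → ρ g s = s) ∧ (ρ g w₀ = w₀ ∨ ρ g w₀ = -w₀) ∧
        (ρ g w₁ = w₁ ∨ ρ g w₁ = -w₁)}
      mul_mem' := fun ha hb => ⟨fun s h h' => by rw [rho_mul, hb.1 s h h', ha.1 s h h'],
        pm ha.2.1 hb.2.1, pm ha.2.2 hb.2.2⟩
      one_mem' := ⟨fun s _ _ => by simp, by simp, by simp⟩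
      inv_mem' := fun ha => ⟨fun s h h' => rho_inv_eq ρ (ha.1 s h h'), pi ha.2.1, pi ha.2.2⟩ }
  have refl : ∀ {t : G} {w : V} {μ : F}, B w w ≠ 0 → (∀ s, ρ t s = s + (μ * B s w) • w) →
      ρ t w = w ∨ ρ t w = -w := fun {t w μ} hw ht => by
    have := H.iso t w w
    have e : ρ t w = (1 + μ * B w w) • w := by rw [ht, add_smul, one_smul]
    simp only [e, map_smul, map_smulₛₗ, LinearMap.smul_apply, smul_eq_mul, hσ,
      RingHom.id_apply] at this
    rcases mul_self_eq_one_iff.1 (mul_right_cancel₀ hw (show (1 + μ * B w w) * (1 + μ * B w w) *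
      B w w = 1 * B w w by linear_combination this)) with h | h <;> simp [e, h]
  refine ⟨T, fun t => (ρ t w₀ = w₀, ρ t w₁ = w₁), sy_reduce H h2 full T ?_, ?_⟩
  · rintro r ⟨w, μ, hw, hr⟩
    rcases sq_or hν (div_ne_zero hw h0) with ⟨c, hc⟩ | ⟨c, hc⟩
    · obtain ⟨e, ν', e1, e2⟩ := sy_conj H h2 hn hw hr (w₀ := w₀) (c := c) (by
        rw [hσ, ← hc]; field_simp)
      exact ⟨e, e1, fun s hs _ => by simp only [e2, hs, mul_zero, zero_smul, add_zero], refl h0 e2,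
        Or.inl (by simp only [e2, p2, mul_zero, zero_smul, add_zero])⟩
    · obtain ⟨e, ν', e1, e2⟩ := sy_conj H h2 hn hw hr (w₀ := w₁) (c := c / ν) (by
        rw [hσ, p3, div_mul_div_comm, ← hc]; field_simp)
      exact ⟨e, e1, fun s _ hs => by simp only [e2, hs, mul_zero, zero_smul, add_zero],
        Or.inl (by simp only [e2, p1, mul_zero, zero_smul, add_zero]), refl h1 e2⟩
  · intro t ht t' ht' _ _ e
    have k : ∀ {w : V}, (ρ t w = w ∨ ρ t w = -w) → (ρ t' w = w ∨ ρ t' w = -w) →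
        (ρ t w = w) = (ρ t' w = w) → ρ t w = ρ t' w := fun {w} a1 a2 a3 => by
      by_cases h : ρ t w = w
      · exact h.trans (a3.mp h).symm
      · rw [a1.resolve_left h, a2.resolve_left fun h' => h (a3.mpr h')]
    have k0 := k ht.2.1 ht'.2.1 (Prod.mk.inj e).1
    have k1 := k ht.2.2 ht'.2.2 (Prod.mk.inj e).2
    refine H.inj (LinearMap.ext fun s => ?_)
    have a1 : B (s - (B s w₀ / B w₀ w₀) • w₀ - (B s w₁ / B w₁ w₁) • w₁) w₀ = 0 := by simp [h0, p2]
    have a2 : B (s - (B s w₀ / B w₀ w₀) • w₀ - (B s w₁ / B w₁ w₁) • w₁) w₁ = 0 := by simp [h1, p1]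
    have := (ht.1 _ a1 a2).trans (ht'.1 _ a1 a2).symm
    simpa [k0, k1] using this

theorem geo_main [Finite F] {I : Type*} [Group I] {ρ' : Representation F I V} (H : Geo ρ ε B f Γ)
    (H' : Geo ρ' ε B f Γ) (full : ∀ T : V →ₗ[F] V, (∀ x y, B (T x) (T y) = B x y) → ∃ g, ρ' g = T)
    (ι : G →* I) (hρ : ∀ g, ρ' (ι g) = ρ g) (hι : ∀ t ∈ Ei ρ' ε B f Γ, ∃ s, ι s = t)
    (hdet : ∀ g, LinearMap.det (ρ g) = 1) (C : Ctx F ρ S p Λ) (hn : 12 < finrank F V)
    (hΛ : finrank F V ≤ Λ) {a : End F V} (h0 : a ≠ 0) (ha : a * a = 0) (h : Sh ρ S 1 a) (g : G) :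
    Len S (Λ ^ 2088) g := by
  have h2 := C.two_ne
  have l2 := C.two
  obtain ⟨u, u0, u1, hu⟩ : ∃ u, u ≠ 0 ∧ B u u = 0 ∧
      ∀ z t, B z u = 0 → IsQ ρ B u z t → Len S (Λ ^ 2077) t := by
    by_cases hO : (∀ x, σ x = x) ∧ ε = 1
    · obtain ⟨hσ, rfl⟩ := hO
      exact o_all H hσ C hn h0 ha h
    · exact (t_all H C hO h0 ha h).imp fun u hu => ⟨hu.1, hu.2.1, fun z t h1 h3 =>
        (hu.2.2 z t h1 h3).mono (Nat.pow_le_pow_right (by omega) (by norm_num))⟩
  obtain ⟨L, hL⟩ : ∃ L, L = Λ ^ 2077 := ⟨_, rfl⟩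
  have a1 : finrank F V * finrank F V ≤ L := (Nat.mul_le_mul hΛ hΛ).trans (by
    rw [hL, ← sq]; exact Nat.pow_le_pow_right (by omega) (by norm_num))
  rw [← hL] at hu
  have hE : ∀ t ∈ Ei ρ ε B f Γ, Len S (7 * L) t := fun t ht =>
    (ei_all H C.gen hn u0 ((sing_iff H.toFrm h2).2 u1) hu ht).mono (by omega)
  obtain ⟨T, φ, t1, t2⟩ := geo_decomp H' h2 full hn
  have inj : Function.Injective ι := fun x y e => H.inj (by rw [← hρ, ← hρ, e])
  have hφ : Function.Injective fun k : T.comap ι => φ (ι k) := fun k k' e =>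
    Subtype.ext (inj (t2 _ k.2 _ k'.2 (by rw [hρ, hdet]) (by rw [hρ, hdet]) e))
  have := Finite.of_injective _ hφ
  have hc : Nat.card (T.comap ι) ≤ 4 := by simpa using Nat.card_le_card_of_injective _ hφ
  have := len_schreier C.gen (T.comap ι) (L := 7 * L * (8 * finrank F V)) (fun x => by
    obtain ⟨b, b1, b2⟩ := t1 (ι x)
    obtain ⟨y, y1, rfl⟩ := len_lift ι (S := Ei ρ ε B f Γ) (fun t ht => by
      obtain ⟨s, rfl⟩ := hι t ht
      obtain ⟨u, z, c, k1, k2, k3⟩ := ht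
      exact ⟨s, ⟨u, z, c, k1, k2, fun v => by rw [← hρ]; exact k3 v⟩, rfl⟩) b1
    exact ⟨y, Len.comp hE y1, by simpa [Subgroup.mem_comap] using b2⟩) g
  refine this.mono ?_
  have a2 : 1 ≤ L := by nlinarith
  have a3 : 7 * L * (8 * finrank F V) ≤ 56 * (Λ * L) := by nlinarith [Nat.mul_le_mul_right L hΛ]
  have a4 : 1 ≤ Λ * L := Nat.mul_pos (by omega) a2
  have a5 : 2 ^ 10 ≤ Λ ^ 10 := Nat.pow_le_pow_left l2 _
  rw [show Λ ^ 2088 = Λ ^ 10 * (Λ * L) by rw [hL, ← pow_succ', ← pow_add]]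
  generalize Λ * L = U at *
  generalize 7 * L * (8 * finrank F V) = D at *
  nlinarith [Nat.mul_le_mul_right U a5, Nat.mul_le_mul_left (2 * D + 1) hc]

end Pool.Agent.P.MP_bed792_al.Q
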