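import Pool.Agent.P.MP_bed792_al.Q.Op
import Pool.Agent.P.MP_bed792_al.Rep

set_option autoImplicit false
set_option exponentiation.threshold 3000
set_option linter.unusedSectionVars false

open Module

namespace Pool.Agent.P.MP_bed792_al.Q

variable {G F E : Type*} [Group G] [Field F] [Ring E] [Algebra F E] {ρ : G →* E} {S : Set G}

/-- The conjugate of `a` by `h`. -/
def cj (ρ : G →* E) (a : E) (h : G) : E := ρ h * a * ρ h⁻¹

theorem rho_mul_inv (ρ : G →* E) (h : G) : ρ h * ρ h⁻¹ = 1 := by rw [← map_mul]; simp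
theorem rho_inv_mul (ρ : G →* E) (h : G) : ρ h⁻¹ * ρ h = 1 := by rw [← map_mul]; simp

theorem cj_mul (a : E) (s h : G) : cj ρ a (s * h) = cj ρ (cj ρ a h) s := by
  simp [cj, mul_assoc]

theorem cj_one (a : E) : cj ρ a 1 = a := by simp [cj]

theorem cj_mul_cj (a b : E) (h : G) : cj ρ a h * cj ρ b h = cj ρ (a * b) h := by
  simp only [cj, mul_assoc]
  rw [← mul_assoc (ρ h⁻¹), rho_inv_mul, one_mul]

theorem cj_zero (h : G) : cj ρ (0 : E) h = 0 := by simp [cj]

theorem cj_smul (c : F) (a : E) (h : G) : cj ρ (c • a) h = c • cj ρ a h := by simp [cj]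

theorem cj_sq {a : E} (ha : a * a = 0) (h : G) : cj ρ a h * cj ρ a h = 0 := by
  rw [cj_mul_cj, ha, cj_zero]

/-- The numerical setting. -/
structure Ctx (F : Type*) [Field F] (ρ : G →* E) (S : Set G) (p Λ : ℕ) : Prop where
  prime : p.Prime
  five : 5 ≤ p
  char : CharP F p
  fin : Finite E
  two : 2 ≤ Λ
  card : p * Nat.card E ≤ 2 ^ Λ
  gen : Subgroup.closure S = ⊤

variable {p Λ : ℕ}

/-- The prime field acts on the algebra. -/
@[reducible] def zalg (F E : Type*) [Field F] [Ring E] [Algebra F E] (p : ℕ) [CharP F p] :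
    Algebra (ZMod p) E :=
  ((algebraMap F E).comp (ZMod.castHom dvd_rfl F)).toAlgebra' fun _ x => Algebra.commutes _ x

theorem zsmul_val {p : ℕ} [Fact p.Prime] {M : Type*} [AddCommGroup M] [Module (ZMod p) M]
    (c : ZMod p) (x : M) : c • x = c.val • x := by
  rw [← Nat.cast_smul_eq_nsmul (ZMod p), ZMod.natCast_zmod_val]

theorem rank_le {p : ℕ} [Fact p.Prime] [Module (ZMod p) E] [Finite E]
    (h : p * Nat.card E ≤ 2 ^ Λ) : finrank (ZMod p) E ≤ Λ := by
  have hp := (Fact.out : p.Prime).two_le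
  rw [Module.natCard_eq_pow_finrank (K := ZMod p), Nat.card_zmod] at h
  exact (Nat.pow_le_pow_iff_right (by norm_num)).1 ((Nat.pow_le_pow_left hp _).trans
    ((Nat.le_mul_of_pos_left _ (by omega)).trans h))

namespace Ctx

variable (C : Ctx F ρ S p Λ)
include C

theorem ne_zero {n : ℕ} (h0 : 0 < n) (hn : n < p) : (n : F) ≠ 0 := fun h =>
  have := C.char
  absurd (Nat.le_of_dvd h0 ((CharP.cast_eq_zero_iff F p n).1 h)) (by omega)

theorem two_ne : (2 : F) ≠ 0 := by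
  simpa using C.ne_zero (n := 2) (by omega) (by have := C.five; omega)

theorem rep (θ : E →+ F) (a : E) : Rep Λ fun h => θ (cj ρ a h) := by
  have := C.char
  have := C.fin
  have : Fact p.Prime := ⟨C.prime⟩
  let := zalg F E p
  let := ZMod.algebra F p
  let Φ : (E →ₗ[ZMod p] F) →ₗ[F] (G → F) :=
    { toFun := fun d h => d (cj ρ a h)
      map_add' := fun _ _ => rfl
      map_smul' := fun _ _ => rfl }
  have := Rep.of_linear Φ (fun s d => ⟨d ∘ₗ LinearMap.mulRight _ (ρ s⁻¹) ∘ₗ LinearMap.mulLeft _ (ρ s),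
    by funext h; simp [Φ, cj, mul_assoc]⟩) (θ.toZModLinearMap p)
  rw [Module.finrank_linearMap, finrank_self, mul_one] at this
  exact this.mono (rank_le C.card)

theorem esc (θ : E →+ F) {a : E} {x : G} (h : θ (cj ρ a x) ≠ 0) :
    ∃ g, Len S Λ g ∧ θ (cj ρ a g) ≠ 0 := (C.rep θ a).escape C.gen h

theorem esc₂ (θ θ' : E →+ F) {a : E} {x : G} (h : θ (cj ρ a x) ≠ 0) (h' : θ' (cj ρ a x) ≠ 0) :
    ∃ g, Len S (Λ * Λ) g ∧ θ (cj ρ a g) ≠ 0 ∧ θ' (cj ρ a g) ≠ 0 :=
  (((C.rep θ a).mul (C.rep θ' a)).escape C.gen (mul_ne_zero h h')).imp fun _ h =>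
    ⟨h.1, mul_ne_zero_iff.1 h.2⟩

theorem span (R : ℕ → E → Prop) (hmono : ∀ a b z, a ≤ b → R a z → R b z) (h0 : R 0 0)
    (hadd : ∀ a b z w, R a z → R b w → R (a + b) (z + w)) (A : Set E) (l : ℕ)
    (hA : ∀ n : ℕ, ∀ z ∈ A, R l (n • z)) {z : E}
    (hz : ∀ θ : E →+ F, θ z ≠ 0 → ∃ y ∈ A, θ y ≠ 0) : R (Λ * l) z := by
  have := C.char
  have := C.fin
  have : Fact p.Prime := ⟨C.prime⟩
  let := zalg F E p
  have hmem : z ∈ Submodule.span (ZMod p) A := by
    by_contra hcon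
    obtain ⟨f, hf, hle⟩ := Submodule.exists_le_ker_of_notMem hcon
    obtain ⟨y, hy, hne⟩ := hz ((ZMod.castHom dvd_rfl F).toAddMonoidHom.comp f.toAddMonoidHom)
      fun h => hf ((ZMod.castHom dvd_rfl F).injective (h.trans (map_zero _).symm))
    exact hne (by simp [LinearMap.mem_ker.1 (hle (Submodule.subset_span hy))])
  exact hmono _ _ _ (Nat.mul_le_mul_right _ (rank_le C.card)) (span_short (K := ZMod p) R hmono h0
    hadd A l (fun c y hy => by rw [zsmul_val]; exact hA _ y hy) hmem)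

theorem round₁ {a b : E} (ha : a * a = 0) (hb : b * b = 0) {l : ℕ} (h : Sh ρ S l a)
    (h' : Sh ρ S l b) :
    ∃ D : ℕ, ∀ n : ℕ, Sh ρ S (l * Λ ^ 1028) (n • ((a * b + b * a) ^ D * a)) := by
  have := C.char
  have := C.fin
  have : Fact p.Prime := ⟨C.prime⟩
  let := zalg F E p
  obtain ⟨D, hD⟩ := round_one C.five C.two C.card ha hb h h'
  exact ⟨D, fun n => by simpa only [Nat.cast_smul_eq_nsmul] using hD n⟩

theorem round₂ {a b : E} (ha : a * a = 0) (hb : b * b = 0) {l : ℕ} (h : ∀ n : ℕ, Sh ρ S l (n • a))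
    (h' : ∀ n : ℕ, Sh ρ S l (n • b)) (n : ℕ) : Sh ρ S (l * Λ ^ 1029) (n • (a * b * a)) := by
  have := C.char
  have := C.fin
  have : Fact p.Prime := ⟨C.prime⟩
  let := zalg F E p
  simpa only [Nat.cast_smul_eq_nsmul] using round_two C.five C.two C.card ha hb
    (fun c => by rw [zsmul_val]; exact h _) (fun c => by rw [zsmul_val]; exact h' _) n

/-- All triple products with conjugates are short. -/
theorem triple {a : E} (ha : a * a = 0) {l : ℕ} (h : ∀ n : ℕ, Sh ρ S l (n • a)) (x : G) :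
    Sh ρ S (Λ * ((2 * Λ + l) * Λ ^ 1029)) (a * cj ρ a x * a) := by
  refine (C.span (fun L z => Sh ρ S L z ∧ ∃ y, z = a * y * a)
    (fun _ _ _ hab h => ⟨h.1.mono hab, h.2⟩) ⟨Sh.zero 0, 0, by simp⟩ ?_
    {z | ∃ g, Len S Λ g ∧ z = a * cj ρ a g * a} _ ?_ fun θ hθ => ?_).1
  · rintro _ _ _ _ ⟨h1, y, rfl⟩ ⟨h2, y', rfl⟩
    refine ⟨h1.add h2 ?_, y + y', by noncomm_ring⟩
    rw [show a * y * a * (a * y' * a) = a * y * (a * a) * y' * a by noncomm_ring, ha]
    simp
  · rintro n _ ⟨g, hg, rfl⟩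
    refine ⟨C.round₂ ha (cj_sq ha g) (fun n => (h n).mono (by omega)) (fun n => ?_) n,
      n • cj ρ a g, by rw [mul_smul_comm, smul_mul_assoc]⟩
    simpa only [cj, mul_smul_comm, smul_mul_assoc] using (h n).conj hg
  · obtain ⟨g, h1, h2⟩ := C.esc (θ.comp ((AddMonoidHom.mulRight a).comp (AddMonoidHom.mulLeft a))) hθ
    exact ⟨_, ⟨g, h1, rfl⟩, h2⟩

end Ctx

/-- From one quadratic element to a quadratic element with all multiples short. -/
theorem Ctx.boost {V : Type*} [AddCommGroup V] [Module F V] {ρ : G →* End F V}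
    (C : Ctx F ρ S p Λ) {a : End F V} (ha : a * a = 0) {l : ℕ} (h : Sh ρ S l a) {x : G}
    (hx : LinearMap.trace F V (a * cj ρ a x) ≠ 0) :
    ∃ a' : End F V, a' ≠ 0 ∧ a' * a' = 0 ∧ ∀ n : ℕ, Sh ρ S ((2 * Λ + l) * Λ ^ 1028) (n • a') := by
  obtain ⟨g, g1, g2⟩ := C.esc ((LinearMap.trace F V).toAddMonoidHom.comp (AddMonoidHom.mulLeft a)) hx
  have hb := cj_sq (ρ := ρ) ha g
  obtain ⟨D, hD⟩ := C.round₁ ha hb (h.mono (show l ≤ 2 * Λ + l by omega)) (h.conj g1)
  change LinearMap.trace F V (a * cj ρ a g) ≠ 0 at g2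
  generalize cj ρ a g = b at hb hD g2
  have ca : Commute a (a * b + b * a) := by
    simp only [Commute, SemiconjBy, mul_add, add_mul, ← mul_assoc, ha]; simp [mul_assoc, ha]
  have cb : Commute b (a * b + b * a) := by
    simp only [Commute, SemiconjBy, mul_add, add_mul, ← mul_assoc, hb]; simp [mul_assoc, hb]
  refine ⟨_, fun h0 => g2 ?_, ?_, hD⟩
  · have : IsNilpotent (a * b + b * a) := ⟨D + 1, by
      rw [pow_succ, mul_add, ← mul_assoc, h0, ← mul_assoc, ← (cb.pow_right D).eq, mul_assoc b, h0]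
      simp⟩
    have := (LinearMap.isNilpotent_trace_of_isNilpotent this).eq_zero
    rw [map_add, LinearMap.trace_mul_comm F b, ← two_mul] at this
    exact (mul_eq_zero.1 this).resolve_left C.two_ne
  · rw [mul_assoc, ← mul_assoc a, (ca.pow_right D).eq, mul_assoc, ha]
    simp

end Pool.Agent.P.MP_bed792_al.Q
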