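import Pool.Agent.P.MP_bed792_al.Q.Grp
import Pool.Agent.P.MP_bed792_al.Lin

set_option autoImplicit false
set_option linter.unusedSectionVars false
set_option linter.unusedSimpArgs false

open Module

namespace Pool.Agent.P.MP_bed792_al.Q

variable {G F E : Type*} [Group G] [Field F] [Ring E] [Algebra F E] {ρ : G →* E} {S : Set G}
  {p Λ l : ℕ} {K : Subfield F} {a b : E}

/-- Two opposite quadratic elements. -/
structure Opp (a b : E) : Prop where
  aa : a * a = 0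
  bb : b * b = 0
  aba : a * (b * a) = a
  bab : b * (a * b) = b

theorem Opp.aa' (h : Opp a b) (x : E) : a * (a * x) = 0 := by rw [← mul_assoc, h.aa, zero_mul]
theorem Opp.bb' (h : Opp a b) (x : E) : b * (b * x) = 0 := by rw [← mul_assoc, h.bb, zero_mul]
theorem Opp.aba' (h : Opp a b) (x : E) : a * (b * (a * x)) = a * x := by
  rw [← mul_assoc b, ← mul_assoc, h.aba]
theorem Opp.bab' (h : Opp a b) (x : E) : b * (a * (b * x)) = b * x := by
  rw [← mul_assoc a, ← mul_assoc, h.bab]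

theorem Sh.congr {L : ℕ} {x y : E} (h : Sh ρ S L x) (e : x = y) : Sh ρ S L y := e ▸ h

theorem Opp.weyl (h : Opp a b) (ha : ∀ c ∈ K, Sh ρ S l (c • a)) (hb : ∀ c ∈ K, Sh ρ S l (c • b))
    {c : F} (hc : c ∈ K) (h0 : c ≠ 0) :
    Sh ρ S (3 * l) (c • a - c⁻¹ • b - a * b - b * a) := by
  refine ((((ha c hc).mul (hb _ (K.neg_mem (K.inv_mem hc)))).mul (ha c hc)).mono (by omega)).congr ?_
  simp only [mul_add, add_mul, smul_mul_assoc, mul_smul_comm, mul_assoc, h.aa, h.aba, smul_zero]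
  match_scalars <;> field_simp <;> ring

theorem Opp.torus (h : Opp a b) (ha : ∀ c ∈ K, Sh ρ S l (c • a)) (hb : ∀ c ∈ K, Sh ρ S l (c • b))
    {c : F} (hc : c ∈ K) (h0 : c ≠ 0) :
    Sh ρ S (6 * l) ((c - 1) • (a * b) + (c⁻¹ - 1) • (b * a)) := by
  refine (((h.weyl ha hb hc h0).mul (h.weyl ha hb (K.neg_mem K.one_mem) (by simp))).mono
    (by omega)).congr ?_
  simp only [mul_sub, sub_mul, smul_mul_assoc, mul_smul_comm, mul_assoc, h.aa, h.bb, h.aba, h.bab,
    h.aa', h.bb', h.aba', h.bab', smul_zero, mul_zero]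
  match_scalars <;> field_simp <;> ring

theorem opp_of (ha : a * a = 0) (h0 : a ≠ 0) (hex : ∀ x, ∃ κ ∈ K, a * cj ρ a x * a = κ • a) {g : G}
    (hg : a * cj ρ a g * a ≠ 0) : ∃ κ ∈ K, κ ≠ 0 ∧ Opp a (κ⁻¹ • cj ρ a g) := by
  obtain ⟨κ, k1, k2⟩ := hex g
  obtain ⟨κ', -, k3⟩ := hex g⁻¹
  have k0 : κ ≠ 0 := by rintro rfl; simp [k2] at hg
  have k4 : cj ρ a g * a * cj ρ a g = κ' • cj ρ a g := by
    have := congrArg (fun z => cj ρ z g) k3
    simp only [← cj_mul_cj, ← cj_mul, mul_inv_cancel, cj_one, cj_smul] at this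
    exact this
  generalize hb : cj ρ a g = b at k2 k4 hg
  have k5 : κ' = κ := by
    have e1 : a * (b * a * b) * a = κ • (κ • a) := by
      rw [show a * (b * a * b) * a = (a * b * a) * b * a by noncomm_ring, k2, smul_mul_assoc,
        smul_mul_assoc, k2]
    rw [k4, mul_smul_comm, smul_mul_assoc, k2] at e1
    exact smul_left_injective F (smul_ne_zero k0 h0) e1
  refine ⟨κ, k1, k0, ha, ?_, ?_, ?_⟩
  · rw [smul_mul_assoc, mul_smul_comm, ← hb, cj_sq ha]; simp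
  · rw [smul_mul_assoc, mul_smul_comm, ← mul_assoc, k2, smul_smul, inv_mul_cancel₀ k0, one_smul]
  · rw [smul_mul_assoc, mul_smul_comm, mul_smul_comm, ← mul_assoc, k4, k5, smul_smul κ⁻¹ κ,
      inv_mul_cancel₀ k0, one_smul]

/-- `1 + N` lies in the unipotent radical attached to `a`. -/
structure QQ (a N : E) : Prop where
  l : N * a = 0
  r : a * N = 0
  m : ∀ r s, r * a = 0 → a * s = 0 → r * N * s = 0

theorem QQ.add {N N' : E} (h : QQ a N) (h' : QQ a N') : QQ a (N + N') :=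
  ⟨by simp [add_mul, h.l, h'.l], by simp [mul_add, h.r, h'.r],
    fun r s h1 h2 => by simp [mul_add, add_mul, h.m r s h1 h2, h'.m r s h1 h2]⟩

theorem QQ.mul_eq {N N' : E} (o : Opp a b) (h : QQ a N) (h' : QQ a N') :
    N * N' = a * (b * (N * N') * b) * a := by
  have e1 : (1 - a * b - b * a) * a = 0 := by simp [sub_mul, mul_assoc, o.aa, o.aba]
  have e2 : a * (1 - a * b - b * a) = 0 := by simp [mul_sub, o.aa', o.aba]
  have k1 := h.m _ N' e1 h'.r
  have k2 := h'.m (a * b * N) _ (by rw [mul_assoc, h.l, mul_zero]) e2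
  have l1 : ∀ x, a * (N * x) = 0 := fun x => by rw [← mul_assoc, h.r, zero_mul]
  have l2 : ∀ x, N' * (a * x) = 0 := fun x => by rw [← mul_assoc, h'.l, zero_mul]
  simp only [mul_sub, sub_mul, mul_assoc, one_mul, mul_one, l1, l2, mul_zero, sub_zero] at k1 k2 ⊢
  rw [← sub_eq_zero.1 k2, ← sub_eq_zero.1 k1]

theorem Ctx.heis (C : Ctx F ρ S p Λ) (ha : a * a = 0) (h0 : a ≠ 0)
    (hex : ∀ x, ∃ κ ∈ K, a * cj ρ a x * a = κ • a) (hs : ∀ c ∈ K, Sh ρ S l (c • a)) {x₀ : G}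
    (hx₀ : a * cj ρ a x₀ * a ≠ 0) (hZ : ∀ g y, ρ g = 1 + a * y * a → ∃ c ∈ K, a * y * a = c • a)
    {q : G} {N : E} (hq : ρ q = 1 + N) (hN : QQ a N) :
    Sh ρ S (Λ * (24 * (2 * (Λ * Λ) + l)) + l) N := by
  obtain ⟨τ, -, hτ⟩ := exists_fun (X := (⊥ : Submodule F E)) (y := a) (by simpa using h0)
  let θ₂ : E →+ F := τ.toAddMonoidHom.comp ((AddMonoidHom.mulRight a).comp (AddMonoidHom.mulLeft a))
  have t2 : ∀ y, θ₂ y = τ (a * y * a) := fun _ => rfl
  obtain ⟨x₁, x1, x2⟩ := C.esc θ₂ (a := a) (x := x₀) (by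
    obtain ⟨κ, -, k⟩ := hex x₀
    rw [t2, k, map_smul, hτ, smul_eq_mul, mul_one]
    rintro rfl
    simp [k] at hx₀)
  obtain ⟨κ₀, k1, k2, o⟩ := opp_of ha h0 hex (g := x₁) fun h => x2 (by rw [t2, h, map_zero])
  have hΛ : Λ ≤ Λ * Λ := Nat.le_mul_self _
  have sb : ∀ {g : G} {κ : F}, Len S (Λ * Λ) g → κ ∈ K → ∀ c ∈ K,
      Sh ρ S (2 * (Λ * Λ) + l) (c • κ⁻¹ • cj ρ a g) := fun hg hκ c hc => by
    rw [smul_smul, ← cj_smul]
    exact (hs _ (K.mul_mem hc (K.inv_mem hκ))).conj hg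
  have sa : ∀ c ∈ K, Sh ρ S (2 * (Λ * Λ) + l) (c • a) := fun c hc => (hs c hc).mono (by omega)
  have sb₀ := sb (x1.mono hΛ) k1
  have eb : cj ρ a x₁ = κ₀ • κ₀⁻¹ • cj ρ a x₁ := by rw [smul_smul, mul_inv_cancel₀ k2, one_smul]
  generalize κ₀⁻¹ • cj ρ a x₁ = b at o sb₀ eb
  generalize 2 * (Λ * Λ) + l = L at sa sb sb₀ ⊢
  obtain ⟨e, he⟩ : ∃ e, e = 1 - a * b - b * a := ⟨_, rfl⟩
  have e1 : e * a = 0 := by simp [he, sub_mul, mul_assoc, o.aa, o.aba]
  have e2 : a * e = 0 := by simp [he, mul_sub, o.aa', o.aba]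
  have e1' : ∀ x, e * (a * x) = 0 := fun x => by rw [← mul_assoc, e1, zero_mul]
  have e2' : ∀ x, a * (e * x) = 0 := fun x => by rw [← mul_assoc, e2, zero_mul]
  let d : E →ₗ[F] E := LinearMap.mulRight F e ∘ₗ LinearMap.mulLeft F a -
    LinearMap.mulRight F a ∘ₗ LinearMap.mulLeft F e
  have hd : ∀ y, d y = a * y * e - e * y * a := fun _ => rfl
  have dQ : ∀ y, QQ a (d y) := fun y =>
    ⟨by simp [hd, sub_mul, mul_assoc, e1, o.aa], by simp [hd, mul_sub, mul_assoc, e2', o.aa'],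
      fun r s h1 h2 => by
        rw [hd, show r * (a * y * e - e * y * a) * s = (r * a) * y * e * s - r * e * y * (a * s) by
          noncomm_ring, h1, h2]
        simp⟩
  let R : ℕ → E → Prop := fun j z => QQ a z ∧ ∃ y, Sh ρ S j (z + a * y * a)
  have Radd : ∀ i j z w, R i z → R j w → R (i + j) (z + w) := by
    rintro i j z w ⟨h1, y, h2⟩ ⟨h3, y', h4⟩
    refine ⟨h1.add h3, y + y' + b * (z * w) * b, (h2.mul h4).congr ?_⟩
    have l1 : ∀ x, z * (a * x) = 0 := fun x => by rw [← mul_assoc, h1.l, zero_mul]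
    rw [mul_add a, add_mul _ _ a, ← h1.mul_eq o h3]
    simp only [mul_add, add_mul, mul_assoc, l1, h3.r, o.aa', mul_zero]
    abel
  have R1 : ∀ b', Opp a b' → (∀ c ∈ K, Sh ρ S L (c • b')) → ∀ c ∈ K, c + 1 ≠ 0 →
      R (12 * L) (d (c • b')) := fun b' o' sb' c hc hc0 => by
    have hc1 := K.add_mem hc K.one_mem
    refine ⟨dQ _, c • (b' * b - b * b') + c ^ 2 • (b' * b), (((o'.torus sa sb' hc1 hc0).mul
      (o.torus sa sb₀ (K.inv_mem hc1) (inv_ne_zero hc0))).mono (by omega)).congr ?_⟩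
    simp only [hd, he, mul_add, add_mul, mul_sub, sub_mul, smul_mul_assoc, mul_smul_comm, mul_assoc,
      o.aa', o.aba, o'.aba, o'.aba', smul_zero, mul_zero, one_mul, mul_one]
    match_scalars <;> field_simp <;> ring
  have R2 : ∀ g, Len S (Λ * Λ) g → a * cj ρ a g * a ≠ 0 → ∀ c ∈ K,
      R (24 * L) (d (c • cj ρ a g)) := fun g g1 g2 c hc => by
    obtain ⟨κ, a1, a2, o'⟩ := opp_of ha h0 hex g2
    have := R1 _ o' (sb g1 a1)
    rw [show c • cj ρ a g = (c * κ) • κ⁻¹ • cj ρ a g by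
      rw [smul_smul, mul_assoc, mul_inv_cancel₀ a2, mul_one]]
    by_cases h : c * κ + 1 = 0
    · have k := Radd _ _ _ _ (this 1 K.one_mem (by rw [one_add_one_eq_two]; exact C.two_ne))
        (this (-(1 + 1)) (K.neg_mem (K.add_mem K.one_mem K.one_mem)) (by simp))
      rw [← map_add, ← add_smul, show (1 : F) + -(1 + 1) = c * κ by linear_combination -h] at k
      exact ⟨k.1, k.2.imp fun _ k => k.mono (by omega)⟩
    · have k := this _ (K.mul_mem hc a1) h
      exact ⟨k.1, k.2.imp fun _ k => k.mono (by omega)⟩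
  obtain ⟨-, y, g, g1, g2⟩ := C.span R (fun _ _ _ hab h => ⟨h.1, h.2.imp fun _ k => k.mono hab⟩)
    ⟨by simpa using dQ 0, 0, by simpa using Sh.zero 0⟩ Radd
    ({z | ∃ y, z = a * y * a} ∪ {z | ∃ g, Len S (Λ * Λ) g ∧ a * cj ρ a g * a ≠ 0 ∧
      z = d (κ₀⁻¹ • cj ρ a g)}) (24 * L) (by
      rintro n _ (⟨y, rfl⟩ | ⟨g, g1, g2, rfl⟩)
      · rw [← smul_mul_assoc, ← mul_smul_comm]
        exact ⟨⟨by simp [mul_assoc, o.aa], by simp only [mul_assoc, o.aa'], fun r s h1 _ => by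
          simp only [← mul_assoc, h1, zero_mul]⟩, -(n • y), by simpa using Sh.zero _⟩
      · rw [← map_nsmul, ← Nat.cast_smul_eq_nsmul F, smul_smul]
        exact R2 g g1 g2 _ (K.mul_mem (natCast_mem K n) (K.inv_mem k1))) (z := N) (by
      intro θ hθ
      by_cases h : ∃ y, θ (a * y * a) ≠ 0
      · obtain ⟨y, hy⟩ := h
        exact ⟨_, Or.inl ⟨y, rfl⟩, hy⟩
      push Not at h
      have q1 : a * ρ q = a := by rw [hq, mul_add, hN.r, mul_one, add_zero]
      have q2 : ρ q⁻¹ * a = a := by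
        conv_lhs => rw [show a = ρ q * a by rw [hq, add_mul, hN.l, one_mul, add_zero], ← mul_assoc,
          rho_inv_mul, one_mul]
      have n1 : N * e = a * (b * (N * e)) := by
        have := hN.m (1 - a * b - b * a) e (he ▸ e1) e2
        rwa [mul_assoc, sub_mul, sub_mul, one_mul, mul_assoc b, ← mul_assoc a N, hN.r, zero_mul,
          mul_zero, sub_zero, sub_eq_zero, mul_assoc] at this
      have q3 : ρ q⁻¹ * e = e - N * e := by
        have := congrArg (· * e) (rho_inv_mul ρ q)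
        simp only [hq, mul_add, add_mul, mul_one, one_mul, mul_assoc] at this
        rw [n1, ← mul_assoc _ a, q2, ← n1] at this
        exact eq_sub_of_add_eq this
      have q4 : κ₀⁻¹ • cj ρ a (q * x₁) = ρ q * b * ρ q⁻¹ := by
        rw [cj_mul, eb, cj_smul, smul_smul, inv_mul_cancel₀ k2, one_smul, cj]
      have q5 : d (ρ q * b * ρ q⁻¹) = a * (b * N * b) * a - N := by
        have l1 : ∀ x, N * (a * x) = 0 := fun x => by rw [← mul_assoc, hN.l, zero_mul]
        have l2 : ∀ x, a * (N * x) = 0 := fun x => by rw [← mul_assoc, hN.r, zero_mul]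
        rw [hd, ← mul_assoc, ← mul_assoc, q1, mul_assoc _ _ e, q3, mul_assoc e, mul_assoc _ _ a, q2,
          mul_sub, mul_assoc a b (N * e), ← n1, hq]
        simp only [he, mul_add, add_mul, mul_sub, sub_mul, mul_assoc, one_mul, mul_one, l1, l2,
          o.bb', o.bab, o.aba, mul_zero]
        abel
      obtain ⟨g, g1, g2, g3⟩ := C.esc₂ (θ.comp (d ∘ₗ LinearMap.lsmul F E κ₀⁻¹).toAddMonoidHom) θ₂
        (a := a) (x := q * x₁) (by
          change θ (d (κ₀⁻¹ • _)) ≠ 0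
          rw [q4, q5, map_sub, h]
          simpa using hθ) (by
          rw [t2, cj_mul, eb, cj_smul, cj, mul_smul_comm, smul_mul_assoc, ← mul_assoc, ← mul_assoc, q1,
            mul_assoc _ _ a, q2, mul_assoc, o.aba, map_smul, hτ]
          simpa using k2)
      exact ⟨_, Or.inr ⟨g, g1, fun h => g3 (by rw [t2, h, map_zero]), rfl⟩, g2⟩)
  have f1 : (1 + (N + a * y * a)) * (1 + a * -y * a) = 1 + N := by
    have l1 : ∀ x, N * (a * x) = 0 := fun x => by rw [← mul_assoc, hN.l, zero_mul]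
    simp only [mul_add, add_mul, mul_assoc, one_mul, mul_one, l1, o.aa', mul_zero, neg_mul, mul_neg]
    abel
  have f2 : ρ (g⁻¹ * q) = 1 + a * -y * a := by
    rw [map_mul, hq, ← f1, ← g2, ← mul_assoc, rho_inv_mul, one_mul]
  obtain ⟨c, c1, c2⟩ := hZ _ _ f2
  obtain ⟨u, u1, u2⟩ := hs c c1
  exact ⟨g * u, g1.mul u1, by rw [map_mul, g2, u2, ← c2, f1]⟩

end Pool.Agent.P.MP_bed792_al.Q
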