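import Pool.Agent.P.MP_bed792_al.Q.Loc
import Pool.Agent.P.MP_bed792_al.Q.Field

set_option autoImplicit false
set_option exponentiation.threshold 1100

open Polynomial

namespace Pool.Agent.P.MP_bed792_al.Q

open S2

variable {p : ℕ} [Fact p.Prime] {M f m : (ZMod p)[X]} {Λ : ℕ}

theorem deg_le (hp : 5 ≤ p) (hM : M ≠ 0) (hΛ : p ^ M.natDegree ≤ 2 ^ Λ) (hm : m ∣ M) :
    m.natDegree ≤ Λ :=
  (natDegree_le_of_dvd hm hM).trans ((Nat.pow_le_pow_iff_right (by norm_num)).1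
    ((Nat.pow_le_pow_left (show 2 ≤ p by omega) _).trans hΛ))

theorem exists_res (hp : 5 ≤ p) (hM : M ≠ 0) (h2 : 2 ≤ Λ) (hΛ : p ^ M.natDegree ≤ 2 ^ Λ)
    (hf : Irreducible f) (hfM : f ∣ M) (hX : ¬ f ∣ X) :
    ∃ (K : Type) (_ : Field K) (π : (ZMod p)[X] →+* K), (∀ r, π r = 0 ↔ f ∣ r) ∧ (2 : K) ≠ 0 ∧
      (3 : K) ≠ 0 ∧ ∀ x, Len {Eu 1, El (π X)} (Λ ^ 1001) x := by
  have : Fact (Irreducible f) := ⟨hf⟩
  have hπ : ∀ r, AdjoinRoot.mk f r = 0 ↔ f ∣ r := fun _ => AdjoinRoot.mk_eq_zero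
  have k2 : (2 : AdjoinRoot f) ≠ 0 := by
    simpa using (unit_of_lt (AdjoinRoot.mk f) (n := 2) (by omega) (by omega)).ne_zero
  have k3 : (3 : AdjoinRoot f) ≠ 0 := by
    simpa using (unit_of_lt (AdjoinRoot.mk f) (n := 3) (by omega) (by omega)).ne_zero
  have := (AdjoinRoot.powerBasis hf.ne_zero).finite
  have : Finite (AdjoinRoot f) := Module.finite_of_finite (ZMod p)
  refine ⟨AdjoinRoot f, inferInstance, AdjoinRoot.mk f, hπ, k2, k3,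
    field_diam k2 k3 _ AdjoinRoot.mk_surjective (by rwa [Ne, hπ]) h2 ?_⟩
  rw [Module.natCard_eq_pow_finrank (K := ZMod p), (AdjoinRoot.powerBasis hf.ne_zero).finrank,
    AdjoinRoot.powerBasis_dim, Nat.card_zmod]
  exact (Nat.pow_le_pow_right (by omega) (natDegree_le_of_dvd hfM hM)).trans hΛ

theorem prime_pow (hp : 5 ≤ p) (hM : M ≠ 0) (h2 : 2 ≤ Λ) (hΛ : p ^ M.natDegree ≤ 2 ^ Λ)
    (hf : Irreducible f) (hfM : f ∣ M) (hX : ¬ f ∣ X) (hm : m ∣ M) (hfm : ¬ f ∣ m) {k : ℕ}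
    (hk : k ≤ Λ) (g : S2 (ZMod p)[X]) :
    ∃ W, Len (T₀ p) (Λ ^ 1027) W ∧ W ∈ Kn m ∧ W⁻¹ * g ∈ Kn (f ^ k) := by
  obtain ⟨K, _, π, hπ, k2, k3, hL⟩ := exists_res hp hM h2 hΛ hf hfM hX
  have hX' : π X ≠ 0 := by rwa [Ne, hπ]
  obtain ⟨L, hL'⟩ : ∃ L, L = Λ ^ 1001 := ⟨_, rfl⟩
  have L1 : 1 ≤ L := hL' ▸ Nat.one_le_pow _ _ (by omega)
  have G1 : ∀ g, Irreducible g → g ∣ m → Good π g (3 * L) := fun g hg hgm => by
    by_cases h : g ∣ X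
    · exact (good_X hX' h).mono (by omega) dvd_rfl
    obtain ⟨K', _, π', hπ', -, -, hL2⟩ := exists_res hp hM h2 hΛ hg (hgm.trans hm) h
    obtain ⟨w, a1, a2, a3⟩ := rigid_short π' π sq_field (IsUnit.mk0 _ k2) (IsUnit.mk0 _ hX') hL2
      ((hπ' g).2 dvd_rfl) (fun h => hfm
        ((hf.associated_of_dvd hg ((hπ g).1 h)).dvd.trans hgm))
    exact ⟨w, a1.mono (by omega), (mem_Kn' hπ').2 a2, a3⟩
  rw [← hL'] at hL
  have a3 : 8 ≤ Λ ^ 3 := Nat.pow_le_pow_left h2 3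
  have G2 : Good π m (Λ ^ 3 * (3 * L)) := by
    obtain ⟨l, b1, b2, b3⟩ := exists_list (ne_zero_of_dvd_ne_zero hM hm)
    rcases Nat.eq_zero_or_pos l.length with h | h
    · rw [List.length_eq_zero_iff.1 h] at b2
      exact (good_X hX' (one_dvd X)).mono (by nlinarith) b2
    · exact (good_list k2 k3 hL (by omega) _ l rfl h fun g hg => G1 g (b1 g hg).1 (b1 g hg).2).mono
        (Nat.mul_le_mul_right _ (Nat.pow_le_pow_left (b3.trans (deg_le hp hM hΛ hm)) 3)) b2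
  obtain ⟨L₁, hL₁⟩ : ∃ L₁, L₁ = Λ ^ 3 * (3 * L) := ⟨_, rfl⟩
  have L2 : 3 * L ≤ L₁ := by nlinarith
  rw [← hL₁] at G2
  have h0 := G2.lev₀ k2 k3 fun x => (hL x).mono (by omega)
  obtain ⟨v, x, y, z, c1, c2, c3⟩ := exists_lv hp hf hπ hX' hL
  have h1 := lev_one k2 ((hπ f).2 dvd_rfl) (fun x => (hL x).mono (by omega)) h0
    (c1.mono (by omega)) c2 c3
  obtain ⟨W, d1, d2, d3⟩ := h0 (map π g)
  obtain ⟨V, e1, e2, e3⟩ := h1.approx k2 hf.ne_zero hπ (g := W⁻¹ * g)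
    ((mem_Kn' hπ).2 (by simp [d3])) k
  refine ⟨W * V, (d1.mul e1).mono ?_, (Kn m).mul_mem d2 e2,
    Kn_mono (pow_dvd_pow f k.le_succ) (by rwa [mul_inv_rev, mul_assoc])⟩
  have n1 : k ^ 5 ≤ Λ ^ 5 := Nat.pow_le_pow_left hk 5
  have n2 : 1 ≤ Λ ^ 5 := Nat.one_le_pow _ _ (by omega)
  have n3 : 2 ^ 18 ≤ Λ ^ 18 := Nat.pow_le_pow_left h2 _
  calc 96 * L₁ + k ^ 5 * (100 * (96 * L₁)) ≤ Λ ^ 5 * (96 * L₁) + Λ ^ 5 * (100 * (96 * L₁)) :=
        Nat.add_le_add (Nat.le_mul_of_pos_left _ n2) (Nat.mul_le_mul_right _ n1)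
    _ = 29088 * (Λ ^ 8 * L) := by rw [hL₁]; ring
    _ ≤ Λ ^ 18 * (Λ ^ 8 * L) := Nat.mul_le_mul_right _ (by omega)
    _ = _ := by rw [hL', ← pow_add, ← pow_add]

theorem approx_cop (hp : 5 ≤ p) (hM : M ≠ 0) (h2 : 2 ≤ Λ) (hΛ : p ^ M.natDegree ≤ 2 ^ Λ)
    (N : (ZMod p)[X]) : ¬ X ∣ N → ∀ m, IsCoprime N m → N * m ∣ M → ∀ g : S2 (ZMod p)[X],
      ∃ W, Len (T₀ p) (N.natDegree * Λ ^ 1027) W ∧ W ∈ Kn m ∧ W⁻¹ * g ∈ Kn N := by
  induction N using UniqueFactorizationMonoid.induction_on_coprime with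
  | h0 => intro h; simp at h
  | h1 hx => exact fun _ m _ _ g => ⟨1, Len.one _ _, (Kn m).one_mem, Kn_unit hx _⟩
  | @hpr f i hf =>
    intro hX m hc hd g
    rcases Nat.eq_zero_or_pos i with rfl | hi
    · exact ⟨1, Len.one _ _, (Kn m).one_mem, Kn_unit (by simp) _⟩
    have h1 : f ∣ f ^ i := dvd_pow_self f hi.ne'
    have h3 := hf.irreducible.natDegree_pos
    have h4 := deg_le hp hM hΛ ((dvd_mul_right _ _).trans hd)
    rw [natDegree_pow] at h4 ⊢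
    obtain ⟨W, k1, k2⟩ := prime_pow hp hM h2 hΛ hf.irreducible (h1.trans ((dvd_mul_right _ _).trans hd))
      (fun h => hX ((hf.irreducible.associated_of_dvd irreducible_X h).symm.dvd.trans h1))
      ((dvd_mul_left _ _).trans hd) (fun h => hf.not_isUnit (hc.isUnit_of_dvd' h1 h))
      (k := i) (by nlinarith) g
    exact ⟨W, k1.mono (Nat.le_mul_of_pos_left _ (by positivity)), k2⟩
  | @hcp x y hxy ihx ihy =>
    intro hX m hc hd g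
    have hxy' : IsCoprime x y := isRelPrime_iff_isCoprime.1 hxy
    obtain ⟨W, a1, a2, a3⟩ := ihx (fun h => hX (h.mul_right _)) (y * m)
      (hxy'.mul_right hc.of_mul_left_left) (by rwa [← mul_assoc]) g
    obtain ⟨V, b1, b2, b3⟩ := ihy (fun h => hX (h.mul_left _)) (x * m)
      (hxy'.symm.mul_right hc.of_mul_left_right) (by rwa [mul_left_comm, ← mul_assoc]) g
    have h0 : x * y ≠ 0 := fun h => hX (h ▸ dvd_zero _)
    refine ⟨W * V, ?_, (Kn m).mul_mem (Kn_mono (dvd_mul_left _ _) a2) (Kn_mono (dvd_mul_left _ _) b2),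
      Kn_coprime hxy' ?_ ?_⟩
    · rw [natDegree_mul (left_ne_zero_of_mul h0) (right_ne_zero_of_mul h0), add_mul]
      exact a1.mul b1
    · rw [mul_inv_rev, mul_assoc]
      exact (Kn x).mul_mem ((Kn x).inv_mem (Kn_mono (dvd_mul_right _ _) b2)) a3
    · have := (Kn y).mul_mem (Kn_conj ((Kn y).inv_mem (Kn_mono (dvd_mul_right _ _) a2)) V⁻¹) b3
      rwa [show V⁻¹ * W⁻¹ * V⁻¹⁻¹ * (V⁻¹ * g) = (W * V)⁻¹ * g by group] at this

theorem approx_split (hp : 5 ≤ p) (hM : M ≠ 0) (h2 : 2 ≤ Λ) (hΛ : p ^ M.natDegree ≤ 2 ^ Λ)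
    {g : S2 (ZMod p)[X]} (hg : g ∈ Kn (X ^ M.natDegree)) :
    ∃ W, Len (T₀ p) (Λ ^ 1028) W ∧ W⁻¹ * g ∈ Kn M := by
  obtain ⟨N, e, hN⟩ := exists_eq_pow_rootMultiplicity_mul_and_not_dvd M hM 0
  rw [C_0, sub_zero] at e hN
  generalize rootMultiplicity 0 M = k at e
  have hc : IsCoprime N (X ^ k) :=
    ((irreducible_X.isCoprime_or_dvd N).resolve_right hN).symm.pow_right
  obtain ⟨W, a1, a2, a3⟩ := approx_cop hp hM h2 hΛ N hN _ hc (by rw [e, mul_comm]) g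
  have hk : k ≤ M.natDegree := by
    simpa using natDegree_le_of_dvd (show (X : (ZMod p)[X]) ^ k ∣ M from ⟨N, e⟩) hM
  refine ⟨W, a1.mono ?_, ?_⟩
  · rw [pow_succ' Λ 1027]
    exact Nat.mul_le_mul_right _ (deg_le hp hM hΛ ⟨X ^ k, by rw [e, mul_comm]⟩)
  · rw [e, mul_comm]
    exact Kn_coprime hc a3 ((Kn _).mul_mem ((Kn _).inv_mem a2) (Kn_mono (pow_dvd_pow _ hk) hg))

/-- The generators with all scalar multiples. -/
def T₁ (p : ℕ) : Set (S2 (ZMod p)[X]) := {g | ∃ c : ZMod p, g = Eu (C c) ∨ g = El (C c * X)}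

theorem lev_X (hp : 5 ≤ p) : Lev (constantCoeff : (ZMod p)[X] →+* ZMod p) (T₁ p) 1 X 7 := by
  have h2 : (2 : ZMod p) ≠ 0 := by
    simpa using (unit_of_lt (constantCoeff : (ZMod p)[X] →+* ZMod p) (n := 2) (by omega)
      (by omega)).ne_zero
  have a1 : ∀ c : ZMod p, Len (T₁ p) 1 (El (C c * X)) := fun c => Len.of_mem (Or.inl ⟨c, Or.inr rfl⟩)
  have a2 : ∀ c : ZMod p, Len (T₁ p) 1 (Eu (C c)) := fun c => Len.of_mem (Or.inl ⟨c, Or.inl rfl⟩)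
  have a3 : ∀ c : ZMod p, Lv (constantCoeff : (ZMod p)[X] →+* ZMod p) X (El (C c * X)) 0 0 c :=
    fun c => ⟨0, 0, C c, 0, by simp, by simp, mul_comm _ _, by simp, by simp, by simp, by simp,
      by simp⟩
  intro x y z
  refine ⟨_, (((a2 1).conj (a1 ((x - y) / 2))).mul ((a2 (-1)).conj (a1 ((-x - y) / 2)))).mul
    (a1 (z + y)), Kn_unit isUnit_one _, ((((a3 _).conj rfl).mul ((a3 _).conj rfl) (by simp)).mul
    (a3 _) (by simp)).congr ?_ ?_ ?_⟩ <;> simp <;> field_simp <;> ring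

theorem approx_all (hp : 5 ≤ p) (hM : M ≠ 0) (h2 : 2 ≤ Λ) (hΛ : p ^ M.natDegree ≤ 2 ^ Λ)
    {g : S2 (ZMod p)[X]} (hg : g ∈ Kn X) :
    ∃ W, Len (T₁ p) (Λ ^ 1029) W ∧ W⁻¹ * g ∈ Kn M := by
  have k2 : (2 : ZMod p) ≠ 0 := by
    simpa using (unit_of_lt (constantCoeff : (ZMod p)[X] →+* ZMod p) (n := 2) (by omega)
      (by omega)).ne_zero
  obtain ⟨W, a1, -, a2⟩ := (lev_X hp).approx k2 X_ne_zero (fun r => X_dvd_iff.symm) hg M.natDegree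
  obtain ⟨V, b1, b2⟩ := approx_split hp hM h2 hΛ (Kn_mono (pow_dvd_pow _ (Nat.le_succ _)) a2)
  have b3 : Len (T₁ p) (Λ ^ 1028) V := len_map (MonoidHom.id _) (by
    rintro _ (rfl | rfl)
    · exact ⟨1, Or.inl (by simp)⟩
    · exact ⟨1, Or.inr (by simp)⟩) b1
  refine ⟨W * V, (a1.mul b3).mono ?_, by rwa [mul_inv_rev, mul_assoc]⟩
  have n1 : M.natDegree ^ 5 ≤ Λ ^ 5 := Nat.pow_le_pow_left (deg_le hp hM hΛ dvd_rfl) 5
  have n2 : 2 ^ 3 ≤ Λ ^ 3 := Nat.pow_le_pow_left h2 _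
  have n3 : Λ ^ 5 * Λ ^ 3 ≤ Λ ^ 1028 := by
    rw [← pow_add]; exact Nat.pow_le_pow_right (by omega) (by norm_num)
  rw [pow_succ Λ 1028]
  generalize Λ ^ 1028 = U at *
  nlinarith [Nat.mul_le_mul n1 n2, Nat.mul_le_mul_left U h2]

end Pool.Agent.P.MP_bed792_al.Q
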