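import Pool.Agent.P.MP_bed792_al.Q.S2

set_option autoImplicit false

namespace Pool.Agent.P.MP_bed792_al.Q

open S2

variable {R k : Type*} [CommRing R] [Field k]

/-- The principal congruence subgroup. -/
def Kn (m : R) : Subgroup (S2 R) := (map (Ideal.Quotient.mk (Ideal.span {m}))).ker

instance (m : R) : (Kn m).Normal := MonoidHom.normal_ker _

theorem map_eq_one {R' : Type*} [CommRing R'] {π : R →+* R'} {f : R} (hπ : ∀ r, π r = 0 ↔ f ∣ r)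
    {g : S2 R} : map π g = 1 ↔ f ∣ g.a - 1 ∧ f ∣ g.b ∧ f ∣ g.c ∧ f ∣ g.d - 1 := by
  simp only [S2.ext_iff, ← hπ, map_sub, map_one, sub_eq_zero, map_a, map_b, map_c, map_d, one_a,
    one_b, one_c, one_d]

theorem mem_Kn {m : R} {g : S2 R} : g ∈ Kn m ↔ m ∣ g.a - 1 ∧ m ∣ g.b ∧ m ∣ g.c ∧ m ∣ g.d - 1 :=
  map_eq_one fun _ => Ideal.Quotient.eq_zero_iff_dvd _ _

theorem mem_Kn' {R' : Type*} [CommRing R'] {π : R →+* R'} {f : R} (hπ : ∀ r, π r = 0 ↔ f ∣ r)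
    {g : S2 R} : g ∈ Kn f ↔ map π g = 1 := mem_Kn.trans (map_eq_one hπ).symm

theorem Kn_mono {m m' : R} (h : m ∣ m') {g : S2 R} (hg : g ∈ Kn m') : g ∈ Kn m := by
  obtain ⟨a, b, c, d⟩ := mem_Kn.1 hg
  exact mem_Kn.2 ⟨h.trans a, h.trans b, h.trans c, h.trans d⟩

theorem Kn_unit {m : R} (h : IsUnit m) (g : S2 R) : g ∈ Kn m :=
  mem_Kn.2 ⟨h.dvd, h.dvd, h.dvd, h.dvd⟩

theorem Kn_coprime {m m' : R} (h : IsCoprime m m') {g : S2 R} (hg : g ∈ Kn m) (hg' : g ∈ Kn m') :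
    g ∈ Kn (m * m') := by
  obtain ⟨a, b, c, d⟩ := mem_Kn.1 hg
  obtain ⟨a', b', c', d'⟩ := mem_Kn.1 hg'
  exact mem_Kn.2 ⟨h.mul_dvd a a', h.mul_dvd b b', h.mul_dvd c c', h.mul_dvd d d'⟩

theorem Kn_conj {m : R} {g : S2 R} (hg : g ∈ Kn m) (h : S2 R) : h * g * h⁻¹ ∈ Kn m :=
  Subgroup.Normal.conj_mem inferInstance g hg h

theorem comm_entries {F F' a b c d a' b' c' d' : R} {W W' : S2 R} (h1 : W.a = 1 + F * a)
    (h2 : W.b = F * b) (h3 : W.c = F * c) (h4 : W.d = 1 + F * d) (h1' : W'.a = 1 + F' * a')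
    (h2' : W'.b = F' * b') (h3' : W'.c = F' * c') (h4' : W'.d = 1 + F' * d') {N : S2 R}
    (hN : N = W⁻¹ * W'⁻¹) :
    (W * W' * W⁻¹ * W'⁻¹).a = 1 + F * F' * ((b * c' - b' * c) * N.a +
      (a * b' + b * d' - a' * b - b' * d) * N.c) ∧
    (W * W' * W⁻¹ * W'⁻¹).b = F * F' * ((b * c' - b' * c) * N.b +
      (a * b' + b * d' - a' * b - b' * d) * N.d) ∧
    (W * W' * W⁻¹ * W'⁻¹).c = F * F' * ((c * a' + d * c' - c' * a - d' * c) * N.a +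
      (c * b' - c' * b) * N.c) ∧
    (W * W' * W⁻¹ * W'⁻¹).d = 1 + F * F' * ((c * a' + d * c' - c' * a - d' * c) * N.b +
      (c * b' - c' * b) * N.d) := by
  have e : W' * W * N = 1 := by rw [hN]; group
  rw [mul_assoc (W * W'), ← hN]
  have e1 := congrArg S2.a e
  have e2 := congrArg S2.b e
  have e3 := congrArg S2.c e
  have e4 := congrArg S2.d e
  simp only [mul_a, mul_b, mul_c, mul_d, one_a, one_b, one_c, one_d, h1, h2, h3, h4, h1', h2', h3',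
    h4'] at e1 e2 e3 e4 ⊢
  exact ⟨by linear_combination e1, by linear_combination e2, by linear_combination e3,
    by linear_combination e4⟩

theorem Kn_comm {m m' : R} {g h : S2 R} (hg : g ∈ Kn m) (hh : h ∈ Kn m') :
    g * h * g⁻¹ * h⁻¹ ∈ Kn (m * m') := by
  obtain ⟨⟨a, h1⟩, ⟨b, h2⟩, ⟨c, h3⟩, ⟨d, h4⟩⟩ := mem_Kn.1 hg
  obtain ⟨⟨a', h1'⟩, ⟨b', h2'⟩, ⟨c', h3'⟩, ⟨d', h4'⟩⟩ := mem_Kn.1 hh
  obtain ⟨e1, e2, e3, e4⟩ := comm_entries (eq_add_of_sub_eq' h1) h2 h3 (eq_add_of_sub_eq' h4)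
    (eq_add_of_sub_eq' h1') h2' h3' (eq_add_of_sub_eq' h4') rfl
  rw [mem_Kn, e1, e2, e3, e4]
  simp

/-- `W = 1 + F M` with `M` reducing to the traceless matrix with entries `x, y, z`. -/
def Lv (π : R →+* k) (F : R) (W : S2 R) (x y z : k) : Prop :=
  ∃ a b c d, W.a = 1 + F * a ∧ W.b = F * b ∧ W.c = F * c ∧ W.d = 1 + F * d ∧
    π a = x ∧ π b = y ∧ π c = z ∧ π d = -x

variable {π : R →+* k} {F F' f m : R} {W W' : S2 R} {x y z x' y' z' : k}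

theorem Lv.map_one (h : Lv π F W x y z) (hF : π F = 0) : map π W = 1 := by
  obtain ⟨a, b, c, d, h1, h2, h3, h4, -⟩ := h
  ext <;> simp [h1, h2, h3, h4, hF]

theorem Lv.mul (h : Lv π F W x y z) (h' : Lv π F W' x' y' z') (hF : π F = 0) :
    Lv π F (W * W') (x + x') (y + y') (z + z') := by
  obtain ⟨a, b, c, d, h1, h2, h3, h4, h5, h6, h7, h8⟩ := h
  obtain ⟨a', b', c', d', h1', h2', h3', h4', h5', h6', h7', h8'⟩ := h'
  refine ⟨a + a' + F * (a * a' + b * c'), b + b' + F * (a * b' + b * d'),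
    c + c' + F * (c * a' + d * c'), d + d' + F * (c * b' + d * d'), ?_, ?_, ?_, ?_, ?_, ?_, ?_, ?_⟩ <;>
    simp [*] <;> ring

theorem Lv.inv (h : Lv π F W x y z) : Lv π F W⁻¹ (-x) (-y) (-z) := by
  obtain ⟨a, b, c, d, h1, h2, h3, h4, h5, h6, h7, h8⟩ := h
  refine ⟨d, -b, -c, a, ?_, ?_, ?_, ?_, ?_, ?_, ?_, ?_⟩ <;> simp [*]

theorem Lv.comm (h : Lv π F W x y z) (h' : Lv π F' W' x' y' z') (hF : π F = 0) (hF' : π F' = 0) :
    Lv π (F * F') (W * W' * W⁻¹ * W'⁻¹) (y * z' - y' * z) (2 * (x * y' - x' * y))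
      (2 * (z * x' - z' * x)) := by
  have e : map π (W⁻¹ * W'⁻¹) = 1 := by simp [h.map_one hF, h'.map_one hF']
  obtain ⟨a, b, c, d, h1, h2, h3, h4, h5, h6, h7, h8⟩ := h
  obtain ⟨a', b', c', d', h1', h2', h3', h4', h5', h6', h7', h8'⟩ := h'
  obtain ⟨e1, e2, e3, e4⟩ := comm_entries h1 h2 h3 h4 h1' h2' h3' h4' rfl
  generalize W⁻¹ * W'⁻¹ = N at e e1 e2 e3 e4
  have n1 : π N.a = 1 := congrArg S2.a e
  have n2 : π N.b = 0 := congrArg S2.b e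
  have n3 : π N.c = 0 := congrArg S2.c e
  have n4 : π N.d = 1 := congrArg S2.d e
  refine ⟨_, _, _, _, e1, e2, e3, e4, ?_, ?_, ?_, ?_⟩ <;>
    simp [n1, n2, n3, n4, h5, h6, h7, h8, h5', h6', h7', h8'] <;> ring

theorem Lv.conj (h : Lv π F W x y z) {g : S2 R} {s : S2 k} (hs : map π g = s) :
    Lv π F (g * W * g⁻¹) ((s.a * s.d + s.b * s.c) * x - s.a * s.c * y + s.b * s.d * z)
      (-2 * s.a * s.b * x + s.a ^ 2 * y - s.b ^ 2 * z)
      (2 * s.c * s.d * x - s.c ^ 2 * y + s.d ^ 2 * z) := by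
  subst hs
  obtain ⟨a, b, c, d, h1, h2, h3, h4, h5, h6, h7, h8⟩ := h
  have e := g.det
  refine ⟨(g.a * a + g.b * c) * g.d - (g.a * b + g.b * d) * g.c,
    -(g.a * a + g.b * c) * g.b + (g.a * b + g.b * d) * g.a,
    (g.c * a + g.d * c) * g.d - (g.c * b + g.d * d) * g.c,
    -(g.c * a + g.d * c) * g.b + (g.c * b + g.d * d) * g.a, ?_, ?_, ?_, ?_, ?_, ?_, ?_, ?_⟩
  · simp [h1, h2, h3, h4]; linear_combination e
  · simp [h1, h2, h3, h4]; ring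
  · simp [h1, h2, h3, h4]; ring
  · simp [h1, h2, h3, h4]; linear_combination e
  all_goals simp [h5, h6, h7, h8]; ring

theorem Lv.congr (h : Lv π F W x y z) (h1 : x = x') (h2 : y = y') (h3 : z = z') :
    Lv π F W x' y' z' := h1 ▸ h2 ▸ h3 ▸ h

theorem Lv.mem_Kn (hπ : ∀ r, π r = 0 ↔ f ∣ r) (h : Lv π F W 0 0 0) : W ∈ Kn (F * f) := by
  obtain ⟨a, b, c, d, h1, h2, h3, h4, h5, h6, h7, h8⟩ := h
  rw [Q.mem_Kn, h1, h2, h3, h4, add_sub_cancel_left, add_sub_cancel_left]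
  exact ⟨mul_dvd_mul_left _ ((hπ _).1 h5), mul_dvd_mul_left _ ((hπ _).1 h6),
    mul_dvd_mul_left _ ((hπ _).1 h7), mul_dvd_mul_left _ ((hπ _).1 (by simpa using h8))⟩

theorem exists_Lv [IsDomain R] (h0 : F ≠ 0) (hF : π F = 0) (h : W ∈ Kn F) :
    ∃ x y z, Lv π F W x y z := by
  obtain ⟨⟨a, h1⟩, ⟨b, h2⟩, ⟨c, h3⟩, ⟨d, h4⟩⟩ := mem_Kn.1 h
  have h1' := eq_add_of_sub_eq' h1
  have h4' := eq_add_of_sub_eq' h4
  refine ⟨_, _, _, a, b, c, d, h1', h2, h3, h4', rfl, rfl, rfl, ?_⟩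
  have e := W.det
  rw [h1', h2, h3, h4'] at e
  have : d = -a - F * (a * d - b * c) := mul_left_cancel₀ h0 (by linear_combination e)
  rw [this]
  simp [hF]

/-- All classes of level `F` contain short elements congruent to one modulo `m`. -/
def Lev (π : R →+* k) (T : Set (S2 R)) (m F : R) (L : ℕ) : Prop :=
  ∀ x y z, ∃ W, Len T L W ∧ W ∈ Kn m ∧ Lv π F W x y z

variable {T : Set (S2 R)} {L L' : ℕ}

theorem Lev.mono (h : Lev π T m F L) (hL : L ≤ L') : Lev π T m F L' := fun x y z =>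
  (h x y z).imp fun _ h => ⟨h.1.mono hL, h.2⟩

theorem Lev.mul (h2 : (2 : k) ≠ 0) (h : Lev π T m F L) (h' : Lev π T m F' L') (hF : π F = 0)
    (hF' : π F' = 0) : Lev π T m (F * F') (4 * L + 4 * L') := by
  intro x y z
  obtain ⟨A, a1, a2, a3⟩ := h 1 0 0
  obtain ⟨B, b1, b2, b3⟩ := h' 0 (y / 2) (-z / 2)
  obtain ⟨C, c1, c2, c3⟩ := h 0 1 0
  obtain ⟨D, d1, d2, d3⟩ := h' 0 0 x
  refine ⟨_, ((len_comm a1 b1).mul (len_comm c1 d1)).mono (by omega),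
    (Kn m).mul_mem ((Kn m).mul_mem (Kn_conj b2 _) ((Kn m).inv_mem b2))
      ((Kn m).mul_mem (Kn_conj d2 _) ((Kn m).inv_mem d2)),
    ((a3.comm b3 hF hF').mul (c3.comm d3 hF hF') (by simp [hF])).congr ?_ ?_ ?_⟩ <;>
  field_simp <;> ring

theorem Lev.pow (h2 : (2 : k) ≠ 0) (h : Lev π T m f L) (hf : π f = 0) (l : ℕ) (hl : 1 ≤ l) :
    Lev π T m (f ^ l) (l ^ 4 * L) := by
  induction l using Nat.strong_induction_on with
  | _ l ih =>
    rcases Nat.eq_or_lt_of_le hl with rfl | hl2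
    · simpa using h
    obtain ⟨i, j, rfl, hi, hj⟩ : ∃ i j, l = i + j ∧ 1 ≤ i ∧ (j = i ∨ j = i + 1) :=
      ⟨l / 2, l - l / 2, by omega, by omega, by omega⟩
    have := (ih i (by omega) hi).mul h2 (ih j (by omega) (by omega))
      (by simp [hf]; omega) (by simp [hf]; omega)
    rw [← pow_add] at this
    refine this.mono ?_
    rw [← mul_assoc, ← mul_assoc, ← add_mul]
    refine Nat.mul_le_mul_right _ ?_
    obtain ⟨i, rfl⟩ : ∃ i', i = i' + 1 := ⟨i - 1, by omega⟩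
    rcases hj with rfl | rfl <;> ring_nf <;> omega

theorem Lev.approx [IsDomain R] (h2 : (2 : k) ≠ 0) (h : Lev π T m f L) (h0 : f ≠ 0)
    (hπ : ∀ r, π r = 0 ↔ f ∣ r) {g : S2 R} (hg : g ∈ Kn f) (l : ℕ) :
    ∃ W, Len T (l ^ 5 * L) W ∧ W ∈ Kn m ∧ W⁻¹ * g ∈ Kn (f ^ (l + 1)) := by
  have hf : π f = 0 := (hπ _).2 dvd_rfl
  induction l with
  | zero => exact ⟨1, Len.one _ _, (Kn m).one_mem, by simpa using hg⟩
  | succ l ih =>
    obtain ⟨W, k1, k2, k3⟩ := ih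
    have hF : π (f ^ (l + 1)) = 0 := by simp [hf]
    obtain ⟨x, y, z, k4⟩ := exists_Lv (pow_ne_zero _ h0) hF k3
    obtain ⟨V, k5, k6, k7⟩ := h.pow h2 hf (l + 1) (by omega) x y z
    refine ⟨W * V, (k1.mul k5).mono ?_, (Kn m).mul_mem k2 k6, ?_⟩
    · rw [← add_mul]
      refine Nat.mul_le_mul_right _ ?_
      ring_nf
      omega
    · rw [mul_inv_rev, mul_assoc, pow_succ]
      exact ((k7.inv.mul k4 hF).congr (by simp) (by simp) (by simp)).mem_Kn hπ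

end Pool.Agent.P.MP_bed792_al.Q
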