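import Pool.Agent.P.MP_bed792_al.Q.S2

set_option autoImplicit false

open Polynomial

namespace Pool.Agent.P.MP_bed792_al.Q

open S2

/-- The two standard generators over the polynomial ring. -/
def T₀ (p : ℕ) : Set (S2 (ZMod p)[X]) := {Eu 1, El X}

variable {p : ℕ} {K B : Type*} [Field K] [CommRing B]

theorem lift_T₀ {R : Type*} [CommRing R] (φ : (ZMod p)[X] →+* R) {L : ℕ} {x : S2 R}
    (h : Len {Eu 1, El (φ X)} L x) : ∃ g, Len (T₀ p) L g ∧ map φ g = x :=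
  len_lift (map φ) (by
    rintro _ (rfl | rfl)
    · exact ⟨Eu 1, by simp [T₀], by simp⟩
    · exact ⟨El X, by simp [T₀], by simp⟩) h

theorem rigid (φ₁ : (ZMod p)[X] →+* K) (φ₂ : (ZMod p)[X] →+* B)
    (hR : ∀ x : B, x * x = 1 → x = 1 ∨ x = -1) (h2 : IsUnit (2 : B)) (hX : IsUnit (φ₂ X))
    (H : Subgroup (S2 (ZMod p)[X])) (hu : Eu 1 ∈ H) (hv : El X ∈ H)
    (htot : ∀ x, ∃ g ∈ H, map φ₁ g = x) (hker : ∀ g ∈ H, map φ₁ g = 1 → IsC (map φ₂ g))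
    {f : (ZMod p)[X]} (hf : φ₁ f = 0) : φ₂ f = 0 := by
  rcases subsingleton_or_nontrivial B with hB | hB
  · exact Subsingleton.elim _ _
  have h4 : (2 : B) ≠ -2 := fun h => (h2.mul h2).ne_zero (by linear_combination h)
  let Rl : S2 K → S2 B → Prop := fun x y => ∃ g ∈ H, map φ₁ g = x ∧ (map φ₂ g = y ∨ map φ₂ g = -y)
  have Rmul : ∀ {x y x' y'}, Rl x y → Rl x' y' → Rl (x * x') (y * y') := by
    rintro _ y _ y' ⟨g, k1, rfl, k2⟩ ⟨g', k3, rfl, k4⟩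
    refine ⟨g * g', H.mul_mem k1 k3, map_mul _ _ _, ?_⟩
    rcases k2 with k2 | k2 <;> rcases k4 with k4 | k4 <;> simp [k2, k4]
  have Rinv : ∀ {x y}, Rl x y → Rl x⁻¹ y⁻¹ := by
    rintro _ y ⟨g, k1, rfl, k2⟩
    refine ⟨g⁻¹, H.inv_mem k1, map_inv _ _, ?_⟩
    rcases k2 with k2 | k2 <;> simp [k2]
  have Rneg : ∀ {x y}, Rl x (-y) → Rl x y := by
    rintro _ y ⟨g, k1, rfl, k2⟩
    exact ⟨g, k1, rfl, by simpa [or_comm] using k2⟩
  have Runiq : ∀ {x y y'}, Rl x y → Rl x y' → tr y = 2 → tr y' = 2 → y = y' := by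
    intro x y y' k1 k2 t1 t2
    obtain ⟨g, k3, k4, k5⟩ := Rmul k1 (Rinv k2)
    have k6 : IsC (y * y'⁻¹) := by
      have := hker g k3 (by simpa using k4)
      rcases k5 with k5 | k5 <;> simpa [k5, isC_neg] using this
    rcases k6 with k6 | k6
    · exact mul_inv_eq_one.1 k6
    · have := mul_inv_eq_iff_eq_mul.1 k6
      rw [this] at t1
      exact absurd (by simpa [t2] using t1.symm) h4
  have Ru : Rl (Eu 1) (Eu 1) := ⟨Eu 1, hu, by simp, Or.inl (by simp)⟩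
  have Rv : Rl (El (φ₁ X)) (El (φ₂ X)) := ⟨El X, hv, by simp, Or.inl (by simp)⟩
  have exβ : ∀ x, ∃ b, Rl (Eu x) (Eu b) := fun x => by
    obtain ⟨g, k1, k2⟩ := htot (Eu x)
    have k3 : Rl (Eu x) (map φ₂ g) := ⟨g, k1, k2, Or.inl rfl⟩
    have k4 := Rmul (Rmul k3 Ru) (Rinv k3)
    rw [show Eu x * Eu 1 * (Eu x)⁻¹ = Eu 1 by ext <;> simp] at k4
    obtain ⟨b, hb | hb⟩ := cent_Eu hR isUnit_one
      (mul_inv_eq_iff_eq_mul.1 (Runiq k4 Ru (by rw [tr_conj, tr_Eu]) (tr_Eu _)))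
    exacts [⟨b, hb ▸ k3⟩, ⟨b, Rneg (hb ▸ k3)⟩]
  have exα : ∀ x, ∃ b, Rl (El x) (El b) := fun x => by
    obtain ⟨g, k1, k2⟩ := htot (El x)
    have k3 : Rl (El x) (map φ₂ g) := ⟨g, k1, k2, Or.inl rfl⟩
    have k4 := Rmul (Rmul k3 Rv) (Rinv k3)
    rw [show El x * El (φ₁ X) * (El x)⁻¹ = El (φ₁ X) by ext <;> simp] at k4
    obtain ⟨b, hb | hb⟩ := cent_El hR hX
      (mul_inv_eq_iff_eq_mul.1 (Runiq k4 Rv (by rw [tr_conj, tr_El]) (tr_El _)))
    exacts [⟨b, hb ▸ k3⟩, ⟨b, Rneg (hb ▸ k3)⟩]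
  choose β hβ using exβ
  choose α hα using exα
  have uβ : ∀ {x b}, Rl (Eu x) (Eu b) → β x = b := fun h =>
    Eu_inj (Runiq (hβ _) h (tr_Eu _) (tr_Eu _))
  have uα : ∀ {x b}, Rl (El x) (El b) → α x = b := fun h =>
    El_inj (Runiq (hα _) h (tr_El _) (tr_El _))
  have βadd : ∀ x y, β (x + y) = β x + β y := fun x y =>
    uβ (by rw [Eu_add, Eu_add]; exact Rmul (hβ x) (hβ y))
  have βneg : ∀ x, β (-x) = -β x := fun x => uβ (by rw [Eu_neg, Eu_neg]; exact Rinv (hβ x))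
  have β0 : β 0 = 0 := by simpa using βadd 0 0
  have β1 : β 1 = 1 := uβ Ru
  have key : ∀ x, x ≠ 0 → α x * β (-x⁻¹) = -1 ∧ ∀ y, α (-x ^ 2 * y) = -α x ^ 2 * β y := by
    intro x hx
    have k1 := Rmul (Rmul (hβ (-x⁻¹)) (hα x)) (hβ (-x⁻¹))
    have k2 : ∀ y, Eu (β (-x⁻¹)) * El (α x) * Eu (β (-x⁻¹)) * Eu (β y) *
        (Eu (β (-x⁻¹)) * El (α x) * Eu (β (-x⁻¹)))⁻¹ = El (α (-x ^ 2 * y)) := fun y => by
      have := Rmul (Rmul k1 (hβ y)) (Rinv k1)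
      rw [show Eu (-x⁻¹) * El x * Eu (-x⁻¹) * Eu y * (Eu (-x⁻¹) * El x * Eu (-x⁻¹))⁻¹ =
        El (-x ^ 2 * y) by ext <;> simp [hx]; ring] at this
      exact Runiq this (hα _) (by rw [tr_conj, tr_Eu]) (tr_El _)
    generalize β (-x⁻¹) = s at k2
    generalize α x = a at k2
    have e1 := congrArg S2.a (k2 1)
    have e2 := congrArg S2.b (k2 1)
    simp only [mul_a, mul_b, mul_c, mul_d, inv_a, inv_b, inv_c, inv_d, Eu_a, Eu_b, Eu_c, Eu_d, El_a,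
      El_b, El_c, El_d, β1] at e1 e2
    refine ⟨by linear_combination e2 + s * e1, fun y => ?_⟩
    have e3 := congrArg S2.c (k2 y)
    simp only [mul_a, mul_b, mul_c, mul_d, inv_a, inv_b, inv_c, inv_d, Eu_a, Eu_b, Eu_c, Eu_d, El_a,
      El_b, El_c, El_d] at e3
    linear_combination -e3
  have α1 : α 1 = 1 := by simpa [βneg, β1] using (key 1 one_ne_zero).1
  have αβ : ∀ y, α y = β y := fun y => by simpa [βneg, α1] using (key 1 one_ne_zero).2 (-y)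
  have βsq : ∀ x, β (x ^ 2) = β x ^ 2 := fun x => by
    by_cases hx : x = 0
    · simp [hx, β0]
    · simpa [αβ, βneg, β1] using (key x hx).2 1
  let ψ : K →+* B :=
    { toFun := β
      map_one' := β1
      map_zero' := β0
      map_add' := βadd
      map_mul' := fun x y => h2.mul_left_cancel (by
        have := βsq (x + y)
        rw [show (x + y) ^ 2 = x ^ 2 + x * y + x * y + y ^ 2 by ring, βadd, βadd, βadd, βadd, βsq,
          βsq] at this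
        linear_combination this) }
  have : ψ.comp φ₁ = φ₂ := Polynomial.ringHom_ext' (RingHom.ext_zmod _ _)
    ((αβ _).symm.trans (uα Rv))
  rw [← this, RingHom.comp_apply, hf, map_zero]

theorem rigid_short (φ₁ : (ZMod p)[X] →+* K) (φ₂ : (ZMod p)[X] →+* B)
    (hR : ∀ x : B, x * x = 1 → x = 1 ∨ x = -1) (h2 : IsUnit (2 : B)) (hX : IsUnit (φ₂ X))
    {L : ℕ} (hL : ∀ x, Len {Eu 1, El (φ₁ X)} L x) {f : (ZMod p)[X]} (hf : φ₁ f = 0)
    (hf' : φ₂ f ≠ 0) : ∃ g, Len (T₀ p) (2 * L + 1) g ∧ map φ₁ g = 1 ∧ ¬ IsC (map φ₂ g) := by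
  by_contra hc
  push Not at hc
  choose σ h1 h3 using fun x => lift_T₀ φ₁ (hL x)
  have k0 : IsC (map φ₂ (σ 1)) := hc _ ((h1 1).mono (by omega)) (h3 1)
  have key : ∀ i g, Len (T₀ p) i g → IsC (map φ₂ ((σ (map φ₁ g))⁻¹ * g)) := by
    intro i
    induction i with
    | zero => intro g hg; rw [Len.zero_iff.1 hg]; simpa using k0.inv
    | succ i ih =>
      intro g hg
      rcases Len.succ_iff.1 hg with hg | ⟨s, k, hs, hk, rfl⟩
      · exact ih g hg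
      have := (hc _ ((((h1 (map φ₁ (s * k))).inv.mul (Len.of_mem hs)).mul (h1 (map φ₁ k))).mono
        (by omega)) (by simp [h3])).mul (ih k hk)
      rwa [← map_mul, show (σ (map φ₁ (s * k)))⁻¹ * s * σ (map φ₁ k) * ((σ (map φ₁ k))⁻¹ * k) =
        (σ (map φ₁ (s * k)))⁻¹ * (s * k) by group] at this
  refine hf' (rigid φ₁ φ₂ hR h2 hX (Subgroup.closure (T₀ p)) (Subgroup.subset_closure (by simp [T₀]))
    (Subgroup.subset_closure (by simp [T₀])) (fun x => ⟨σ x, (h1 x).mem_closure, h3 x⟩)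
    (fun g hg e => ?_) hf)
  obtain ⟨i, hi⟩ := exists_len hg
  simpa [e] using k0.mul (key i g hi)

end Pool.Agent.P.MP_bed792_al.Q
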