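import Pool.Agent.P.MP_bed792_al.Q.S2

set_option autoImplicit false

namespace Pool.Agent.P.MP_bed792_al.Q

open S2

/-- The conjugacy class. -/
def cl {G : Type*} [Group G] (w : G) : Set G := {g | ∃ h, g = h * w * h⁻¹}

theorem len_cl_conj {G : Type*} [Group G] {w g : G} {L : ℕ} (hg : Len (cl w) L g) (h : G) :
    Len (cl w) L (h * g * h⁻¹) :=
  len_map (MulAut.conj h).toMonoidHom
    (by rintro _ ⟨k, rfl⟩; exact ⟨h * k, by simp [mul_assoc]⟩) hg

variable {K : Type*} [Field K]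

theorem unip_conj {g : S2 K} (h1 : tr g = 2) (h2 : g ≠ 1) :
    ∃ h z, z ≠ 0 ∧ h * g * h⁻¹ = Eu z := by
  have d := g.det
  unfold tr at h1
  by_cases hc : g.c = 0
  · have e1 : g.a = 1 := sub_eq_zero.1 (pow_eq_zero_iff (n := 2) (by norm_num) |>.1
      (by rw [hc] at d; linear_combination g.a * h1 - d))
    have e : Eu g.b = g := by ext <;> simp [e1, hc]; linear_combination e1 - h1
    exact ⟨1, g.b, fun h => h2 (by rw [← e, h, Eu_zero]), by simp [e]⟩
  · refine ⟨wy * Eu ((1 - g.a) / g.c), -g.c, neg_ne_zero.2 hc, ?_⟩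
    ext <;> simp <;> field_simp
    · linear_combination h1
    · linear_combination d - h1
    · ring

theorem exists_c_ne {w : S2 K} (hw : ¬ IsC w) : ∃ h : S2 K, (h * w * h⁻¹).c ≠ 0 := by
  by_contra hc
  push Not at hc
  have h1 := hc 1
  have h2 := hc wy
  have h3 := hc (El 1)
  simp at h1 h2 h3
  exact hw (isC_iff.2 ⟨h2, h1, by linear_combination h3 - h1 + h2⟩)

theorem exists_unip (h2 : (2 : K) ≠ 0) (h3 : (3 : K) ≠ 0) {w : S2 K} (hw : ¬ IsC w) :
    ∃ g, Len (cl w) 4 g ∧ tr g = 2 ∧ g ≠ 1 := by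
  obtain ⟨h, hc⟩ := exists_c_ne hw
  have h0 : Len (cl w) 1 (h * w * h⁻¹) := Len.of_mem (Or.inl ⟨h, rfl⟩)
  generalize h * w * h⁻¹ = v at hc h0
  have key : ∀ y, Len (cl w) 2 (El (-v.c ^ 2 * y) * Eu (-y)) := fun y => by
    have k1 := len_cl_conj h0 (Eu (v.d / v.c))
    have k2 := k1.inv.mul (len_cl_conj k1 (Eu y))
    have d := v.det
    have e : (Eu (v.d / v.c) * v * (Eu (v.d / v.c))⁻¹)⁻¹ * (Eu y * (Eu (v.d / v.c) * v *
        (Eu (v.d / v.c))⁻¹) * (Eu y)⁻¹) = El (-v.c ^ 2 * y) * Eu (-y) := by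
      ext <;> simp <;> field_simp
      · linear_combination d
      · linear_combination -y * v.c * d
      · ring
      · linear_combination d
    exact e ▸ k2
  by_cases h5 : (5 : K) = 0
  · refine ⟨_, (key v.c⁻¹).mul (key v.c⁻¹), ?_, fun e => ?_⟩
    · simp [tr]; field_simp; linear_combination h5
    · have := congrArg S2.a e
      simp [hc] at this
  · have e : dg 2 h2 * (El (-v.c ^ 2 * 1) * Eu (-1)) * (dg 2 h2)⁻¹ * (El (-v.c ^ 2 * 4) * Eu (-4))⁻¹ =
        El (3 * 5 * v.c ^ 2 / 2 ^ 2) := by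
      ext <;> simp [dg] <;> field_simp <;> ring
    refine ⟨_, (len_cl_conj (key 1) (dg 2 h2)).mul (key 4).inv, by rw [e, tr_El], fun k => ?_⟩
    rw [e, ← El_zero] at k
    simpa [h2, h3, h5, hc] using El_inj k

theorem width (h2 : (2 : K) ≠ 0) (h3 : (3 : K) ≠ 0) {w : S2 K} (hw : ¬ IsC w) (x : S2 K) :
    Len (cl w) 32 x := by
  obtain ⟨g, k1, k2, k3⟩ := exists_unip h2 h3 hw
  obtain ⟨h, z, hz, e⟩ := unip_conj k2 k3
  have a1 : ∀ s, Len (cl w) 4 (Eu (s ^ 2 * z)) := fun s => by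
    by_cases hs : s = 0
    · simpa [hs] using Len.one _ _
    have := len_cl_conj (e ▸ len_cl_conj k1 h) (dg s hs)
    rwa [show dg s hs * Eu z * (dg s hs)⁻¹ = Eu (s ^ 2 * z) by ext <;> simp [dg, hs]; ring] at this
  have a2 : ∀ y, Len (cl w) 8 (Eu y) := fun y => by
    have := (a1 ((y / z + 1) / 2)).mul (a1 ((y / z - 1) / 2)).inv
    rwa [← Eu_neg, ← Eu_add, show ((y / z + 1) / 2) ^ 2 * z + -(((y / z - 1) / 2) ^ 2 * z) = y by
      field_simp; ring] at this
  have a3 : ∀ y, Len (cl w) 8 (El y) := fun y => by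
    have := len_cl_conj (a2 (-y)) wy⁻¹
    rwa [← wy_El, show wy⁻¹ * (wy * El y * wy⁻¹) * wy⁻¹⁻¹ = El y by group] at this
  obtain ⟨a, b, c, d, rfl⟩ := four x
  exact (a3 _).mul (((a2 _).mul (a3 _)).mul (a2 _))

theorem exists_comm (h2 : (2 : K) ≠ 0) (h3 : (3 : K) ≠ 0) {w w' : S2 K} (hw : ¬ IsC w)
    (hw' : ¬ IsC w') : ∃ a, ¬ IsC (a * w * a⁻¹ * w' * (a * w * a⁻¹)⁻¹ * w'⁻¹) := by
  by_contra hc
  push Not at hc
  let H : Subgroup (S2 K) :=
    { carrier := {x | IsC (x * w' * x⁻¹ * w'⁻¹)}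
      mul_mem' := fun {x y} hx hy => by
        have := (isC_conj (h := x).2 hy).mul hx
        rwa [show x * (y * w' * y⁻¹ * w'⁻¹) * x⁻¹ * (x * w' * x⁻¹ * w'⁻¹) =
          x * y * w' * (x * y)⁻¹ * w'⁻¹ by group] at this
      one_mem' := Or.inl (by simp)
      inv_mem' := fun {x} hx => by
        have := isC_conj (h := x⁻¹).2 hx.inv
        rwa [show x⁻¹ * (x * w' * x⁻¹ * w'⁻¹)⁻¹ * x⁻¹⁻¹ = x⁻¹ * w' * x⁻¹⁻¹ * w'⁻¹ by group] at this }
  have hH : ∀ x : S2 K, x * w' * x⁻¹ = w' ∨ x * w' * x⁻¹ = -w' := fun x => by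
    have : x ∈ H := (Subgroup.closure_le H).2 (by rintro _ ⟨a, rfl⟩; exact hc a)
      (width h2 h3 hw x).mem_closure
    rcases this with h | h
    · exact Or.inl (mul_inv_eq_one.1 h)
    · exact Or.inr (by simpa using mul_inv_eq_iff_eq_mul.1 h)
  have e1 : w'.c = 0 := by
    rcases hH (Eu 1) with h | h
    · simpa using congrArg S2.a h
    · have := congrArg S2.c h
      simp at this
      exact mul_left_cancel₀ h2 (by linear_combination this)
  have e2 : w'.b = 0 := by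
    rcases hH (El 1) with h | h
    · simpa using congrArg S2.d h
    · have := congrArg S2.b h
      simp at this
      exact mul_left_cancel₀ h2 (by linear_combination this)
  refine hw' (isC_iff.2 ⟨e2, e1, ?_⟩)
  rcases hH (Eu 1) with h | h <;> have := congrArg S2.b h <;> simp [e1, e2] at this <;>
    linear_combination -this

end Pool.Agent.P.MP_bed792_al.Q
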