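import Pool.Agent.P.MP_bed792_al.Q.Lift
import Pool.Agent.P.MP_bed792_al.Q.Rigid
import Pool.Agent.P.MP_bed792_al.Q.Width

set_option autoImplicit false

open Polynomial

namespace Pool.Agent.P.MP_bed792_al.Q

open S2

variable {p : ℕ} {K : Type*} [Field K] {π : (ZMod p)[X] →+* K} {L G G' : ℕ} {f m m' : (ZMod p)[X]}

/-- A short word that is trivial modulo `m` and not central under `π`. -/
def Good (π : (ZMod p)[X] →+* K) (m : (ZMod p)[X]) (G : ℕ) : Prop :=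
  ∃ w, Len (T₀ p) G w ∧ w ∈ Kn m ∧ ¬ IsC (map π w)

theorem Good.mono (h : Good π m G) (hG : G ≤ G') (hm : m' ∣ m) : Good π m' G' :=
  h.imp fun _ h => ⟨h.1.mono hG, Kn_mono hm h.2.1, h.2.2⟩

theorem good_X (hX : π X ≠ 0) (hm : m ∣ X) : Good π m 1 :=
  ⟨El X, Len.of_mem (Or.inl (by simp [T₀])), by simp [mem_Kn, hm],
    fun h => hX (by simpa using h.c_eq)⟩

theorem Good.mul (h2 : (2 : K) ≠ 0) (h3 : (3 : K) ≠ 0) (hL : ∀ x, Len {Eu 1, El (π X)} L x)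
    (h : Good π m G) (h' : Good π m' G') : Good π (m * m') (4 * L + 2 * G + 2 * G') := by
  obtain ⟨w, a1, a2, a3⟩ := h
  obtain ⟨w', b1, b2, b3⟩ := h'
  obtain ⟨a, ha⟩ := exists_comm h2 h3 a3 b3
  obtain ⟨g, c1, rfl⟩ := lift_T₀ π (hL a)
  exact ⟨g * w * g⁻¹ * w' * (g * w * g⁻¹)⁻¹ * w'⁻¹, (len_comm (c1.conj a1) b1).mono (by omega),
    Kn_comm (Kn_conj a2 g) b2, by simpa only [map_mul, map_inv] using ha⟩

theorem good_list (h2 : (2 : K) ≠ 0) (h3 : (3 : K) ≠ 0) (hL : ∀ x, Len {Eu 1, El (π X)} L x)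
    (hG : L ≤ G) (n : ℕ) : ∀ l : List (ZMod p)[X], l.length = n → 1 ≤ n → (∀ g ∈ l, Good π g G) →
      Good π l.prod (n ^ 3 * G) := by
  induction n using Nat.strong_induction_on with
  | _ n ih =>
    intro l hl hn h
    rcases Nat.eq_or_lt_of_le hn with rfl | hn2
    · obtain ⟨g, rfl⟩ := List.length_eq_one_iff.1 hl
      simpa using h
    obtain ⟨i, j, rfl, hi, hj⟩ : ∃ i j, n = i + j ∧ 1 ≤ i ∧ (j = i ∨ j = i + 1) :=
      ⟨n / 2, n - n / 2, by omega, by omega, by omega⟩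
    have := (ih i (by omega) (l.take i) (by simp; omega) hi
      fun g hg => h g (List.mem_of_mem_take hg)).mul h2 h3 hL
      (ih j (by omega) (l.drop i) (by simp; omega) (by omega)
        fun g hg => h g (List.mem_of_mem_drop hg))
    rw [List.prod_take_mul_prod_drop] at this
    refine this.mono ?_ dvd_rfl
    have e : 4 + 2 * i ^ 3 + 2 * j ^ 3 ≤ (i + j) ^ 3 := by
      obtain ⟨i, rfl⟩ : ∃ i', i = i' + 1 := ⟨i - 1, by omega⟩
      rcases hj with rfl | rfl <;> ring_nf <;> omega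
    nlinarith [Nat.mul_le_mul_right G e]

theorem Good.lev₀ (h2 : (2 : K) ≠ 0) (h3 : (3 : K) ≠ 0) (hL : ∀ x, Len {Eu 1, El (π X)} L x)
    (h : Good π m L) (x : S2 K) : ∃ W, Len (T₀ p) (96 * L) W ∧ W ∈ Kn m ∧ map π W = x := by
  obtain ⟨w, a1, a2, a3⟩ := h
  obtain ⟨W, b1, b2⟩ := len_lift (map π) (S := {g | g ∈ Kn m ∧ Len (T₀ p) (3 * L) g}) (by
    rintro _ ⟨a, rfl⟩
    obtain ⟨g, c1, rfl⟩ := lift_T₀ π (hL a)
    exact ⟨g * w * g⁻¹, ⟨Kn_conj a2 g, (c1.conj a1).mono (by omega)⟩, by simp⟩) (width h2 h3 a3 x)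
  exact ⟨W, (Len.comp (fun _ h => h.2) b1).mono (by omega),
    (Subgroup.closure_le (Kn m)).2 (fun _ h => h.1) b1.mem_closure, b2⟩

theorem lev_one (h2 : (2 : K) ≠ 0) (hf : π f = 0) (hL : ∀ x, Len {Eu 1, El (π X)} L x)
    (h0 : ∀ x, ∃ W, Len (T₀ p) L W ∧ W ∈ Kn m ∧ map π W = x) {g : S2 (ZMod p)[X]} {x y z : K}
    (hg : Len (T₀ p) L g) (hg' : Lv π f g x y z) (hne : ¬ (x = 0 ∧ y = 0 ∧ z = 0)) :
    Lev π (T₀ p) m f (100 * L) := by
  have cj : ∀ {j W x y z}, Len (T₀ p) j W → Lv π f W x y z → ∀ s : S2 K,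
      ∃ V, Len (T₀ p) (2 * L + j) V ∧ (W ∈ Kn m → V ∈ Kn m) ∧
      Lv π f V ((s.a * s.d + s.b * s.c) * x - s.a * s.c * y + s.b * s.d * z)
        (-2 * s.a * s.b * x + s.a ^ 2 * y - s.b ^ 2 * z)
        (2 * s.c * s.d * x - s.c ^ 2 * y + s.d ^ 2 * z) := fun h1 h2 s => by
    obtain ⟨a, c1, c2⟩ := lift_T₀ π (hL s)
    exact ⟨_, c1.conj h1, fun h => Kn_conj h a, h2.conj c2⟩
  obtain ⟨v, x, y, z, v1, v2, hz⟩ : ∃ v x y z, Len (T₀ p) (3 * L) v ∧ Lv π f v x y z ∧ z ≠ 0 := by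
    by_cases hz : z = 0
    · by_cases hy : y = 0
      · obtain ⟨V, k1, -, k2⟩ := cj hg hg' (El 1)
        exact ⟨V, _, _, _, k1.mono (by omega), k2, by simpa [hy, hz, h2] using hne⟩
      · obtain ⟨V, k1, -, k2⟩ := cj hg hg' wy
        exact ⟨V, _, _, _, k1.mono (by omega), k2, by simpa using hy⟩
    · exact ⟨g, _, _, _, hg.mono (by omega), hg', hz⟩
  have e1 : ∀ s, ∃ W, Len (T₀ p) (8 * L) W ∧ W ∈ Kn m ∧
      Lv π f W (s * z) (-2 * s * x - s ^ 2 * z) 0 := fun s => by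
    obtain ⟨n, k1, k2, k3⟩ := h0 (Eu s)
    refine ⟨n * v * n⁻¹ * v⁻¹, (len_comm k1 v1).mono (by omega), ?_,
      ((v2.conj k3).mul v2.inv hf).congr (by simp) (by simp; ring) (by simp)⟩
    have := (Kn m).mul_mem k2 (Kn_conj ((Kn m).inv_mem k2) v)
    simpa only [mul_assoc] using this
  have e2 : ∀ s, ∃ W, Len (T₀ p) (16 * L) W ∧ W ∈ Kn m ∧ Lv π f W 0 (-2 * s ^ 2 * z) 0 := fun s => by
    obtain ⟨W, a1, a2, a3⟩ := e1 s
    obtain ⟨W', b1, b2, b3⟩ := e1 (-s)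
    exact ⟨W * W', (a1.mul b1).mono (by omega), (Kn m).mul_mem a2 b2,
      (a3.mul b3 hf).congr (by ring) (by ring) (by ring)⟩
  have e3 : ∀ y, ∃ W, Len (T₀ p) (32 * L) W ∧ W ∈ Kn m ∧ Lv π f W 0 y 0 := fun y => by
    obtain ⟨W, a1, a2, a3⟩ := e2 ((y / (-2 * z) + 1) / 2)
    obtain ⟨W', b1, b2, b3⟩ := e2 ((y / (-2 * z) - 1) / 2)
    exact ⟨W * W'⁻¹, (a1.mul b1.inv).mono (by omega), (Kn m).mul_mem a2 ((Kn m).inv_mem b2),
      (a3.mul b3.inv hf).congr (by ring) (by field_simp; ring) (by ring)⟩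
  intro x y z
  obtain ⟨A, a1, a2, a3⟩ := e3 (-x)
  obtain ⟨A', a4, a5, a6⟩ := cj a1 a3 (El 1)
  obtain ⟨B, b1, b2, b3⟩ := e3 (y + x)
  obtain ⟨C, c1, c2, c3⟩ := e3 (x - z)
  obtain ⟨C', c4, c5, c6⟩ := cj c1 c3 wy
  exact ⟨A' * B * C', ((a4.mul b1).mul c4).mono (by omega),
    (Kn m).mul_mem ((Kn m).mul_mem (a5 a2) b2) (c5 c2),
    ((a6.mul b3 hf).mul c6 hf).congr (by simp) (by simp) (by simp)⟩

variable [Fact p.Prime]

theorem unit_of_lt {R : Type*} [CommRing R] (φ : (ZMod p)[X] →+* R) {n : ℕ} (h0 : 0 < n)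
    (hn : n < p) : IsUnit (n : R) := by
  have : IsUnit (n : ZMod p) := IsUnit.mk0 _ fun h =>
    absurd (Nat.le_of_dvd h0 ((ZMod.natCast_eq_zero_iff _ _).1 h)) (by omega)
  simpa using this.map (φ.comp C)

theorem exists_lv (hp : 5 ≤ p) (hf : Irreducible f) (hπ : ∀ r, π r = 0 ↔ f ∣ r) (hX : π X ≠ 0)
    (hL : ∀ x, Len {Eu 1, El (π X)} L x) :
    ∃ g x y z, Len (T₀ p) (2 * L + 1) g ∧ Lv π f g x y z ∧ ¬ (x = 0 ∧ y = 0 ∧ z = 0) := by
  have hφ : ∀ r, AdjoinRoot.mk (f * f) r = 0 ↔ f * f ∣ r := fun _ => AdjoinRoot.mk_eq_zero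
  have cop : ∀ r, π r ≠ 0 → IsCoprime (f * f) r := fun r hr =>
    have := (hf.isCoprime_or_dvd r).resolve_right (by rwa [← hπ])
    this.mul_left this
  have h2 : (2 : K) ≠ 0 := by simpa using (unit_of_lt π (n := 2) (by omega) (by omega)).ne_zero
  obtain ⟨g, k1, k2, k3⟩ := rigid_short π (AdjoinRoot.mk (f * f)) (fun x hx => by
      obtain ⟨r, rfl⟩ := AdjoinRoot.mk_surjective x
      have e : f * f ∣ (r - 1) * (r + 1) := by
        rw [← hφ]; simp only [map_mul, map_sub, map_add, map_one]; linear_combination hx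
      by_cases h : π (r + 1) = 0
      · have := (hφ _).2 ((cop (r - 1) fun h' => h2 (by
          simp only [map_sub, map_add, map_one] at h h'
          linear_combination h - h')).dvd_of_dvd_mul_left e)
        exact Or.inr (by simpa [add_eq_zero_iff_eq_neg] using this)
      · have := (hφ _).2 ((cop _ h).dvd_of_dvd_mul_right e)
        exact Or.inl (by simpa [sub_eq_zero] using this))
    (by simpa using unit_of_lt (AdjoinRoot.mk (f * f)) (n := 2) (by omega) (by omega))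
    (by
      obtain ⟨a, b, e⟩ := cop X hX
      have := congrArg (AdjoinRoot.mk (f * f)) e
      rw [map_add, map_mul, (hφ _).2 dvd_rfl, mul_zero, zero_add, map_mul, map_one] at this
      exact IsUnit.of_mul_eq_one_right _ this)
    hL ((hπ f).2 dvd_rfl) (fun h => hf.not_isUnit (isUnit_of_dvd_one
      ((mul_dvd_mul_iff_left hf.ne_zero).1 (by simpa using (hφ _).1 h))))
  obtain ⟨x, y, z, k4⟩ := exists_Lv hf.ne_zero ((hπ f).2 dvd_rfl) ((mem_Kn' hπ).2 k2)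
  refine ⟨g, x, y, z, k1, k4, ?_⟩
  rintro ⟨rfl, rfl, rfl⟩
  exact k3 (Or.inl ((mem_Kn' hφ).1 (k4.mem_Kn hπ)))

theorem exists_list (hm : m ≠ 0) : ∃ l : List (ZMod p)[X], (∀ g ∈ l, Irreducible g ∧ g ∣ m) ∧
    m ∣ l.prod ∧ l.length ≤ m.natDegree := by
  induction m using WfDvdMonoid.induction_on_irreducible with
  | zero => exact absurd rfl hm
  | unit u hu => exact ⟨[], by simp, by simpa using hu.dvd, by simp⟩
  | mul a i ha hi ih =>
    obtain ⟨l, h1, h2, h3⟩ := ih ha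
    refine ⟨i :: l, fun g hg => ?_, by simpa using mul_dvd_mul_left i h2, ?_⟩
    · rcases List.mem_cons.1 hg with rfl | hg
      · exact ⟨hi, dvd_mul_right _ _⟩
      · exact ⟨(h1 g hg).1, (h1 g hg).2.mul_left _⟩
    · have := hi.natDegree_pos
      rw [natDegree_mul hi.ne_zero ha, List.length_cons]
      omega

end Pool.Agent.P.MP_bed792_al.Q
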