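import Pool.Agent.P.MP_bed792_al.Q.Key

set_option autoImplicit false
set_option exponentiation.threshold 1100

open Polynomial

namespace Pool.Agent.P.MP_bed792_al.Q

open S2

variable {G E : Type*} [Group G] [Ring E] {ρ : G →* E} {S : Set G}

/-- `1 + x` is the image of a short word. -/
def Sh (ρ : G →* E) (S : Set G) (L : ℕ) (x : E) : Prop := ∃ g, Len S L g ∧ ρ g = 1 + x

namespace Sh

variable {L L' : ℕ} {x y : E}

theorem mono (h : Sh ρ S L x) (hL : L ≤ L') : Sh ρ S L' x := h.imp fun _ h => ⟨h.1.mono hL, h.2⟩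

theorem zero (L : ℕ) : Sh ρ S L 0 := ⟨1, Len.one _ _, by simp⟩

theorem mul (h : Sh ρ S L x) (h' : Sh ρ S L' y) : Sh ρ S (L + L') (x + y + x * y) := by
  obtain ⟨g, a1, a2⟩ := h
  obtain ⟨g', b1, b2⟩ := h'
  exact ⟨g * g', a1.mul b1, by rw [map_mul, a2, b2]; noncomm_ring⟩

theorem add (h : Sh ρ S L x) (h' : Sh ρ S L' y) (e : x * y = 0) : Sh ρ S (L + L') (x + y) := by
  simpa [e] using h.mul h'

theorem neg (h : Sh ρ S L x) (e : x * x = 0) : Sh ρ S L (-x) := by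
  obtain ⟨g, a1, a2⟩ := h
  refine ⟨g⁻¹, a1.inv, ?_⟩
  calc ρ g⁻¹ = ρ g⁻¹ * ((1 + x) * (1 + -x)) := by
        rw [show (1 + x) * (1 + -x) = 1 - x * x by noncomm_ring, e, sub_zero, mul_one]
    _ = _ := by rw [← mul_assoc, ← a2, ← map_mul, inv_mul_cancel, map_one, one_mul]

theorem conj (h : Sh ρ S L x) {g : G} (hg : Len S L' g) :
    Sh ρ S (2 * L' + L) (ρ g * x * ρ g⁻¹) := by
  obtain ⟨u, a1, a2⟩ := h
  refine ⟨_, hg.conj a1, ?_⟩
  rw [map_mul, map_mul, a2, mul_add, add_mul, mul_one, ← map_mul, mul_inv_cancel, map_one]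

end Sh

variable {p : ℕ} [Fact p.Prime] [Algebra (ZMod p) E] {a b : E}

theorem aeval_comm {t x : E} (h : x * t = t * x) (f : (ZMod p)[X]) :
    x * aeval t f = aeval t f * x := by
  induction f using Polynomial.induction_on with
  | C c => simp [Algebra.commutes]
  | add f g hf hg => simp [mul_add, add_mul, hf, hg]
  | monomial n c ih =>
    rw [pow_succ, ← mul_assoc (C c), map_mul, aeval_X, ← mul_assoc, ih, mul_assoc, h, mul_assoc]

theorem op_word (ha : a * a = 0) (hb : b * b = 0) {T : Set (S2 (ZMod p)[X])} {l : ℕ}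
    (hT : ∀ s, s ∈ T ∨ s⁻¹ ∈ T → ∃ c : ZMod p,
      s = Eu (C c) ∧ Sh ρ S l (c • a) ∨ s = El (C c * X) ∧ Sh ρ S l (c • b))
    {L : ℕ} {W : S2 (ZMod p)[X]} (hW : Len T L W) :
    ∃ g α β γ δ, Len S (l * L) g ∧ W.a = α + δ * X ∧ W.b = β ∧ W.c = γ * X ∧ W.d = α ∧
      ρ g = aeval (a * b + b * a) α + aeval (a * b + b * a) β * a + aeval (a * b + b * a) γ * b +
        aeval (a * b + b * a) δ * (a * b) := by
  have ca : a * (a * b + b * a) = (a * b + b * a) * a := by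
    simp only [mul_add, add_mul, ← mul_assoc, ha]; simp [mul_assoc, ha]
  have cb : b * (a * b + b * a) = (a * b + b * a) * b := by
    simp only [mul_add, add_mul, ← mul_assoc, hb]; simp [mul_assoc, hb]
  induction L generalizing W with
  | zero => exact ⟨1, 1, 0, 0, 0, Len.one _ _, by simp [Len.zero_iff.1 hW]⟩
  | succ L ih =>
    rcases Len.succ_iff.1 hW with hW | ⟨s, k, hs, hk, rfl⟩
    · obtain ⟨g, α, β, γ, δ, h1, h2⟩ := ih hW
      exact ⟨g, α, β, γ, δ, h1.mono (Nat.mul_le_mul_left _ (by omega)), h2⟩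
    obtain ⟨g, α, β, γ, δ, h1, h2, h3, h4, h5, h6⟩ := ih hk
    obtain ⟨c, ⟨rfl, u, u1, u2⟩ | ⟨rfl, u, u1, u2⟩⟩ := hT s hs
    · refine ⟨u * g, α, β + C c * α, γ, δ + C c * γ, (u1.mul h1).mono (by rw [Nat.mul_succ]; omega),
        by simp [h2, h4]; ring, by simp [h3, h5], by simp [h4], by simp [h5], ?_⟩
      rw [map_mul, u2, h6]
      simp only [map_add, map_mul, aeval_C, ← Algebra.smul_def, add_mul, mul_add, one_mul,
        smul_mul_assoc, ← mul_assoc, aeval_comm ca]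
      simp only [mul_assoc, ha, mul_zero, zero_mul, smul_zero, add_zero]
      abel
    · refine ⟨u * g, α + C c * β * X, β, γ + C c * α + C c * δ * X, δ - C c * β,
        (u1.mul h1).mono (by rw [Nat.mul_succ]; omega), by simp [h2]; ring, by simp [h3],
        by simp [h2, h4]; ring, by simp [h3, h5]; ring, ?_⟩
      rw [map_mul, u2, h6]
      simp only [map_add, map_sub, map_mul, aeval_C, aeval_X, ← Algebra.smul_def, add_mul, mul_add,
        sub_mul, one_mul, smul_mul_assoc, ← mul_assoc, aeval_comm cb]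
      simp only [mul_assoc, hb, mul_zero, smul_zero, add_zero, smul_add, zero_add]
      abel

theorem op_Eu (ha : a * a = 0) (hb : b * b = 0) {T : Set (S2 (ZMod p)[X])} {l : ℕ}
    (hT : ∀ s, s ∈ T ∨ s⁻¹ ∈ T → ∃ c : ZMod p,
      s = Eu (C c) ∧ Sh ρ S l (c • a) ∨ s = El (C c * X) ∧ Sh ρ S l (c • b))
    {L : ℕ} {W : S2 (ZMod p)[X]} (hW : Len T L W) {m θ : (ZMod p)[X]}
    (hm : aeval (a * b + b * a) m = 0) (hθ : W⁻¹ * Eu θ ∈ Kn (X * m)) :
    Sh ρ S (l * L) (aeval (a * b + b * a) θ * a) := by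
  obtain ⟨g, α, β, γ, δ, h1, h2, h3, h4, h5, h6⟩ := op_word ha hb hT hW
  have e : W * (Eu θ)⁻¹ ∈ Kn (X * m) := by
    have := Kn_conj ((Kn _).inv_mem hθ) (Eu θ)
    rwa [show Eu θ * (W⁻¹ * Eu θ)⁻¹ * (Eu θ)⁻¹ = W * (Eu θ)⁻¹ by group] at this
  obtain ⟨⟨r1, k1⟩, ⟨r2, k2⟩, ⟨r3, k3⟩, ⟨r4, k4⟩⟩ := mem_Kn.1 e
  simp only [mul_a, mul_b, mul_c, mul_d, inv_a, inv_b, inv_c, inv_d, Eu_a, Eu_b, Eu_c, Eu_d, h2, h3,
    h4, h5] at k1 k2 k3 k4
  have e1 : γ = m * r3 := mul_left_cancel₀ X_ne_zero (by linear_combination k3)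
  have e2 : α = 1 + m * (X * (r4 + r3 * θ)) := by linear_combination k4 + θ * k3
  have e3 : δ = m * (r1 - r4 - r3 * θ) :=
    mul_left_cancel₀ X_ne_zero (by linear_combination k1 - e2)
  have e4 : β = θ + m * (X * (r2 + r1 * θ)) := by linear_combination k2 + θ * k1
  exact ⟨g, h1, by rw [h6, e1, e2, e3, e4]; simp [hm]⟩

theorem exists_ann [Finite E] (t : E) {Λ : ℕ} (hΛ : p * Nat.card E ≤ 2 ^ Λ) :
    ∃ m : (ZMod p)[X], X * m ≠ 0 ∧ aeval t m = 0 ∧ p ^ (X * m).natDegree ≤ 2 ^ Λ := by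
  have hi : IsIntegral (ZMod p) t := IsIntegral.of_finite _ _
  refine ⟨minpoly (ZMod p) t, mul_ne_zero X_ne_zero (minpoly.ne_zero hi), minpoly.aeval _ _, ?_⟩
  rw [natDegree_X_mul (minpoly.ne_zero hi), pow_succ']
  refine (Nat.mul_le_mul_left _ ?_).trans hΛ
  rw [Module.natCard_eq_pow_finrank (K := ZMod p), Nat.card_zmod]
  exact Nat.pow_le_pow_right (Fact.out : p.Prime).pos (minpoly.natDegree_le t)

/-- First round: all multiples over the prime field become short. -/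
theorem round_one [Finite E] (hp : 5 ≤ p) {Λ : ℕ} (h2 : 2 ≤ Λ) (hΛ : p * Nat.card E ≤ 2 ^ Λ)
    (ha : a * a = 0) (hb : b * b = 0) {l : ℕ} (h : Sh ρ S l a) (h' : Sh ρ S l b) :
    ∃ D : ℕ, ∀ c : ZMod p, Sh ρ S (l * Λ ^ 1028) (c • ((a * b + b * a) ^ D * a)) := by
  obtain ⟨m, m1, m2, m3⟩ := exists_ann (a * b + b * a) hΛ
  refine ⟨(X * m).natDegree, fun c => ?_⟩
  obtain ⟨W, k1, k2⟩ := approx_split hp m1 h2 m3 (g := Eu (C c * X ^ (X * m).natDegree))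
    (by simp [mem_Kn])
  have := op_Eu (ρ := ρ) (S := S) (l := l) ha hb (by
    rintro s ((rfl | rfl) | hs | hs)
    · exact ⟨1, Or.inl ⟨by simp, by simpa⟩⟩
    · exact ⟨1, Or.inr ⟨by simp, by simpa⟩⟩
    · exact ⟨-1, Or.inl ⟨by rw [← inv_inv s, hs, ← Eu_neg]; simp, by simpa using h.neg ha⟩⟩
    · exact ⟨-1, Or.inr ⟨by rw [← inv_inv s, hs, ← El_neg]; simp, by simpa using h'.neg hb⟩⟩)
    k1 m2 k2
  simpa [Algebra.smul_def, mul_assoc] using this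

/-- Second round: the triple product is short. -/
theorem round_two [Finite E] (hp : 5 ≤ p) {Λ : ℕ} (h2 : 2 ≤ Λ) (hΛ : p * Nat.card E ≤ 2 ^ Λ)
    (ha : a * a = 0) (hb : b * b = 0) {l : ℕ} (h : ∀ c : ZMod p, Sh ρ S l (c • a))
    (h' : ∀ c : ZMod p, Sh ρ S l (c • b)) (c : ZMod p) :
    Sh ρ S (l * Λ ^ 1029) (c • (a * b * a)) := by
  obtain ⟨m, m1, m2, m3⟩ := exists_ann (a * b + b * a) hΛ
  obtain ⟨W, k1, k2⟩ := approx_all hp m1 h2 m3 (g := Eu (C c * X)) (by simp [mem_Kn])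
  have := op_Eu (ρ := ρ) (S := S) (l := l) ha hb (by
    rintro s (⟨d, rfl | rfl⟩ | ⟨d, hs | hs⟩)
    · exact ⟨d, Or.inl ⟨rfl, h d⟩⟩
    · exact ⟨d, Or.inr ⟨rfl, h' d⟩⟩
    · exact ⟨-d, Or.inl ⟨by rw [← inv_inv s, hs, ← Eu_neg]; simp, h _⟩⟩
    · exact ⟨-d, Or.inr ⟨by rw [← inv_inv s, hs, ← El_neg]; simp, h' _⟩⟩)
    k1 m2 k2
  simpa [Algebra.smul_def, mul_assoc, add_mul, ha] using this

end Pool.Agent.P.MP_bed792_al.Q
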