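import Pool.Agent.P.MP_bed792_al.Q.Dick2
import Pool.Agent.P.MP_bed792_al.Q.Arith

set_option autoImplicit false
set_option linter.unusedSectionVars false

open Finset

namespace Pool.Agent.P.MP_bed792_al.Q

open S2

theorem card_le_of_fib {α β : Type*} [DecidableEq β] (s : Finset α) (f : α → β) (t : Finset β)
    (n : ℕ) (hf : ∀ a ∈ s, f a ∈ t) (hn : ∀ a₀ ∈ s, (s.filter fun a => f a = f a₀).card ≤ n) :
    s.card ≤ n * t.card :=
  (card_le_mul_card_image s n fun b hb => by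
    obtain ⟨a, ha, rfl⟩ := mem_image.1 hb
    exact hn a ha).trans (Nat.mul_le_mul_left _ (card_le_card (image_subset_iff.2 hf)))

variable {K : Type} [Field K] [Fintype K] [DecidableEq K]

/-- The ball of radius `j`. -/
noncomputable def bl (S : Set (S2 K)) (j : ℕ) : Finset (S2 K) :=
  (Set.toFinite {g | Len S j g}).toFinset

open Classical in
/-- The short elements of a conjugate of the upper unipotent group. -/
noncomputable def cs (S : Set (S2 K)) (j : ℕ) (h : S2 K) : Finset K :=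
  univ.filter fun c => Len S j (h * Eu c * h⁻¹)

open Classical in
/-- The short non-trivial unipotent elements. -/
noncomputable def ys (S : Set (S2 K)) (j : ℕ) : Finset (S2 K) :=
  (bl S j).filter fun g => tr g = 2 ∧ g ≠ 1

variable {S : Set (S2 K)} {τ : K}

theorem mem_bl {j : ℕ} {g : S2 K} : g ∈ bl S j ↔ Len S j g := by simp [bl]

theorem mem_cs {j : ℕ} {h : S2 K} {c : K} : c ∈ cs S j h ↔ Len S j (h * Eu c * h⁻¹) := by simp [cs]

theorem mem_ys {j : ℕ} {g : S2 K} : g ∈ ys S j ↔ Len S j g ∧ tr g = 2 ∧ g ≠ 1 := by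
  simp [ys, mem_bl]

theorem bl_pos (j : ℕ) : 1 ≤ (bl S j).card := card_pos.2 ⟨1, mem_bl.2 (Len.one _ _)⟩

theorem bl_mono {i j : ℕ} (h : i ≤ j) : (bl S i).card ≤ (bl S j).card :=
  card_le_card fun _ hg => mem_bl.2 ((mem_bl.1 hg).mono h)

theorem cs_cube (hu : Eu 1 ∈ S) (hv : El τ ∈ S) (hτ : τ ≠ 0) (m : ℕ) (h : S2 K) :
    (cs S m h).card ^ 3 ≤ 2 * (bl S (3 * m + 2)).card := by
  obtain ⟨a, ha, hc⟩ : ∃ a ∈ S, (h⁻¹ * a * h).c ≠ 0 := by
    by_contra hc
    push Not at hc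
    have h1 := hc _ hu
    have h2 := hc _ hv
    have h3 := h.det
    simp only [mul_c, mul_d, inv_c, inv_d, Eu_a, Eu_b, Eu_c, Eu_d, El_a, El_b, El_c, El_d] at h1 h2
    have e1 : h.c = 0 := pow_eq_zero_iff (n := 2) (by norm_num) |>.1 (by linear_combination -h1)
    have e2 : h.a = 0 := pow_eq_zero_iff (n := 2) (by norm_num) |>.1
      (mul_left_cancel₀ hτ (by linear_combination h2))
    simp [e1, e2] at h3
  obtain ⟨a', rfl⟩ : ∃ a', a = h * a' * h⁻¹ := ⟨h⁻¹ * a * h, by group⟩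
  rw [show h⁻¹ * (h * a' * h⁻¹) * h = a' by group] at hc
  set C := cs S m h with hC
  have key : (C ×ˢ C.erase 0 ×ˢ C).card ≤ (bl S (3 * m + 2)).card := by
    refine card_le_card_of_injOn
      (fun p => h * (Eu p.1 * (a' * Eu p.2.1 * a'⁻¹) * Eu p.2.2) * h⁻¹) (fun p hp => ?_) ?_
    · simp only [coe_product, Set.mem_prod, mem_coe, mem_erase, hC, mem_cs] at hp
      refine mem_coe.2 (mem_bl.2 ?_)
      have := (hp.1.mul ((Len.of_mem (Or.inl ha)).conj hp.2.1.2)).mul hp.2.2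
      have e : h * Eu p.1 * h⁻¹ * (h * a' * h⁻¹ * (h * Eu p.2.1 * h⁻¹) * (h * a' * h⁻¹)⁻¹) *
          (h * Eu p.2.2 * h⁻¹) = h * (Eu p.1 * (a' * Eu p.2.1 * a'⁻¹) * Eu p.2.2) * h⁻¹ := by group
      rw [e] at this
      exact this.mono (by omega)
    · rintro ⟨x, y, w⟩ hp ⟨x', y', w'⟩ - e
      simp only [coe_product, Set.mem_prod, mem_coe, mem_erase] at hp
      have e' := mul_left_cancel (mul_right_cancel e)
      have e1 := congrArg S2.c e'
      have e2 := congrArg S2.d e'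
      have e3 := congrArg S2.a e'
      simp only [mul_a, mul_b, mul_c, mul_d, inv_a, inv_b, inv_c, inv_d, Eu_a, Eu_b, Eu_c,
        Eu_d] at e1 e2 e3
      have hc2 := pow_ne_zero 2 hc
      obtain rfl : y = y' := mul_left_cancel₀ hc2 (by linear_combination -e1)
      have hc3 := mul_ne_zero hc2 hp.2.1.1
      obtain rfl : w = w' := mul_left_cancel₀ hc3 (by linear_combination -e2)
      obtain rfl : x = x' := mul_left_cancel₀ hc3 (by linear_combination -e3)
      rfl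
  rw [card_product, card_product] at key
  have h1 := pred_card_le_card_erase (s := C) (a := 0)
  have h2 := bl_pos (S := S) (3 * m + 2)
  generalize C.card = c at *
  rcases c with _ | _ | c
  · simp
  · omega
  · have := Nat.mul_le_mul_left (c + 2) (Nat.mul_le_mul_right (c + 2) h1)
    simp only [Nat.add_sub_cancel] at this
    nlinarith

/-- Parametrisation of unipotent elements. -/
def nn (p : K × K) : S2 K := ⟨1 + p.1 * p.2, -p.1 * p.2 ^ 2, p.1, 1 - p.1 * p.2, by ring⟩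

theorem nn_eq (p : K × K) : nn p = Eu p.2 * wy * Eu (-p.1) * (Eu p.2 * wy)⁻¹ := by
  ext <;> simp [nn] <;> ring

theorem nn_inj {p p' : K × K} (hp : p.1 ≠ 0) (h : nn p = nn p') : p = p' := by
  have h1 : p.1 = p'.1 := congrArg S2.c h
  have h2 := congrArg S2.a h
  simp only [nn, ← h1] at h2
  exact Prod.ext h1 (mul_left_cancel₀ hp (by linear_combination h2))

theorem tr_nn_mul (p : K × K) (g : S2 K) :
    tr (g * nn p) = tr g + p.1 * (-g.c * p.2 ^ 2 + (g.a - g.d) * p.2 + g.b) := by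
  simp [tr, nn]; ring

theorem good_fib {p₁ p₂ p₃ : K × K} {g g' : S2 K} (e : nn p₁ * nn p₂ = g)
    (e' : nn p₂ * nn p₃ = g') :
    p₂.1 * (-g.c * p₂.2 ^ 2 + (g.a - g.d) * p₂.2 + g.b) = tr g - 2 ∧
    p₂.1 * (-g'.c * p₂.2 ^ 2 + (g'.a - g'.d) * p₂.2 + g'.b) = tr g' - 2 := by
  subst e e'
  constructor <;> simp [tr, nn] <;> ring

theorem degenerate {g g' : S2 K} (h0 : tr g - 2 ≠ 0)
    (h1 : (tr g' - 2) * -g.c - (tr g - 2) * -g'.c = 0)
    (h2 : (tr g' - 2) * (g.a - g.d) - (tr g - 2) * (g'.a - g'.d) = 0)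
    (h3 : (tr g' - 2) * g.b - (tr g - 2) * g'.b = 0) (h : (2 : K) ≠ 0) : g' = 1 ∨ g' = g := by
  obtain ⟨s, hs⟩ : ∃ s, tr g' - 2 = s * (tr g - 2) := ⟨(tr g' - 2) / (tr g - 2), by field_simp⟩
  rw [hs] at h1 h2 h3
  have e1 : g'.c = s * g.c := mul_left_cancel₀ h0 (by linear_combination h1)
  have e2 : g'.b = s * g.b := mul_left_cancel₀ h0 (by linear_combination -h3)
  have e3 : g'.a - g'.d = s * (g.a - g.d) := mul_left_cancel₀ h0 (by linear_combination -h2)
  unfold tr at hs h0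
  have e4 : g'.a = 1 + s * (g.a - 1) := mul_left_cancel₀ h (by linear_combination hs + e3)
  have e5 : g'.d = 1 + s * (g.d - 1) := mul_left_cancel₀ h (by linear_combination hs - e3)
  have d1 := g.det
  have d2 := g'.det
  rw [e1, e2, e4, e5] at d2
  have : s * (1 - s) = 0 := mul_left_cancel₀ h0 (by linear_combination d2 - s ^ 2 * d1)
  rcases mul_eq_zero.1 this with h | h
  · left; ext <;> simp [e1, e2, e4, e5, h]
  · obtain rfl : s = 1 := by linear_combination -h
    right; ext <;> simp [e1, e2, e4, e5]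

theorem ys_cube (h2 : (2 : K) ≠ 0) (hu : Eu 1 ∈ S) (hv : El τ ∈ S) (hτ : τ ≠ 0) (m : ℕ) :
    (ys S m).card ^ 3 ≤ 2 ^ 12 * (bl S (3 * m + 2)).card ^ 2 := by
  classical
  obtain ⟨h₀, hh₀⟩ := Finite.exists_max fun h : S2 K => (cs S m h).card
  have hM := cs_cube hu hv hτ m h₀
  generalize (cs S m h₀).card = M at hM hh₀
  set P := univ.filter fun p : K × K => p.1 ≠ 0 ∧ Len S m (nn p) with hP
  have memP : ∀ p, p ∈ P ↔ p.1 ≠ 0 ∧ Len S m (nn p) := fun p => by simp [hP]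
  have hy : (ys S m).card ≤ P.card + M := by
    have : ys S m ⊆ P.image nn ∪ (cs S m 1).image Eu := fun g hg => by
      obtain ⟨k1, k2, -⟩ := mem_ys.1 hg
      have d := g.det
      unfold tr at k2
      by_cases hc : g.c = 0
      · have e1 : g.a = 1 := sub_eq_zero.1 (pow_eq_zero_iff (n := 2) (by norm_num) |>.1
          (by rw [hc] at d; linear_combination g.a * k2 - d))
        have e : Eu g.b = g := by ext <;> simp [e1, hc]; linear_combination e1 - k2
        exact mem_union_right _ (mem_image.2 ⟨g.b, mem_cs.2 (by simpa [e] using k1), e⟩)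
      · have e : nn (g.c, (g.a - 1) / g.c) = g := by
          ext <;> simp only [nn] <;> field_simp
          · ring
          · linear_combination d - g.a * k2
          · linear_combination -k2
        exact mem_union_left _ (mem_image.2 ⟨_, (memP _).2 ⟨hc, by rwa [e]⟩, e⟩)
    exact (card_le_card this).trans ((card_union_le _ _).trans
      (Nat.add_le_add card_image_le (card_image_le.trans (hh₀ 1))))
  refine (Nat.pow_le_pow_left hy _).trans (ar_de (bl_pos _) ?_ hM)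
  set A := P ×ˢ P ×ˢ P with hA
  have memA : ∀ t, t ∈ A ↔ t.1 ∈ P ∧ t.2.1 ∈ P ∧ t.2.2 ∈ P := fun t => by simp [hA]
  have b1 : (A.filter fun t => t.1.2 = t.2.1.2).card ≤ M * (P ×ˢ P).card := by
    refine card_le_of_fib _ (fun t => (t.1, t.2.2)) _ _ (fun t ht => ?_) fun t₀ _ => ?_
    · obtain ⟨k1, -, k3⟩ := (memA t).1 (mem_filter.1 ht).1
      exact mem_product.2 ⟨k1, k3⟩
    · refine le_trans (card_le_card_of_injOn (fun t => -t.2.1.1) (fun t ht => ?_) ?_)
        (hh₀ (Eu t₀.1.2 * wy))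
      · obtain ⟨k1, k2⟩ := mem_filter.1 (mem_coe.1 ht)
        obtain ⟨k3, k4⟩ := mem_filter.1 k1
        refine mem_coe.2 (mem_cs.2 ?_)
        rw [← (Prod.mk.inj k2).1, k4, ← nn_eq]
        exact ((memP _).1 ((memA t).1 k3).2.1).2
      · intro t ht t' ht' e
        obtain ⟨k1, k2⟩ := mem_filter.1 (mem_coe.1 ht)
        obtain ⟨k1', k2'⟩ := mem_filter.1 (mem_coe.1 ht')
        obtain ⟨k5, k6⟩ := Prod.mk.inj (k2.trans k2'.symm)
        refine Prod.ext k5 (Prod.ext (Prod.ext (neg_injective e) ?_) k6)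
        rw [← (mem_filter.1 k1).2, ← (mem_filter.1 k1').2, k5]
  have b2 : (A.filter fun t => nn t.2.1 * nn t.2.2 = 1 ∨
      nn t.2.1 * nn t.2.2 = nn t.1 * nn t.2.1).card ≤ 2 * (P ×ˢ P).card := by
    refine card_le_of_fib _ (fun t => (t.1, t.2.1)) _ _ (fun t ht => ?_) fun t₀ _ => ?_
    · obtain ⟨k1, k3, -⟩ := (memA t).1 (mem_filter.1 ht).1
      exact mem_product.2 ⟨k1, k3⟩
    · refine le_trans (card_le_card_of_injOn (fun t => nn t₀.2.1 * nn t.2.2)
        (t := {1, nn t₀.1 * nn t₀.2.1}) (fun t ht => ?_) ?_) card_le_two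
      · obtain ⟨k1, k2⟩ := mem_filter.1 (mem_coe.1 ht)
        obtain ⟨k5, k6⟩ := Prod.mk.inj k2
        simpa [← k5, ← k6] using (mem_filter.1 k1).2
      · intro t ht t' ht' e
        obtain ⟨k1, k2⟩ := mem_filter.1 (mem_coe.1 ht)
        obtain ⟨k1', k2'⟩ := mem_filter.1 (mem_coe.1 ht')
        obtain ⟨k5, k6⟩ := Prod.mk.inj (k2.trans k2'.symm)
        exact Prod.ext k5 (Prod.ext k6 (nn_inj ((memP _).1 ((memA t).1 (mem_filter.1 k1).1).2.2).1
          (mul_left_cancel e)))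
  have b3 : (A.filter fun t => t.1.2 ≠ t.2.1.2 ∧ ¬ (nn t.2.1 * nn t.2.2 = 1 ∨
      nn t.2.1 * nn t.2.2 = nn t.1 * nn t.2.1)).card ≤
      2 * (bl S (3 * m + 2) ×ˢ bl S (3 * m + 2)).card := by
    refine card_le_of_fib _ (fun t => (nn t.1 * nn t.2.1, nn t.2.1 * nn t.2.2)) _ _
      (fun t ht => ?_) fun t₀ ht₀ => ?_
    · obtain ⟨k1, k2, k3⟩ := (memA t).1 (mem_filter.1 ht).1
      exact mem_product.2 ⟨mem_bl.2 ((((memP _).1 k1).2.mul ((memP _).1 k2).2).mono (by omega)),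
        mem_bl.2 ((((memP _).1 k2).2.mul ((memP _).1 k3).2).mono (by omega))⟩
    obtain ⟨a1, a2, a3⟩ := mem_filter.1 ht₀
    obtain ⟨a4, a5, -⟩ := (memA _).1 a1
    have h0 : tr (nn t₀.1 * nn t₀.2.1) - 2 ≠ 0 := by
      have : tr (nn t₀.1 * nn t₀.2.1) - 2 = -(t₀.1.1 * t₀.2.1.1 * (t₀.1.2 - t₀.2.1.2) ^ 2) := by
        simp [tr, nn]; ring
      rw [this]
      exact neg_ne_zero.2 (mul_ne_zero (mul_ne_zero ((memP _).1 a4).1 ((memP _).1 a5).1)
        (pow_ne_zero _ (sub_ne_zero.2 a2)))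
    generalize nn t₀.1 * nn t₀.2.1 = g at *
    generalize nn t₀.2.1 * nn t₀.2.2 = g' at *
    refine le_trans (card_le_card_of_injOn (fun t => t.2.1.2) (fun t ht => ?_) ?_)
      (quad_roots (A := (tr g' - 2) * -g.c - (tr g - 2) * -g'.c)
        (B := (tr g' - 2) * (g.a - g.d) - (tr g - 2) * (g'.a - g'.d))
        (C := (tr g' - 2) * g.b - (tr g - 2) * g'.b)
        fun h => a3 (degenerate h0 h.1 h.2.1 h.2.2 h2))
    · obtain ⟨k1, k2⟩ := mem_filter.1 (mem_coe.1 ht)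
      obtain ⟨k3, k4⟩ := good_fib (Prod.mk.inj k2).1 (Prod.mk.inj k2).2
      refine mem_coe.2 (mem_filter.2 ⟨mem_univ _, mul_left_cancel₀
        ((memP _).1 ((memA t).1 (mem_filter.1 k1).1).2.1).1 ?_⟩)
      linear_combination (tr g' - 2) * k3 - (tr g - 2) * k4
    · intro t ht t' ht' e
      obtain ⟨k1, k2⟩ := mem_filter.1 (mem_coe.1 ht)
      obtain ⟨k1', k2'⟩ := mem_filter.1 (mem_coe.1 ht')
      obtain ⟨k5, k6⟩ := Prod.mk.inj k2
      obtain ⟨k5', k6'⟩ := Prod.mk.inj k2'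
      have k3 := (good_fib k5 k6).1
      have k3' := (good_fib k5' k6').1
      have e' : t.2.1.2 = t'.2.1.2 := e
      rw [← e'] at k3'
      have e2 : t.2.1 = t'.2.1 := Prod.ext (mul_right_cancel₀ (fun h => h0 (by rw [← k3, h, mul_zero]))
        (k3.trans k3'.symm)) e'
      obtain ⟨m1, -, m3⟩ := (memA t).1 (mem_filter.1 k1).1
      rw [← e2] at k5' k6'
      exact Prod.ext (nn_inj ((memP _).1 m1).1 (mul_right_cancel (k5.trans k5'.symm)))
        (Prod.ext e2 (nn_inj ((memP _).1 m3).1 (mul_left_cancel (k6.trans k6'.symm))))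
  have cA : A.card = P.card ^ 3 := by rw [hA, card_product, card_product]; ring
  have := card_le_card (s := A) (t := (A.filter fun t => t.1.2 = t.2.1.2) ∪
    (A.filter fun t => nn t.2.1 * nn t.2.2 = 1 ∨ nn t.2.1 * nn t.2.2 = nn t.1 * nn t.2.1) ∪
    A.filter fun t => t.1.2 ≠ t.2.1.2 ∧ ¬ (nn t.2.1 * nn t.2.2 = 1 ∨
      nn t.2.1 * nn t.2.2 = nn t.1 * nn t.2.1)) (fun t ht => by
    simp only [mem_union, mem_filter, ht, true_and]
    tauto)
  have c1 := this.trans ((card_union_le _ _).trans (Nat.add_le_add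
    ((card_union_le _ _).trans (Nat.add_le_add b1 b2)) b3))
  rw [cA, card_product, card_product] at c1
  nlinarith

end Pool.Agent.P.MP_bed792_al.Q
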