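import Pool.Agent.P.MP_bed792_al.Q.Heis

set_option autoImplicit false
set_option linter.unusedSectionVars false
set_option exponentiation.threshold 3000

open Module

namespace Pool.Agent.P.MP_bed792_al.Q

variable {G F V : Type*} [Group G] [Field F] [AddCommGroup V] [Module F V] {ρ : G →* End F V}
  {S : Set G} {p Λ l : ℕ} {K : Subfield F} {a n : End F V} {κ : F}

/-- A one-parameter subgroup of the group in general position with respect to `a`. -/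
structure Ext (ρ : G →* End F V) (K : Subfield F) (a n : End F V) (κ : F) : Prop where
  nn : n * n = 0
  nan : n * a * n = κ • n
  mem : κ ∈ K
  ne : κ ≠ 0
  ex : ∀ c ∈ K, ∃ x, ρ x = 1 + c • n
  tr : LinearMap.trace F V (a * n) ≠ 0

theorem inv_of_sq {x : G} (hn : n * n = 0) (hx : ρ x = 1 + n) : ρ x⁻¹ = 1 - n :=
  calc ρ x⁻¹ = ρ x⁻¹ * ((1 + n) * (1 - n)) := by
        rw [show (1 + n) * (1 - n) = 1 - n * n by noncomm_ring, hn, sub_zero, mul_one]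
    _ = _ := by rw [← mul_assoc, ← hx, rho_inv_mul, one_mul]

theorem Ext.mul_cj (h : Ext ρ K a n κ) (ha : a * a = 0) {x : G} {c : F} (hx : ρ x = 1 + c • n) :
    a * cj ρ a x = c • (a * n * a) - (c ^ 2 * κ) • (a * n) := by
  rw [cj, inv_of_sq (by simp [h.nn]) hx, hx]
  have e1 : ∀ y, a * (a * y) = 0 := fun y => by rw [← mul_assoc, ha, zero_mul]
  have e2 : n * (a * n) = κ • n := by rw [← mul_assoc, h.nan]
  simp only [mul_add, add_mul, mul_sub, smul_mul_assoc, mul_smul_comm, mul_assoc, one_mul, mul_one,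
    ha, e1, e2, smul_zero]
  module

theorem Ext.triple (h : Ext ρ K a n κ) (ha : a * a = 0) {x : G} {c : F} (hx : ρ x = 1 + c • n) :
    a * cj ρ a x * a = (-(c ^ 2 * κ)) • (a * n * a) := by
  rw [h.mul_cj ha hx]
  simp [sub_mul, mul_assoc, ha]

theorem Ext.ana_ne (h : Ext ρ K a n κ) : a * n * a ≠ 0 := fun h0 => by
  have : n * (a * n * a) * n = κ • (κ • n) := by
    rw [show n * (a * n * a) * n = (n * a * n) * a * n by noncomm_ring, h.nan, smul_mul_assoc,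
      smul_mul_assoc, h.nan]
  rw [h0, mul_zero, zero_mul, eq_comm, smul_eq_zero_iff_right h.ne,
    smul_eq_zero_iff_right h.ne] at this
  exact h.tr (by simp [this])

theorem Ext.exists_ne (h : Ext ρ K a n κ) (ha : a * a = 0) : ∃ x, a * cj ρ a x * a ≠ 0 := by
  obtain ⟨x, hx⟩ := h.ex 1 K.one_mem
  exact ⟨x, by rw [h.triple ha hx]; exact smul_ne_zero (by simpa using h.ne) h.ana_ne⟩

theorem Ext.exists_tr (h : Ext ρ K a n κ) (ha : a * a = 0) :
    ∃ x, LinearMap.trace F V (a * cj ρ a x) ≠ 0 := by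
  obtain ⟨x, hx⟩ := h.ex 1 K.one_mem
  refine ⟨x, ?_⟩
  rw [h.mul_cj ha hx, map_sub, map_smul, map_smul, LinearMap.trace_mul_comm, ← mul_assoc, ha]
  simpa using ⟨h.ne, h.tr⟩

/-- From a short quadratic element to a short root subgroup. -/
theorem Ctx.root (C : Ctx F ρ S p Λ) (P : End F V → Prop)
    (hP : ∀ a : End F V, a ≠ 0 → a * a = 0 → (∃ g, ρ g = 1 + a) →
      ∃ n κ, Ext ρ K a n κ ∧ P (a * n * a))
    (h0 : a ≠ 0) (ha : a * a = 0) (h : Sh ρ S 1 a) :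
    ∃ a₁, P a₁ ∧ a₁ ≠ 0 ∧ a₁ * a₁ = 0 ∧ ∀ c ∈ K, Sh ρ S (Λ ^ 2062) (c • a₁) := by
  obtain ⟨n, κ, e, -⟩ := hP a h0 ha (h.imp fun _ h => h.2)
  obtain ⟨x, hx⟩ := e.exists_tr ha
  obtain ⟨a', b1, b2, b3⟩ := C.boost ha h hx
  obtain ⟨n', κ', e', hP'⟩ := hP a' b1 b2 (by simpa using (b3 1).imp fun _ h => h.2)
  have sq : a' * n' * a' * (a' * n' * a') = 0 := by
    rw [show a' * n' * a' * (a' * n' * a') = a' * n' * (a' * a') * n' * a' by noncomm_ring, b2]; simp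
  refine ⟨_, hP', e'.ana_ne, sq, fun c hc => ?_⟩
  have k : ∀ s ∈ K, Sh ρ S _ ((-(s ^ 2 * κ')) • (a' * n' * a')) := fun s hs => by
    obtain ⟨y, hy⟩ := e'.ex s hs
    rw [← e'.triple b2 hy]
    exact C.triple b2 b3 y
  have h2 := C.two_ne
  have hκ := e'.ne
  have m2 : (2 : F) ∈ K := by simpa using natCast_mem K 2
  have m3 := K.div_mem hc e'.mem
  refine (((k _ (K.div_mem (K.sub_mem m3 K.one_mem) m2)).add
    ((k _ (K.div_mem (K.add_mem m3 K.one_mem) m2)).neg (by simp [sq])) (by simp [sq])).mono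
    ?_).congr ?_
  · have := C.two
    have a1 : 2 * Λ + 1 ≤ Λ ^ 2 + 1 := by nlinarith
    have a2 : 2 * Λ + (2 * Λ + 1) * Λ ^ 1028 ≤ Λ ^ 1031 := by
      have b1 : Λ ≤ Λ ^ 1028 := Nat.le_self_pow (by norm_num) _
      rw [show Λ ^ 1031 = Λ ^ 3 * Λ ^ 1028 by rw [← pow_add]]
      generalize Λ ^ 1028 = U at *
      nlinarith [Nat.mul_le_mul_right U (show 2 * Λ + 3 ≤ Λ ^ 3 by nlinarith)]
    calc _ = 2 * (Λ * ((2 * Λ + (2 * Λ + 1) * Λ ^ 1028) * Λ ^ 1029)) := (two_mul _).symm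
      _ ≤ Λ * (Λ * (Λ ^ 1031 * Λ ^ 1029)) :=
        Nat.mul_le_mul this (Nat.mul_le_mul_left _ (Nat.mul_le_mul_right _ a2))
      _ = _ := by rw [← pow_add, ← pow_succ', ← pow_succ']
  · match_scalars
    field_simp
    ring

theorem QQ.of_end {N : End F V} (h1 : ∀ v, N (a v) = 0) (h2 : ∀ v, a (N v) = 0)
    (h3 : ∀ v, a v = 0 → ∃ w, N v = a w) : QQ a N :=
  ⟨LinearMap.ext h1, LinearMap.ext h2, fun r s hr hs => LinearMap.ext fun v => by
    obtain ⟨w, hw⟩ := h3 (s v) (LinearMap.congr_fun hs v)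
    simpa [hw] using LinearMap.congr_fun hr w⟩

theorem heis_le {Λ : ℕ} (h : 2 ≤ Λ) {k : ℕ} (hk : 3 ≤ k) :
    Λ * (24 * (2 * (Λ * Λ) + Λ ^ k)) + Λ ^ k ≤ Λ ^ (k + 7) := by
  have a1 : Λ ^ 3 ≤ Λ ^ k := Nat.pow_le_pow_right (by omega) hk
  have a2 : 2 ^ 6 ≤ Λ ^ 6 := Nat.pow_le_pow_left h 6
  have a3 : 2 * (Λ * Λ) ≤ Λ ^ k := le_trans (by nlinarith) a1
  rw [pow_add, show Λ ^ 7 = Λ * Λ ^ 6 by ring]
  generalize Λ ^ k = U at *
  calc Λ * (24 * (2 * (Λ * Λ) + U)) + U ≤ Λ * (24 * (U + U)) + Λ * U :=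
        Nat.add_le_add (by gcongr) (Nat.le_mul_of_pos_left _ (by omega))
    _ = 49 * (Λ * U) := by ring
    _ ≤ Λ ^ 6 * (Λ * U) := Nat.mul_le_mul_right _ (by omega)
    _ = _ := by ring

/-- The unipotent radical attached to a short root subgroup is short. -/
theorem Ctx.radical (C : Ctx F ρ S p Λ) (hinj : Function.Injective ρ) {k : ℕ} (hk : 3 ≤ k)
    (ha : a * a = 0) (h0 : a ≠ 0) (hs : ∀ c ∈ K, Sh ρ S (Λ ^ k) (c • a)) (e : Ext ρ K a n κ)
    (hex : ∀ x, ∃ κ ∈ K, a * cj ρ a x * a = κ • a)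
    (hZ : ∀ g y, ρ g = 1 + a * y * a → ∃ c ∈ K, a * y * a = c • a) {q : G}
    (h1 : ∀ v, ρ q (a v) = a v) (h2 : ∀ v, a (ρ q v) = a v)
    (h3 : ∀ v, a v = 0 → ∃ w, ρ q v = v + a w) : Len S (Λ ^ (k + 7)) q := by
  obtain ⟨x, hx⟩ := e.exists_ne ha
  obtain ⟨g, g1, g2⟩ := C.heis ha h0 hex hs hx hZ (q := q) (N := ρ q - 1) (by simp)
    (QQ.of_end (fun v => by simp [h1]) (fun v => by simp [h2]) fun v hv =>
      (h3 v hv).imp fun w hw => by simp [hw])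
  rw [← hinj (show ρ g = ρ q by simpa using g2)]
  exact g1.mono (heis_le C.two hk)

end Pool.Agent.P.MP_bed792_al.Q
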