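import Pool.Agent.P.MP_bed792_al.Ball

set_option autoImplicit false

namespace Pool.Agent.P.MP_bed792_al.Q

/-- Two by two matrices of determinant one. -/
@[ext] structure S2 (R : Type*) [CommRing R] where
  a : R
  b : R
  c : R
  d : R
  det : a * d - b * c = 1

namespace S2

variable {R R' : Type*} [CommRing R] [CommRing R']

instance : Mul (S2 R) := ⟨fun g h => ⟨g.a * h.a + g.b * h.c, g.a * h.b + g.b * h.d,
  g.c * h.a + g.d * h.c, g.c * h.b + g.d * h.d,
  by linear_combination (h.a * h.d - h.b * h.c) * g.det + h.det⟩⟩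

instance : One (S2 R) := ⟨⟨1, 0, 0, 1, by ring⟩⟩

instance : Inv (S2 R) := ⟨fun g => ⟨g.d, -g.b, -g.c, g.a, by linear_combination g.det⟩⟩

instance : Neg (S2 R) := ⟨fun g => ⟨-g.a, -g.b, -g.c, -g.d, by linear_combination g.det⟩⟩

@[simp] theorem mul_a (g h : S2 R) : (g * h).a = g.a * h.a + g.b * h.c := rfl
@[simp] theorem mul_b (g h : S2 R) : (g * h).b = g.a * h.b + g.b * h.d := rfl
@[simp] theorem mul_c (g h : S2 R) : (g * h).c = g.c * h.a + g.d * h.c := rfl
@[simp] theorem mul_d (g h : S2 R) : (g * h).d = g.c * h.b + g.d * h.d := rfl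
@[simp] theorem one_a : (1 : S2 R).a = 1 := rfl
@[simp] theorem one_b : (1 : S2 R).b = 0 := rfl
@[simp] theorem one_c : (1 : S2 R).c = 0 := rfl
@[simp] theorem one_d : (1 : S2 R).d = 1 := rfl
@[simp] theorem inv_a (g : S2 R) : g⁻¹.a = g.d := rfl
@[simp] theorem inv_b (g : S2 R) : g⁻¹.b = -g.b := rfl
@[simp] theorem inv_c (g : S2 R) : g⁻¹.c = -g.c := rfl
@[simp] theorem inv_d (g : S2 R) : g⁻¹.d = g.a := rfl
@[simp] theorem neg_a (g : S2 R) : (-g).a = -g.a := rfl
@[simp] theorem neg_b (g : S2 R) : (-g).b = -g.b := rfl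
@[simp] theorem neg_c (g : S2 R) : (-g).c = -g.c := rfl
@[simp] theorem neg_d (g : S2 R) : (-g).d = -g.d := rfl

instance : Group (S2 R) where
  mul_assoc g h k := by ext <;> simp <;> ring
  one_mul g := by ext <;> simp
  mul_one g := by ext <;> simp
  inv_mul_cancel g := by
    ext <;> simp
    · linear_combination g.det
    · ring
    · ring
    · linear_combination g.det

instance : HasDistribNeg (S2 R) where
  neg_neg g := by ext <;> simp
  neg_mul g h := by ext <;> simp <;> ring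
  mul_neg g h := by ext <;> simp <;> ring

theorem neg_inv' (g : S2 R) : (-g)⁻¹ = -g⁻¹ := by ext <;> simp

/-- Upper elementary matrix. -/
def Eu (x : R) : S2 R := ⟨1, x, 0, 1, by ring⟩

/-- Lower elementary matrix. -/
def El (y : R) : S2 R := ⟨1, 0, y, 1, by ring⟩

/-- The Weyl element. -/
def wy : S2 R := ⟨0, 1, -1, 0, by ring⟩

@[simp] theorem Eu_a (x : R) : (Eu x).a = 1 := rfl
@[simp] theorem Eu_b (x : R) : (Eu x).b = x := rfl
@[simp] theorem Eu_c (x : R) : (Eu x).c = 0 := rfl
@[simp] theorem Eu_d (x : R) : (Eu x).d = 1 := rfl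
@[simp] theorem El_a (x : R) : (El x).a = 1 := rfl
@[simp] theorem El_b (x : R) : (El x).b = 0 := rfl
@[simp] theorem El_c (x : R) : (El x).c = x := rfl
@[simp] theorem El_d (x : R) : (El x).d = 1 := rfl
@[simp] theorem wy_a : (wy : S2 R).a = 0 := rfl
@[simp] theorem wy_b : (wy : S2 R).b = 1 := rfl
@[simp] theorem wy_c : (wy : S2 R).c = -1 := rfl
@[simp] theorem wy_d : (wy : S2 R).d = 0 := rfl

theorem Eu_add (x y : R) : Eu (x + y) = Eu x * Eu y := by ext <;> simp [add_comm]
theorem El_add (x y : R) : El (x + y) = El x * El y := by ext <;> simp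
theorem Eu_neg (x : R) : Eu (-x) = (Eu x)⁻¹ := by ext <;> simp
theorem El_neg (x : R) : El (-x) = (El x)⁻¹ := by ext <;> simp
@[simp] theorem Eu_zero : Eu (0 : R) = 1 := by ext <;> simp
@[simp] theorem El_zero : El (0 : R) = 1 := by ext <;> simp
theorem Eu_inj {x y : R} (h : Eu x = Eu y) : x = y := congrArg S2.b h
theorem El_inj {x y : R} (h : El x = El y) : x = y := congrArg S2.c h

theorem Eu_pow (x : R) (n : ℕ) : Eu x ^ n = Eu (n * x) := by
  induction n with
  | zero => simp
  | succ n ih => rw [pow_succ, ih, ← Eu_add]; congr 1; push_cast; ring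

theorem El_pow (x : R) (n : ℕ) : El x ^ n = El (n * x) := by
  induction n with
  | zero => simp
  | succ n ih => rw [pow_succ, ih, ← El_add]; congr 1; push_cast; ring

theorem wy_El (y : R) : wy * El y * wy⁻¹ = Eu (-y) := by ext <;> simp

/-- The trace. -/
def tr (g : S2 R) : R := g.a + g.d

theorem tr_conj (h g : S2 R) : tr (h * g * h⁻¹) = tr g := by
  simp only [tr, mul_a, mul_b, mul_c, mul_d, inv_a, inv_b, inv_c, inv_d]
  linear_combination (g.a + g.d) * h.det

@[simp] theorem tr_neg (g : S2 R) : tr (-g) = -tr g := by simp only [tr, neg_a, neg_d]; ring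
@[simp] theorem tr_Eu (x : R) : tr (Eu x) = 2 := by simp only [tr, Eu_a, Eu_d]; ring
@[simp] theorem tr_El (x : R) : tr (El x) = 2 := by simp only [tr, El_a, El_d]; ring
@[simp] theorem tr_one : tr (1 : S2 R) = 2 := by simp only [tr, one_a, one_d]; ring

/-- Functoriality. -/
def map (φ : R →+* R') : S2 R →* S2 R' where
  toFun g := ⟨φ g.a, φ g.b, φ g.c, φ g.d, by rw [← map_mul, ← map_mul, ← map_sub, g.det, map_one]⟩
  map_one' := by ext <;> simp
  map_mul' g h := by ext <;> simp

@[simp] theorem map_a (φ : R →+* R') (g : S2 R) : (map φ g).a = φ g.a := rfl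
@[simp] theorem map_b (φ : R →+* R') (g : S2 R) : (map φ g).b = φ g.b := rfl
@[simp] theorem map_c (φ : R →+* R') (g : S2 R) : (map φ g).c = φ g.c := rfl
@[simp] theorem map_d (φ : R →+* R') (g : S2 R) : (map φ g).d = φ g.d := rfl
@[simp] theorem map_Eu (φ : R →+* R') (x : R) : map φ (Eu x) = Eu (φ x) := by ext <;> simp
@[simp] theorem map_El (φ : R →+* R') (x : R) : map φ (El x) = El (φ x) := by ext <;> simp
theorem map_neg' (φ : R →+* R') (g : S2 R) : map φ (-g) = -map φ g := by ext <;> simp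

theorem map_inj {φ : R →+* R'} (h : Function.Injective φ) : Function.Injective (map φ) :=
  fun _ _ e => S2.ext (h (congrArg S2.a e)) (h (congrArg S2.b e)) (h (congrArg S2.c e))
    (h (congrArg S2.d e))

theorem toProd_inj : Function.Injective fun g : S2 R => (g.a, g.b, g.c, g.d) := fun _ _ e => by
  simp only [Prod.mk.injEq] at e
  exact S2.ext e.1 e.2.1 e.2.2.1 e.2.2.2

instance [Finite R] : Finite (S2 R) := Finite.of_injective _ toProd_inj

theorem card_le [Finite R] : Nat.card (S2 R) ≤ Nat.card R ^ 4 := by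
  have := Nat.card_le_card_of_injective _ (toProd_inj (R := R))
  simp only [Nat.card_prod] at this
  exact this.trans (le_of_eq (by ring))

/-- `g` is plus or minus the identity. -/
def IsC (g : S2 R) : Prop := g = 1 ∨ g = -1

theorem IsC.conj {g : S2 R} (hg : IsC g) (h : S2 R) : h * g * h⁻¹ = g := by
  rcases hg with rfl | rfl <;> simp

theorem isC_conj {g h : S2 R} : IsC (h * g * h⁻¹) ↔ IsC g := by
  refine ⟨fun k => ?_, fun k => by rwa [k.conj]⟩
  have := k.conj h⁻¹
  simp only [mul_assoc, inv_mul_cancel_left, inv_inv, inv_mul_cancel, mul_one] at this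
  rw [this]
  simpa only [mul_assoc] using k

theorem IsC.mul {g h : S2 R} (hg : IsC g) (hh : IsC h) : IsC (g * h) := by
  rcases hg with rfl | rfl <;> rcases hh with rfl | rfl <;> simp [IsC]

theorem IsC.inv {g : S2 R} (hg : IsC g) : IsC g⁻¹ := by
  rcases hg with rfl | rfl <;> simp [IsC]

theorem isC_neg {g : S2 R} : IsC (-g) ↔ IsC g := by
  simp only [IsC, neg_eq_iff_eq_neg, neg_neg]; tauto

theorem IsC.b_eq {g : S2 R} (hg : IsC g) : g.b = 0 := by rcases hg with rfl | rfl <;> simp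
theorem IsC.c_eq {g : S2 R} (hg : IsC g) : g.c = 0 := by rcases hg with rfl | rfl <;> simp
theorem IsC.a_eq {g : S2 R} (hg : IsC g) : g.a = g.d := by rcases hg with rfl | rfl <;> simp

theorem isC_of (hR : ∀ x : R, x * x = 1 → x = 1 ∨ x = -1) {g : S2 R} (hb : g.b = 0) (hc : g.c = 0)
    (ha : g.a = g.d) : IsC g := by
  have h := g.det
  rw [hb, ← ha, zero_mul, sub_zero] at h
  rcases hR _ h with h | h
  · left; ext <;> simp [← ha, h, hb, hc]
  · right; ext <;> simp [← ha, h, hb, hc]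

/-- The centraliser of an upper elementary matrix. -/
theorem cent_Eu (hR : ∀ x : R, x * x = 1 → x = 1 ∨ x = -1) {x : R} (hx : IsUnit x) {g : S2 R}
    (h : g * Eu x = Eu x * g) : ∃ y, g = Eu y ∨ g = -Eu y := by
  have h1 := congrArg S2.a h
  have h2 := congrArg S2.b h
  simp only [mul_a, mul_b, Eu_a, Eu_b, Eu_c, Eu_d] at h1 h2
  have hc : g.c = 0 := hx.mul_left_cancel (by linear_combination -h1)
  have ha : g.a = g.d := hx.mul_left_cancel (by linear_combination h2)
  have h3 := g.det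
  rw [hc, ← ha, mul_zero, sub_zero] at h3
  rcases hR _ h3 with h | h
  · exact ⟨g.b, Or.inl (by ext <;> simp [← ha, h, hc])⟩
  · exact ⟨-g.b, Or.inr (by ext <;> simp [← ha, h, hc])⟩

theorem cent_El (hR : ∀ x : R, x * x = 1 → x = 1 ∨ x = -1) {x : R} (hx : IsUnit x) {g : S2 R}
    (h : g * El x = El x * g) : ∃ y, g = El y ∨ g = -El y := by
  have h1 := congrArg S2.a h
  have h2 := congrArg S2.c h
  simp only [mul_a, mul_c, El_a, El_b, El_c, El_d] at h1 h2
  have hb : g.b = 0 := hx.mul_left_cancel (by linear_combination h1)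
  have ha : g.a = g.d := hx.mul_left_cancel (by linear_combination -h2)
  have h3 := g.det
  rw [hb, ← ha, zero_mul, sub_zero] at h3
  rcases hR _ h3 with h | h
  · exact ⟨g.c, Or.inl (by ext <;> simp [← ha, h, hb])⟩
  · exact ⟨-g.c, Or.inr (by ext <;> simp [← ha, h, hb])⟩

section Field

variable {K : Type*} [Field K]

theorem sq_field (x : K) (h : x * x = 1) : x = 1 ∨ x = -1 := mul_self_eq_one_iff.1 h

theorem isC_iff {g : S2 K} : IsC g ↔ g.b = 0 ∧ g.c = 0 ∧ g.a = g.d :=
  ⟨fun h => ⟨h.b_eq, h.c_eq, h.a_eq⟩, fun h => isC_of sq_field h.1 h.2.1 h.2.2⟩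

/-- Diagonal matrices. -/
def dg (x : K) (hx : x ≠ 0) : S2 K := ⟨x, 0, 0, x⁻¹, by simp [hx]⟩

theorem dg_El (x : K) (hx : x ≠ 0) (y : K) : (dg x hx)⁻¹ * El y * (dg x hx)⁻¹⁻¹ = El (x ^ 2 * y) := by
  ext <;> simp [dg, hx]
  ring

theorem bruhat {g : S2 K} (hc : g.c ≠ 0) :
    g = Eu ((g.a - 1) / g.c) * El g.c * Eu ((g.d - 1) / g.c) := by
  have := g.det
  ext <;> simp <;> field_simp
  · ring
  · linear_combination -this
  · ring

/-- Every element is a product of four elementary matrices. -/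
theorem four (g : S2 K) : ∃ y x z w, g = El y * (Eu x * El z * Eu w) := by
  by_cases hc : g.c = 0
  · have ha : (El 1 * g).c ≠ 0 := by
      have := g.det
      simp only [mul_c, El_c, El_d, hc, one_mul, mul_zero, add_zero]
      intro h
      simp [h, hc] at this
    exact ⟨-1, _, _, _, by rw [← bruhat ha, El_neg, inv_mul_cancel_left]⟩
  · exact ⟨0, _, _, _, by rw [← bruhat hc, El_zero, one_mul]⟩

end Field

end S2

section LenMap

variable {G H : Type*} [Group G] [Group H]

theorem len_map (φ : G →* H) {S : Set G} {T : Set H} (hS : ∀ s ∈ S, φ s ∈ T) {L : ℕ} {g : G}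
    (h : Len S L g) : Len T L (φ g) := by
  obtain ⟨l, h1, h2, rfl⟩ := h
  refine ⟨l.map φ, by simpa using h1, fun x hx => ?_, by rw [map_list_prod]⟩
  obtain ⟨y, hy, rfl⟩ := List.mem_map.1 hx
  rcases h2 y hy with h | h
  · exact Or.inl (hS _ h)
  · exact Or.inr (by rw [← map_inv]; exact hS _ h)

theorem len_lift (φ : G →* H) {S : Set G} {T : Set H} (hT : ∀ t ∈ T, ∃ s ∈ S, φ s = t) {L : ℕ}
    {x : H} (h : Len T L x) : ∃ g, Len S L g ∧ φ g = x := by
  induction L generalizing x with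
  | zero => exact ⟨1, Len.one _ _, by rw [Len.zero_iff.1 h, map_one]⟩
  | succ L ih =>
    rcases Len.succ_iff.1 h with h | ⟨s, k, hs, hk, rfl⟩
    · obtain ⟨g, h1, h2⟩ := ih h
      exact ⟨g, h1.mono (by omega), h2⟩
    · obtain ⟨g, h1, rfl⟩ := ih hk
      rcases hs with hs | hs
      · obtain ⟨s', h2, rfl⟩ := hT s hs
        exact ⟨s' * g, ((Len.of_mem (Or.inl h2)).mul h1).mono (by omega), map_mul _ _ _⟩
      · obtain ⟨s', h2, h3⟩ := hT _ hs
        exact ⟨s'⁻¹ * g, ((Len.of_mem (Or.inr (by simpa using h2))).mul h1).mono (by omega),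
          by rw [map_mul, map_inv, h3, inv_inv]⟩

theorem len_comm {S : Set G} {a b : ℕ} {g h : G} (hg : Len S a g) (hh : Len S b h) :
    Len S (2 * a + 2 * b) (g * h * g⁻¹ * h⁻¹) :=
  ((hg.conj hh).mul hh.inv).mono (by omega)

end LenMap

end Pool.Agent.P.MP_bed792_al.Q
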